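import Mathlib

set_option autoImplicit false

namespace Pool.Agent.Helper8.Cantorval

open Finset

/-- The subsum of `y` over `A`. -/
noncomputable def S (y : ℕ → ℝ) (A : Set ℕ) : ℝ := ∑' n, A.indicator y n

section General

variable {y : ℕ → ℝ} {m : ℕ}

theorem sum_le (hy0 : ∀ n, 0 < y n) (hrec : ∀ n, y (n + m) = y n / 9) (n : ℕ) :
    ∑ i ∈ range n, y i ≤ 9 / 8 * ∑ i ∈ range m, y i := by
  induction n using Nat.strong_induction_on with
  | _ n ih =>
    have hpos : 0 ≤ ∑ i ∈ range m, y i := Finset.sum_nonneg fun i _ => (hy0 i).le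
    by_cases hn : n ≤ m
    · have h1 : ∑ i ∈ range n, y i ≤ ∑ i ∈ range m, y i :=
        Finset.sum_le_sum_of_subset_of_nonneg (Finset.range_mono hn) fun i _ _ => (hy0 i).le
      linarith
    · by_cases hm : m = 0
      · subst hm
        have := hrec 0
        have h0 := hy0 0
        simp at this
        linarith
      · obtain ⟨k, rfl⟩ : ∃ k, n = m + k := ⟨n - m, by omega⟩
        rw [Finset.sum_range_add]
        have h1 : ∑ x ∈ range k, y (m + x) = (∑ x ∈ range k, y x) / 9 := by
          rw [Finset.sum_div]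
          refine Finset.sum_congr rfl fun i _ => ?_
          rw [add_comm, hrec]
        rw [h1]
        have h2 := ih k (by omega)
        linarith

theorem summable_of_rec (hy0 : ∀ n, 0 < y n) (hrec : ∀ n, y (n + m) = y n / 9) : Summable y :=
  summable_of_sum_range_le (fun n => (hy0 n).le) (sum_le hy0 hrec)

theorem S_rec (hy0 : ∀ n, 0 < y n) (hrec : ∀ n, y (n + m) = y n / 9) (A : Set ℕ) :
    S y A = ∑ i ∈ range m, A.indicator y i + S y {n | n + m ∈ A} / 9 := by
  have hs := (summable_of_rec hy0 hrec).indicator A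
  unfold S
  rw [← hs.sum_add_tsum_nat_add m]
  congr 1
  rw [← tsum_div_const]
  refine tsum_congr fun n => ?_
  by_cases h : n + m ∈ A
  · rw [Set.indicator_of_mem h, Set.indicator_of_mem (show n ∈ {n | n + m ∈ A} from h), hrec]
  · rw [Set.indicator_of_notMem h, Set.indicator_of_notMem (show n ∉ {n | n + m ∈ A} from h),
      zero_div]

theorem S_nonneg (hy0 : ∀ n, 0 < y n) (A : Set ℕ) : 0 ≤ S y A :=
  tsum_nonneg fun n => Set.indicator_nonneg (fun i _ => (hy0 i).le) n

theorem S_le (hy0 : ∀ n, 0 < y n) (hrec : ∀ n, y (n + m) = y n / 9) (A : Set ℕ) :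
    S y A ≤ S y Set.univ := by
  have hs := summable_of_rec hy0 hrec
  refine (hs.indicator A).tsum_le_tsum (fun n => ?_) (hs.indicator Set.univ)
  rw [Set.indicator_univ]
  exact Set.indicator_le_self' (fun i _ => (hy0 i).le) n

theorem coind (hm : 0 < m) (hy0 : ∀ n, 0 < y n) (hrec : ∀ n, y (n + m) = y n / 9)
    (V : Set ℝ) (C : ℝ) (hC : ∀ v ∈ V, |v| ≤ C)
    (hV : ∀ v ∈ V, ∃ B : Set ℕ, 9 * (v - ∑ i ∈ range m, B.indicator y i) ∈ V) :
    ∀ v ∈ V, ∃ A : Set ℕ, v = S y A := by
  classical
  intro v hv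
  choose B hB using hV
  let nxt : V → V := fun w => ⟨9 * (w.1 - ∑ i ∈ range m, (B w.1 w.2).indicator y i), hB w.1 w.2⟩
  let seq : ℕ → V := fun k => nxt^[k] ⟨v, hv⟩
  have hseq : ∀ k, (seq k : ℝ) = ∑ i ∈ range m, (B (seq k).1 (seq k).2).indicator y i +
      (seq (k + 1) : ℝ) / 9 := by
    intro k
    have h1 : seq (k + 1) = nxt (seq k) := Function.iterate_succ_apply' _ _ _
    rw [h1]
    change _ = _ + (9 * ((seq k).1 - ∑ i ∈ range m, (B (seq k).1 (seq k).2).indicator y i)) / 9
    ring
  let A : ℕ → Set ℕ := fun j => {n | n % m ∈ B (seq (j + n / m)).1 (seq (j + n / m)).2}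
  have hA : ∀ j, S y (A j) = ∑ i ∈ range m, (B (seq j).1 (seq j).2).indicator y i +
      S y (A (j + 1)) / 9 := by
    intro j
    rw [S_rec hy0 hrec (A j)]
    congr 1
    · refine Finset.sum_congr rfl fun i hi => ?_
      have him : i < m := Finset.mem_range.mp hi
      have h1 : i ∈ A j ↔ i ∈ B (seq j).1 (seq j).2 := by
        change i % m ∈ B (seq (j + i / m)).1 (seq (j + i / m)).2 ↔ _
        rw [Nat.mod_eq_of_lt him, Nat.div_eq_of_lt him, add_zero]
      by_cases h : i ∈ A j
      · rw [Set.indicator_of_mem h, Set.indicator_of_mem (h1.mp h)]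
      · rw [Set.indicator_of_notMem h, Set.indicator_of_notMem (fun h2 => h (h1.mpr h2))]
    · congr 2
      ext n
      change (n + m) % m ∈ B (seq (j + (n + m) / m)).1 (seq (j + (n + m) / m)).2 ↔
        n % m ∈ B (seq (j + 1 + n / m)).1 (seq (j + 1 + n / m)).2
      rw [Nat.add_mod_right, Nat.add_div_right n hm,
        show j + (n / m).succ = j + 1 + n / m by omega]
  have hdiff : ∀ k, |v - S y (A 0)| ≤ (C + S y Set.univ) * (1 / 9) ^ k := by
    have key : ∀ k, v - S y (A 0) = ((seq k : ℝ) - S y (A k)) * (1 / 9) ^ k := by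
      intro k
      induction k with
      | zero => simp [seq]
      | succ k ih =>
        rw [ih, hseq k, hA k, pow_succ]
        ring
    intro k
    rw [key k, abs_mul, abs_of_nonneg (by positivity : (0 : ℝ) ≤ (1 / 9) ^ k)]
    refine mul_le_mul_of_nonneg_right ?_ (by positivity)
    have h1 := hC _ (seq k).2
    have h2 := S_nonneg hy0 (A k)
    have h3 := S_le hy0 hrec (A k)
    calc |(seq k : ℝ) - S y (A k)| ≤ |(seq k : ℝ)| + |S y (A k)| := abs_sub _ _
      _ ≤ C + S y Set.univ := by rw [abs_of_nonneg h2]; linarith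
  refine ⟨A 0, ?_⟩
  have hlim : Filter.Tendsto (fun k : ℕ => (C + S y Set.univ) * (1 / 9 : ℝ) ^ k) Filter.atTop
      (nhds ((C + S y Set.univ) * 0)) :=
    (tendsto_pow_atTop_nhds_zero_of_lt_one (by norm_num) (by norm_num)).const_mul _
  rw [mul_zero] at hlim
  have h1 : |v - S y (A 0)| ≤ 0 := ge_of_tendsto' hlim hdiff
  have h2 : v - S y (A 0) = 0 := abs_eq_zero.mp (le_antisymm h1 (abs_nonneg _))
  linarith

end General

/-! ### The two sequences -/

/-- `117, 19, 117 / 9, 19 / 9, …` -/
noncomputable def x (n : ℕ) : ℝ := (if n % 2 = 0 then 117 else 19) * (1 / 9) ^ (n / 2)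

/-- The digits `46, 39, 32, 19`. -/
noncomputable def c : ℕ → ℝ
  | 0 => 46
  | 1 => 39
  | 2 => 32
  | _ => 19

/-- `46, 39, 32, 19, 46 / 9, …` -/
noncomputable def z (n : ℕ) : ℝ := c (n % 4) * (1 / 9) ^ (n / 4)

theorem c_pos (n : ℕ) : 0 < c n := by
  unfold c; split <;> norm_num

theorem x_pos (n : ℕ) : 0 < x n := by
  unfold x; split_ifs <;> positivity

theorem z_pos (n : ℕ) : 0 < z n := mul_pos (c_pos _) (by positivity)

theorem x_rec (n : ℕ) : x (n + 2) = x n / 9 := by
  unfold x
  rw [Nat.add_mod_right, Nat.add_div_right n (by norm_num), pow_succ]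
  ring

theorem z_rec (n : ℕ) : z (n + 4) = z n / 9 := by
  unfold z
  rw [Nat.add_mod_right, Nat.add_div_right n (by norm_num), pow_succ]
  ring

theorem x_zero : x 0 = 117 := by simp [x]
theorem x_one : x 1 = 19 := by simp [x]
theorem z_zero : z 0 = 46 := by simp [z, c]
theorem z_one : z 1 = 39 := by simp [z, c]
theorem z_two : z 2 = 32 := by simp [z, c]
theorem z_three : z 3 = 19 := by simp [z, c]

/-- Value of the first two digits. -/
noncomputable def vx (B : Set ℕ) : ℝ := ∑ i ∈ range 2, B.indicator x i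

/-- Value of the first four digits. -/
noncomputable def vz (B : Set ℕ) : ℝ := ∑ i ∈ range 4, B.indicator z i

theorem vx_eq (B : Set ℕ) : vx B = B.indicator x 0 + B.indicator x 1 := by
  simp [vx, Finset.sum_range_succ]

theorem vz_eq (B : Set ℕ) : vz B = B.indicator z 0 + B.indicator z 1 + B.indicator z 2 +
    B.indicator z 3 := by
  simp [vz, Finset.sum_range_succ]

theorem vx_cases (B : Set ℕ) : vx B = 0 ∨ vx B = 19 ∨ vx B = 117 ∨ vx B = 136 := by
  rw [vx_eq]
  by_cases h0 : 0 ∈ B <;> by_cases h1 : 1 ∈ B <;>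
    simp only [Set.indicator_of_mem, Set.indicator_of_notMem, h0, h1, x_zero, x_one,
      not_false_eq_true] <;> norm_num

theorem vx_zero : vx ∅ = 0 := by simp [vx_eq]
theorem vx_19 : vx {1} = 19 := by simp [vx_eq, x_one]
theorem vx_117 : vx {0} = 117 := by simp [vx_eq, x_zero]
theorem vx_136 : vx {0, 1} = 136 := by simp [vx_eq, x_zero, x_one]; norm_num

theorem vz_cases (B : Set ℕ) : vz B = 0 ∨ vz B = 19 ∨ vz B = 32 ∨ (39 ≤ vz B ∧ vz B ≤ 97) ∨
    vz B = 104 ∨ vz B = 117 ∨ vz B = 136 := by
  rw [vz_eq]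
  by_cases h0 : 0 ∈ B <;> by_cases h1 : 1 ∈ B <;> by_cases h2 : 2 ∈ B <;> by_cases h3 : 3 ∈ B <;>
    simp only [Set.indicator_of_mem, Set.indicator_of_notMem, h0, h1, h2, h3, z_zero, z_one,
      z_two, z_three, not_false_eq_true] <;> norm_num

/-- The possible digit sums. -/
def IsF (f : ℝ) : Prop := ∃ B : Set ℕ, vz B = f

theorem isF (a b c d : Prop) [Decidable a] [Decidable b] [Decidable c] [Decidable d] :
    IsF ((if a then 46 else 0) + (if b then 39 else 0) + (if c then 32 else 0) +
      (if d then 19 else 0)) := by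
  refine ⟨{n | (n = 0 ∧ a) ∨ (n = 1 ∧ b) ∨ (n = 2 ∧ c) ∨ (n = 3 ∧ d)}, ?_⟩
  rw [vz_eq]
  by_cases ha : a <;> by_cases hb : b <;> by_cases hc : c <;> by_cases hd : d <;>
    simp [Set.indicator, ha, hb, hc, hd, z_zero, z_one, z_two, z_three]

theorem F0 : IsF 0 := by simpa using isF False False False False
theorem F19 : IsF 19 := by simpa using isF False False False True
theorem F32 : IsF 32 := by simpa using isF False False True False
theorem F39 : IsF 39 := by simpa using isF False True False False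
theorem F46 : IsF 46 := by simpa using isF True False False False
theorem F51 : IsF 51 := by have := isF False False True True; norm_num at this; exact this
theorem F58 : IsF 58 := by have := isF False True False True; norm_num at this; exact this
theorem F65 : IsF 65 := by have := isF True False False True; norm_num at this; exact this
theorem F71 : IsF 71 := by have := isF False True True False; norm_num at this; exact this
theorem F78 : IsF 78 := by have := isF True False True False; norm_num at this; exact this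
theorem F85 : IsF 85 := by have := isF True True False False; norm_num at this; exact this
theorem F90 : IsF 90 := by have := isF False True True True; norm_num at this; exact this
theorem F97 : IsF 97 := by have := isF True False True True; norm_num at this; exact this
theorem F104 : IsF 104 := by have := isF True True False True; norm_num at this; exact this
theorem F117 : IsF 117 := by have := isF True True True False; norm_num at this; exact this
theorem F136 : IsF 136 := by have := isF True True True True; norm_num at this; exact this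

theorem sx_univ : S x Set.univ = 153 := by
  have h := S_rec x_pos x_rec Set.univ
  have h1 : {n | n + 2 ∈ (Set.univ : Set ℕ)} = Set.univ := by ext; simp
  have h2 : ∑ i ∈ range 2, (Set.univ : Set ℕ).indicator x i = 136 := by
    simp [Finset.sum_range_succ, x_zero, x_one]; norm_num
  rw [h1, h2] at h
  linarith

theorem sz_univ : S z Set.univ = 153 := by
  have h := S_rec z_pos z_rec Set.univ
  have h1 : {n | n + 4 ∈ (Set.univ : Set ℕ)} = Set.univ := by ext; simp
  have h2 : ∑ i ∈ range 4, (Set.univ : Set ℕ).indicator z i = 136 := by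
    simp [Finset.sum_range_succ, z_zero, z_one, z_two, z_three]; norm_num
  rw [h1, h2] at h
  linarith

/-- The tails. -/
noncomputable def T (n : ℕ) : ℝ := ∑' k, x (n + 1 + k)

theorem x_summable : Summable x := summable_of_rec x_pos x_rec
theorem z_summable : Summable z := summable_of_rec z_pos z_rec

theorem T_rec (n : ℕ) : T (n + 2) = T n / 9 := by
  unfold T
  rw [← tsum_div_const]
  refine tsum_congr fun k => ?_
  rw [← x_rec]
  congr 1
  ring

theorem tsum_x : ∑' n, x n = 153 := by
  have := sx_univ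
  unfold S at this
  simpa using this

theorem T_zero : T 0 = 36 := by
  have h := x_summable.sum_add_tsum_nat_add 1
  rw [tsum_x, Finset.sum_range_one, x_zero] at h
  have h1 : T 0 = ∑' i, x (i + 1) := tsum_congr fun k => by rw [zero_add, add_comm]
  rw [h1]
  linarith

theorem T_one : T 1 = 17 := by
  have h := x_summable.sum_add_tsum_nat_add 2
  rw [tsum_x, Finset.sum_range_succ, Finset.sum_range_one, x_zero, x_one] at h
  have h1 : T 1 = ∑' i, x (i + 2) := tsum_congr fun k => by rw [add_comm]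
  rw [h1]
  linarith

theorem T_lt (n : ℕ) : T n < x n := by
  induction n using Nat.strong_induction_on with
  | _ n ih =>
    rcases n with _ | _ | n
    · rw [T_zero, x_zero]; norm_num
    · rw [T_one, x_one]; norm_num
    · rw [T_rec, x_rec]
      have := ih n (by omega)
      linarith

theorem T_nonneg (n : ℕ) : 0 ≤ T n := tsum_nonneg fun _ => (x_pos _).le

/-- The union of the gaps removed at odd steps. -/
def G : Set ℝ := {t : ℝ | ∃ n : ℕ, Even n ∧ ∃ F : Finset ℕ, F ⊆ Finset.range n ∧
  (∑ i ∈ F, x i) + T n < t ∧ t < (∑ i ∈ F, x i) + x n}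

theorem G_base {t : ℝ} (h1 : 36 < t) (h2 : t < 117) : t ∈ G :=
  ⟨0, by simp, ∅, by simp, by rw [T_zero]; simpa using h1, by rw [x_zero]; simpa using h2⟩

theorem sum_split (k : ℕ) (B : Set ℕ) : ∑ i ∈ range (2 + k), B.indicator x i =
    vx B + (∑ i ∈ range k, {n | n + 2 ∈ B}.indicator x i) / 9 := by
  rw [Finset.sum_range_add, Finset.sum_div]
  congr 1
  refine Finset.sum_congr rfl fun i _ => ?_
  rw [add_comm 2 i]
  by_cases h : i + 2 ∈ B
  · rw [Set.indicator_of_mem h, Set.indicator_of_mem (show i ∈ {n | n + 2 ∈ B} from h), x_rec]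
  · rw [Set.indicator_of_notMem h, Set.indicator_of_notMem (show i ∉ {n | n + 2 ∈ B} from h),
      zero_div]

theorem G_cases {t : ℝ} (ht : t ∈ G) : (36 < t ∧ t < 117) ∨ ∃ B : Set ℕ, ∃ v ∈ G,
    t = vx B + v / 9 := by
  classical
  obtain ⟨n, hn, F, hF, h1, h2⟩ := ht
  by_cases hn0 : n = 0
  · subst hn0
    have hF0 : F = ∅ := by simpa using hF
    subst hF0
    rw [T_zero] at h1
    rw [x_zero] at h2
    left
    constructor
    · simpa using h1
    · simpa using h2
  · right
    obtain ⟨k, rfl⟩ : ∃ k, n = 2 + k := by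
      obtain ⟨j, hj⟩ := hn
      exact ⟨n - 2, by omega⟩
    have hk : Even k := by
      rw [Nat.even_add] at hn
      exact hn.mp (by decide)
    refine ⟨F, 9 * (t - vx F), ⟨k, hk, (range k).filter (fun j => j + 2 ∈ F),
      Finset.filter_subset _ _, ?_, ?_⟩, by ring⟩
    all_goals
      have h3 := sum_split k (F : Set ℕ)
      rw [Finset.sum_indicator_subset x hF] at h3
      have h4 : ∑ i ∈ range k, {n | n + 2 ∈ (F : Set ℕ)}.indicator x i =
          ∑ i ∈ (range k).filter (fun j => j + 2 ∈ F), x i := by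
        rw [Finset.sum_filter]
        refine Finset.sum_congr rfl fun i _ => ?_
        by_cases h : i + 2 ∈ F
        · rw [if_pos h, Set.indicator_of_mem (show i ∈ {n | n + 2 ∈ (F : Set ℕ)} from h)]
        · rw [if_neg h, Set.indicator_of_notMem (show i ∉ {n | n + 2 ∈ (F : Set ℕ)} from h)]
      rw [h4] at h3
      have h5 := T_rec k
      have h6 := x_rec k
      rw [add_comm k 2] at h5 h6
      rw [h3, h5] at h1
      rw [h3, h6] at h2
    · linarith
    · linarith

theorem G_step {v : ℝ} (hv : v ∈ G) (B : Set ℕ) : vx B + v / 9 ∈ G := by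
  classical
  obtain ⟨k, hk, F, hF, h1, h2⟩ := hv
  let B' : Set ℕ := {n | (n < 2 ∧ n ∈ B) ∨ ∃ j ∈ F, n = j + 2}
  have e1 : vx B' = vx B := by
    rw [vx_eq, vx_eq]
    have a0 : (0 ∈ B') ↔ (0 ∈ B) := by
      simp [B']
    have a1 : (1 ∈ B') ↔ (1 ∈ B) := by
      simp [B']
    by_cases h0 : 0 ∈ B <;> by_cases h1 : 1 ∈ B <;>
      simp [Set.indicator, a0, a1, h0, h1]
  have e2 : {n | n + 2 ∈ B'} = (F : Set ℕ) := by
    ext n
    simp [B']
  have h3 := sum_split k B'
  rw [e1, e2, Finset.sum_indicator_subset x hF] at h3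
  refine ⟨2 + k, (by decide : Even 2).add hk, (range (2 + k)).filter (fun n => n ∈ B'),
    Finset.filter_subset _ _, ?_, ?_⟩
  all_goals
    have h4 : ∑ i ∈ (range (2 + k)).filter (fun n => n ∈ B'), x i =
        ∑ i ∈ range (2 + k), B'.indicator x i := by
      rw [Finset.sum_filter]
      refine Finset.sum_congr rfl fun i _ => ?_
      by_cases h : i ∈ B'
      · rw [if_pos h, Set.indicator_of_mem h]
      · rw [if_neg h, Set.indicator_of_notMem h]
    have h5 := T_rec k
    have h6 := x_rec k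
    rw [add_comm k 2] at h5 h6
    rw [h4, h3]
  · rw [h5]; linarith
  · rw [h6]; linarith

theorem G_bound {t : ℝ} (ht : t ∈ G) : |t| ≤ 153 := by
  obtain ⟨n, -, F, hF, h1, h2⟩ := ht
  have h3 : ∑ i ∈ F, x i ≤ ∑ i ∈ range n, x i :=
    Finset.sum_le_sum_of_subset_of_nonneg hF fun i _ _ => (x_pos i).le
  have h4 := sum_le x_pos x_rec (n + 1)
  rw [Finset.sum_range_succ] at h4
  have h5 : ∑ i ∈ range 2, x i = 136 := by
    simp [Finset.sum_range_succ, x_zero, x_one]; norm_num
  rw [h5] at h4
  have h6 := T_nonneg n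
  have h7 : 0 ≤ ∑ i ∈ F, x i := Finset.sum_nonneg fun i _ => (x_pos i).le
  rw [abs_le]
  constructor <;> linarith

/-- Subsums of `x`. -/
def Sx : Set ℝ := {s | ∃ A : Set ℕ, s = S x A}

/-- Subsums of `z`. -/
def Sz : Set ℝ := {s | ∃ A : Set ℕ, s = S z A}

theorem Sx_bound {t : ℝ} (ht : t ∈ Sx) : 0 ≤ t ∧ t ≤ 153 := by
  obtain ⟨A, rfl⟩ := ht
  exact ⟨S_nonneg x_pos A, (S_le x_pos x_rec A).trans_eq sx_univ⟩

theorem Sz_bound {t : ℝ} (ht : t ∈ Sz) : 0 ≤ t ∧ t ≤ 153 := by
  obtain ⟨A, rfl⟩ := ht
  exact ⟨S_nonneg z_pos A, (S_le z_pos z_rec A).trans_eq sz_univ⟩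

theorem Sx_cases {t : ℝ} (ht : t ∈ Sx) : ∃ B : Set ℕ, ∃ t' ∈ Sx, t = vx B + t' / 9 := by
  obtain ⟨A, rfl⟩ := ht
  exact ⟨A, _, ⟨_, rfl⟩, S_rec x_pos x_rec A⟩

theorem Sz_cases {t : ℝ} (ht : t ∈ Sz) : ∃ B : Set ℕ, ∃ t' ∈ Sz, t = vz B + t' / 9 := by
  obtain ⟨A, rfl⟩ := ht
  exact ⟨A, _, ⟨_, rfl⟩, S_rec z_pos z_rec A⟩

theorem Sz_coind (V : Set ℝ) (hC : ∀ v ∈ V, |v| ≤ 1000)
    (hV : ∀ v ∈ V, ∃ f, IsF f ∧ 9 * (v - f) ∈ V) : V ⊆ Sz := by
  refine coind (by norm_num) z_pos z_rec V 1000 hC ?_
  intro v hv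
  obtain ⟨f, ⟨B, hB⟩, h⟩ := hV v hv
  refine ⟨B, ?_⟩
  have : ∑ i ∈ range 4, B.indicator z i = f := hB
  rw [this]
  exact h

theorem Sx_coind (V : Set ℝ) (hC : ∀ v ∈ V, |v| ≤ 1000)
    (hV : ∀ v ∈ V, ∃ B : Set ℕ, 9 * (v - vx B) ∈ V) : V ⊆ Sx :=
  coind (by norm_num) x_pos x_rec V 1000 hC hV

theorem isF_vx (B : Set ℕ) : IsF (vx B) := by
  rcases vx_cases B with h | h | h | h <;> rw [h]
  · exact F0
  · exact F19
  · exact F117
  · exact F136

/-- Covering the large interval. -/
theorem cover {v : ℝ} (h1 : 36 < v) (h2 : v < 117) :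
    ∃ f, IsF f ∧ 36 < 9 * (v - f) ∧ 9 * (v - f) < 117 := by
  by_cases h : v < 45
  · exact ⟨32, F32, by linarith, by linarith⟩
  by_cases h : v < 52
  · exact ⟨39, F39, by linarith, by linarith⟩
  by_cases h : v < 59
  · exact ⟨46, F46, by linarith, by linarith⟩
  by_cases h : v < 64
  · exact ⟨51, F51, by linarith, by linarith⟩
  by_cases h : v < 71
  · exact ⟨58, F58, by linarith, by linarith⟩
  by_cases h : v < 78
  · exact ⟨65, F65, by linarith, by linarith⟩
  by_cases h : v < 84
  · exact ⟨71, F71, by linarith, by linarith⟩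
  by_cases h : v < 91
  · exact ⟨78, F78, by linarith, by linarith⟩
  by_cases h : v < 98
  · exact ⟨85, F85, by linarith, by linarith⟩
  by_cases h : v < 103
  · exact ⟨90, F90, by linarith, by linarith⟩
  by_cases h : v < 110
  · exact ⟨97, F97, by linarith, by linarith⟩
  · exact ⟨104, F104, by linarith, by linarith⟩

theorem subset_one : Sx ∪ G ⊆ Sz := by
  apply Sz_coind
  · rintro v (hv | hv)
    · have := Sx_bound hv
      rw [abs_le]; constructor <;> linarith
    · have := G_bound hv
      linarith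
  · rintro v (hv | hv)
    · obtain ⟨B, t', ht', rfl⟩ := Sx_cases hv
      refine ⟨_, isF_vx B, Or.inl ?_⟩
      rw [add_sub_cancel_left, mul_div_cancel₀ _ (by norm_num)]
      exact ht'
    · rcases G_cases hv with ⟨h1, h2⟩ | ⟨B, w, hw, rfl⟩
      · obtain ⟨f, hf, h3, h4⟩ := cover h1 h2
        exact ⟨f, hf, Or.inr (G_base h3 h4)⟩
      · refine ⟨_, isF_vx B, Or.inr ?_⟩
        rw [add_sub_cancel_left, mul_div_cancel₀ _ (by norm_num)]
        exact hw

/-- Adding `117` to a small subsum gives a subsum. -/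
theorem add_117 {t : ℝ} (ht : t ∈ Sz) (h36 : t ≤ 36) : 117 + t ∈ Sz := by
  have key : Sz ∪ {v | ∃ t ∈ Sz, t ≤ 36 ∧ v = 117 + t} ⊆ Sz := by
    apply Sz_coind
    · rintro v (hv | ⟨t, ht, h36, rfl⟩)
      · have := Sz_bound hv
        rw [abs_le]; constructor <;> linarith
      · have := Sz_bound ht
        rw [abs_le]; constructor <;> linarith
    · rintro v (hv | ⟨t, ht, h36, rfl⟩)
      · obtain ⟨B, t', ht', rfl⟩ := Sz_cases hv
        refine ⟨_, ⟨B, rfl⟩, Or.inl ?_⟩
        rw [add_sub_cancel_left, mul_div_cancel₀ _ (by norm_num)]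
        exact ht'
      · obtain ⟨B, t', ht', rfl⟩ := Sz_cases ht
        have hb := Sz_bound ht'
        rcases vz_cases B with h | h | h | h | h | h | h
        · refine ⟨117, F117, Or.inl ?_⟩
          rw [h, zero_add, add_sub_cancel_left, mul_div_cancel₀ _ (by norm_num)]
          exact ht'
        · refine ⟨136, F136, Or.inl ?_⟩
          have e : 9 * (117 + (vz B + t' / 9) - 136) = t' := by rw [h]; ring
          rw [e]
          exact ht'
        · refine ⟨136, F136, Or.inr ⟨t', ht', ?_, ?_⟩⟩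
          · rw [h] at h36; linarith
          · rw [h]; ring
        all_goals exfalso; linarith [hb.1, h36]
  exact key (Or.inr ⟨t, ht, h36, rfl⟩)

/-- Subtracting `117` from a large subsum gives a subsum. -/
theorem sub_117 {t : ℝ} (ht : t ∈ Sz) (h117 : 117 ≤ t) : t - 117 ∈ Sz := by
  have key : Sz ∪ {v | ∃ t ∈ Sz, 117 ≤ t ∧ v = t - 117} ⊆ Sz := by
    apply Sz_coind
    · rintro v (hv | ⟨t, ht, h117, rfl⟩)
      · have := Sz_bound hv
        rw [abs_le]; constructor <;> linarith
      · have := Sz_bound ht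
        rw [abs_le]; constructor <;> linarith
    · rintro v (hv | ⟨t, ht, h117, rfl⟩)
      · obtain ⟨B, t', ht', rfl⟩ := Sz_cases hv
        refine ⟨_, ⟨B, rfl⟩, Or.inl ?_⟩
        rw [add_sub_cancel_left, mul_div_cancel₀ _ (by norm_num)]
        exact ht'
      · obtain ⟨B, t', ht', rfl⟩ := Sz_cases ht
        have hb := Sz_bound ht'
        rcases vz_cases B with h | h | h | h | h | h | h
        · exfalso; linarith
        · exfalso; linarith
        · exfalso; linarith
        · exfalso; linarith [h.1, h.2]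
        · refine ⟨0, F0, Or.inr ⟨t', ht', ?_, ?_⟩⟩
          · rw [h] at h117; linarith
          · rw [h]; ring
        · refine ⟨0, F0, Or.inl ?_⟩
          have e : 9 * (vz B + t' / 9 - 117 - 0) = t' := by rw [h]; ring
          rw [e]
          exact ht'
        · refine ⟨19, F19, Or.inl ?_⟩
          have e : 9 * (vz B + t' / 9 - 117 - 19) = t' := by rw [h]; ring
          rw [e]
          exact ht'
  exact key (Or.inr ⟨t, ht, h117, rfl⟩)

theorem subset_two : Sz ⊆ Sx ∪ G := by
  have key : {t | t ∈ Sz ∧ t ∉ G} ⊆ Sx := by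
    apply Sx_coind
    · rintro v ⟨hv, -⟩
      have := Sz_bound hv
      rw [abs_le]; constructor <;> linarith
    · rintro v ⟨hv, hvG⟩
      -- the choice of two digits
      have aux : ∀ (B : Set ℕ) (w : ℝ), w ∈ Sz → v = vx B + w / 9 →
          ∃ B : Set ℕ, 9 * (v - vx B) ∈ {t | t ∈ Sz ∧ t ∉ G} := by
        intro B w hw h
        refine ⟨B, ?_⟩
        have e : 9 * (v - vx B) = w := by rw [h]; ring
        rw [e]
        refine ⟨hw, fun hwG => hvG ?_⟩
        rw [h]
        exact G_step hwG B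
      obtain ⟨B, t', ht', h⟩ := Sz_cases hv
      have hb := Sz_bound ht'
      have hout : v ≤ 36 ∨ 117 ≤ v := by
        by_contra hcon
        push Not at hcon
        exact hvG (G_base hcon.1 hcon.2)
      rcases vz_cases B with hB | hB | hB | hB | hB | hB | hB
      · exact aux ∅ t' ht' (by rw [vx_zero, h, hB])
      · exact aux {1} t' ht' (by rw [vx_19, h, hB])
      · rw [hB] at h
        have h36 : t' ≤ 36 := by
          rcases hout with h1 | h1 <;> linarith
        exact aux {1} (117 + t') (add_117 ht' h36) (by rw [vx_19, h]; ring)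
      · exfalso
        rcases hout with h1 | h1 <;> linarith [hB.1, hB.2]
      · rw [hB] at h
        have h117 : 117 ≤ t' := by
          rcases hout with h1 | h1 <;> linarith
        exact aux {0} (t' - 117) (sub_117 ht' h117) (by rw [vx_117, h]; ring)
      · exact aux {0} t' ht' (by rw [vx_117, h, hB])
      · exact aux {0, 1} t' ht' (by rw [vx_136, h, hB])
  intro t ht
  by_cases hG : t ∈ G
  · exact Or.inr hG
  · exact Or.inl (key ⟨ht, hG⟩)

theorem Sz_eq : Sz = Sx ∪ G := Set.Subset.antisymm subset_two subset_one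

end Pool.Agent.Helper8.Cantorval
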