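import Mathlib

set_option autoImplicit false

namespace Pool.Agent.Helper8.CarPos

open Finset

variable (K : Type*) [Field K]

abbrev B := Module.End K (Finset ℕ → K)

/-- matrix units at level `m`. -/
def E (m : ℕ) (s t : Finset ℕ) : B K where
  toFun f := fun X => if X.filter (fun i => i < m) = s then f (t ∪ X.filter (fun i => m ≤ i)) else 0
  map_add' f g := by
    ext X
    by_cases h : X.filter (fun i => i < m) = s <;> simp [h]
  map_smul' c f := by
    ext X
    by_cases h : X.filter (fun i => i < m) = s <;> simp [h]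

variable {K}

lemma E_apply (m : ℕ) (s t : Finset ℕ) (f : Finset ℕ → K) (X : Finset ℕ) :
    E K m s t f X = if X.filter (fun i => i < m) = s then f (t ∪ X.filter (fun i => m ≤ i)) else 0 :=
  rfl

lemma filt_lt {m : ℕ} {t X : Finset ℕ} (ht : t ⊆ range m) :
    (t ∪ X.filter (fun i => m ≤ i)).filter (fun i => i < m) = t := by
  ext i
  simp only [mem_filter, mem_union]
  constructor
  · rintro ⟨h | h, h2⟩
    · exact h
    · omega
  · intro h
    exact ⟨Or.inl h, by simpa using ht h⟩

lemma filt_ge {m : ℕ} {t X : Finset ℕ} (ht : t ⊆ range m) :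
    (t ∪ X.filter (fun i => m ≤ i)).filter (fun i => m ≤ i) = X.filter (fun i => m ≤ i) := by
  ext i
  simp only [mem_filter, mem_union]
  constructor
  · rintro ⟨h | h, h2⟩
    · have := ht h
      simp at this
      omega
    · exact h
  · intro h
    exact ⟨Or.inr h, h.2⟩

lemma E_mul_same {m : ℕ} {s t v : Finset ℕ} (ht : t ⊆ range m) :
    E K m s t * E K m t v = E K m s v := by
  ext f X
  rw [Module.End.mul_apply, E_apply, E_apply, E_apply, filt_lt ht, filt_ge ht]
  simp

lemma E_mul_ne {m : ℕ} {s t u v : Finset ℕ} (ht : t ⊆ range m) (h : t ≠ u) :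
    E K m s t * E K m u v = 0 := by
  ext f X
  rw [Module.End.mul_apply, E_apply, E_apply, filt_lt ht]
  simp [h]

lemma E_mul {m : ℕ} {s t u v : Finset ℕ} (ht : t ⊆ range m) :
    E K m s t * E K m u v = if t = u then E K m s v else 0 := by
  split_ifs with h
  · subst h; exact E_mul_same ht
  · exact E_mul_ne ht h

lemma E_succ {m : ℕ} {s t : Finset ℕ} (hs : s ⊆ range m) (ht : t ⊆ range m) :
    E K m s t = E K (m + 1) s t + E K (m + 1) (insert m s) (insert m t) := by
  have hms : m ∉ s := fun h => by simpa using hs h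
  ext f X
  rw [LinearMap.add_apply, Pi.add_apply, E_apply, E_apply, E_apply]
  by_cases hX : m ∈ X
  · have h1 : X.filter (fun i => i < m + 1) = insert m (X.filter (fun i => i < m)) := by
      ext i
      simp only [mem_filter, mem_insert]
      constructor
      · rintro ⟨h, h2⟩
        by_cases h3 : i = m
        · exact Or.inl h3
        · exact Or.inr ⟨h, by omega⟩
      · rintro (rfl | h)
        · exact ⟨hX, by omega⟩
        · exact ⟨h.1, by omega⟩
    have h2 : X.filter (fun i => i < m + 1) ≠ s := by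
      rw [h1]; intro h; apply hms; rw [← h]; exact mem_insert_self _ _
    have h3 : X.filter (fun i => i < m + 1) = insert m s ↔ X.filter (fun i => i < m) = s := by
      rw [h1]
      constructor
      · intro h
        have h4 : m ∉ X.filter (fun i => i < m) := by simp
        rw [← Finset.erase_insert h4, h, Finset.erase_insert hms]
      · intro h; rw [h]
    rw [if_neg h2, zero_add]
    have h5 : insert m t ∪ X.filter (fun i => m + 1 ≤ i) = t ∪ X.filter (fun i => m ≤ i) := by
      ext i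
      simp only [mem_union, mem_insert, mem_filter]
      constructor
      · rintro ((rfl | h) | h)
        · exact Or.inr ⟨hX, le_refl _⟩
        · exact Or.inl h
        · exact Or.inr ⟨h.1, by omega⟩
      · rintro (h | h)
        · exact Or.inl (Or.inr h)
        · by_cases h6 : i = m
          · exact Or.inl (Or.inl h6)
          · exact Or.inr ⟨h.1, by omega⟩
    rw [h5]
    by_cases h6 : X.filter (fun i => i < m) = s
    · rw [if_pos h6, if_pos (h3.2 h6)]
    · rw [if_neg h6, if_neg (fun h => h6 (h3.1 h))]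
  · have h1 : X.filter (fun i => i < m + 1) = X.filter (fun i => i < m) := by
      ext i
      simp only [mem_filter]
      constructor
      · rintro ⟨h, h2⟩
        have : i ≠ m := fun h3 => hX (h3 ▸ h)
        exact ⟨h, by omega⟩
      · rintro ⟨h, h2⟩; exact ⟨h, by omega⟩
    have h2 : X.filter (fun i => m + 1 ≤ i) = X.filter (fun i => m ≤ i) := by
      ext i
      simp only [mem_filter]
      constructor
      · rintro ⟨h, h2⟩; exact ⟨h, by omega⟩
      · rintro ⟨h, h2⟩
        have : i ≠ m := fun h3 => hX (h3 ▸ h)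
        exact ⟨h, by omega⟩
    have h3 : X.filter (fun i => i < m) ≠ insert m s := by
      intro h
      have : m ∈ X.filter (fun i => i < m) := by rw [h]; exact mem_insert_self _ _
      simp at this
    rw [h1, h2, if_neg h3, add_zero]

lemma E_one (m : ℕ) : ∑ s ∈ (range m).powerset, E K m s s = 1 := by
  ext f X
  rw [LinearMap.sum_apply, Finset.sum_apply]
  simp_rw [E_apply]
  rw [Finset.sum_ite_eq, if_pos]
  · rw [Module.End.one_apply]
    congr 1
    ext i
    simp only [mem_union, mem_filter]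
    constructor
    · rintro (h | h) <;> exact h.1
    · intro h
      rcases lt_or_ge i m with h1 | h1
      · exact Or.inl ⟨h, h1⟩
      · exact Or.inr ⟨h, h1⟩
  · rw [mem_powerset]
    intro i hi
    simp at hi
    simp [hi.2]

lemma E_ne_zero {m : ℕ} {s t : Finset ℕ} (hs : s ⊆ range m) : E K m s t ≠ 0 := by
  intro h
  have h1 := congrFun (congrArg (fun a : B K => a (fun _ => (1 : K))) h) s
  simp only [E_apply, LinearMap.zero_apply, Pi.zero_apply] at h1
  rw [if_pos] at h1
  · exact one_ne_zero h1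
  · ext i
    simp only [mem_filter]
    constructor
    · exact fun h => h.1
    · intro h; exact ⟨h, by simpa using hs h⟩

/-- span of matrix units of level `m` and degree at least `d`. -/
def F (K : Type*) [Field K] (m d : ℕ) : Submodule K (B K) :=
  Submodule.span K {x | ∃ s t : Finset ℕ, s ⊆ range m ∧ t ⊆ range m ∧ t.card + d ≤ s.card ∧
    x = E K m s t}

lemma E_mem_F {m d : ℕ} {s t : Finset ℕ} (hs : s ⊆ range m) (ht : t ⊆ range m)
    (h : t.card + d ≤ s.card) : E K m s t ∈ F K m d :=
  Submodule.subset_span ⟨s, t, hs, ht, h, rfl⟩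

lemma F_mul {m d d' : ℕ} {x y : B K} (hx : x ∈ F K m d) (hy : y ∈ F K m d') :
    x * y ∈ F K m (d + d') := by
  refine Submodule.span_induction₂ (p := fun x y _ _ => x * y ∈ F K m (d + d')) ?_ ?_ ?_ ?_ ?_ ?_ ?_ hx hy
  · rintro x y ⟨s, t, hs, ht, h, rfl⟩ ⟨u, v, hu, hv, h', rfl⟩
    rw [E_mul ht]
    split_ifs with htu
    · subst htu
      exact E_mem_F hs hv (by omega)
    · exact Submodule.zero_mem _
  · intro y _; rw [zero_mul]; exact Submodule.zero_mem _
  · intro y _; rw [mul_zero]; exact Submodule.zero_mem _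
  · intro x y z _ _ _ h1 h2; rw [add_mul]; exact Submodule.add_mem _ h1 h2
  · intro x y z _ _ _ h1 h2; rw [mul_add]; exact Submodule.add_mem _ h1 h2
  · intro c x y _ _ h; rw [smul_mul_assoc]; exact Submodule.smul_mem _ _ h
  · intro c x y _ _ h; rw [mul_smul_comm]; exact Submodule.smul_mem _ _ h

lemma F_anti {m d d' : ℕ} (h : d ≤ d') : F K m d' ≤ F K m d := by
  apply Submodule.span_mono
  rintro x ⟨s, t, hs, ht, h', rfl⟩
  exact ⟨s, t, hs, ht, by omega, rfl⟩

lemma F_succ (m d : ℕ) : F K m d ≤ F K (m + 1) d := by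
  unfold F
  rw [Submodule.span_le]
  rintro x ⟨s, t, hs, ht, h', rfl⟩
  have hms : m ∉ s := fun h => by simpa using hs h
  have hmt : m ∉ t := fun h => by simpa using ht h
  have hr : range m ⊆ range (m + 1) := range_subset_range.2 (by omega)
  rw [SetLike.mem_coe, E_succ hs ht]
  refine Submodule.add_mem _ (E_mem_F (hs.trans hr) (ht.trans hr) h') (E_mem_F ?_ ?_ ?_)
  · exact insert_subset (by simp) (hs.trans hr)
  · exact insert_subset (by simp) (ht.trans hr)
  · rw [card_insert_of_notMem hms, card_insert_of_notMem hmt]; omega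

lemma F_mono {m m' d : ℕ} (h : m ≤ m') : F K m d ≤ F K m' d := by
  induction m', h using Nat.le_induction with
  | base => exact le_refl _
  | succ n _ ih => exact ih.trans (F_succ n d)

lemma F_top (m : ℕ) : F K m (m + 1) = ⊥ := by
  unfold F
  rw [Submodule.span_eq_bot]
  rintro x ⟨s, t, hs, ht, h', rfl⟩
  have := card_le_card hs
  rw [card_range] at this
  omega

lemma one_mem_F : (1 : B K) ∈ F K 0 0 := by
  rw [← E_one 0]
  refine Submodule.sum_mem _ fun s hs => ?_
  rw [mem_powerset] at hs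
  exact E_mem_F hs hs (by omega)

/-- the positive part of the CAR algebra. -/
def A (K : Type*) [Field K] : Subalgebra K (B K) where
  carrier := {x | ∃ m, x ∈ F K m 0}
  mul_mem' := by
    rintro x y ⟨m, hx⟩ ⟨n, hy⟩
    refine ⟨max m n, ?_⟩
    have := F_mul (F_mono (le_max_left m n) hx) (F_mono (le_max_right m n) hy)
    simpa using this
  add_mem' := by
    rintro x y ⟨m, hx⟩ ⟨n, hy⟩
    exact ⟨max m n, Submodule.add_mem _ (F_mono (le_max_left m n) hx) (F_mono (le_max_right m n) hy)⟩
  algebraMap_mem' := by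
    intro r
    refine ⟨0, ?_⟩
    rw [Algebra.algebraMap_eq_smul_one]
    exact Submodule.smul_mem _ _ one_mem_F

lemma mem_A {x : B K} : x ∈ A K ↔ ∃ m, x ∈ F K m 0 := Iff.rfl

lemma E_mem_A {m : ℕ} {s t : Finset ℕ} (hs : s ⊆ range m) (ht : t ⊆ range m)
    (h : t.card ≤ s.card) : E K m s t ∈ A K := ⟨m, E_mem_F hs ht (by omega)⟩

lemma corner {m d : ℕ} {x : B K} (hx : x ∈ F K m d) {s t : Finset ℕ} (hs : s ⊆ range m)
    (_ht : t ⊆ range m) :
    ∃ c : K, E K m s s * x * E K m t t = c • E K m s t ∧ (c ≠ 0 → t.card + d ≤ s.card) := by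
  induction hx using Submodule.span_induction with
  | mem x hx =>
    obtain ⟨u, v, hu, hv, h, rfl⟩ := hx
    rw [E_mul hs]
    split_ifs with h1
    · subst h1
      rw [E_mul hv]
      split_ifs with h2
      · subst h2
        exact ⟨1, by simp, fun _ => h⟩
      · exact ⟨0, by simp, fun h => absurd rfl h⟩
    · exact ⟨0, by simp, fun h => absurd rfl h⟩
  | zero => exact ⟨0, by simp, fun h => absurd rfl h⟩
  | add x y _ _ h1 h2 =>
    obtain ⟨c1, e1, h1⟩ := h1
    obtain ⟨c2, e2, h2⟩ := h2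
    refine ⟨c1 + c2, by rw [mul_add, add_mul, e1, e2, add_smul], fun h => ?_⟩
    by_cases h3 : c1 = 0
    · exact h2 (fun h4 => h (by rw [h3, h4, add_zero]))
    · exact h1 h3
  | smul a x _ h =>
    obtain ⟨c, e, h⟩ := h
    refine ⟨a * c, by rw [mul_smul_comm, smul_mul_assoc, e, mul_smul], fun h3 => ?_⟩
    exact h (fun h4 => h3 (by rw [h4, mul_zero]))

lemma expand (m : ℕ) (x : B K) :
    x = ∑ s ∈ (range m).powerset, ∑ t ∈ (range m).powerset, E K m s s * x * E K m t t := by
  have h1 : x = (∑ s ∈ (range m).powerset, E K m s s) * x * (∑ t ∈ (range m).powerset, E K m t t) := by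
    rw [E_one]; simp
  conv_lhs => rw [h1]
  rw [Finset.sum_mul, Finset.sum_mul]
  refine Finset.sum_congr rfl fun s _ => ?_
  rw [Finset.mul_sum]

/-- if all matrix units that appear in `x` lie in the submodule `N`, so does `x`. -/
lemma mem_of_units {m d : ℕ} {x : B K} (hx : x ∈ F K m d) (N : Submodule K (B K))
    (h : ∀ s t : Finset ℕ, s ⊆ range m → t ⊆ range m → t.card + d ≤ s.card →
      E K m s s * x * E K m t t ≠ 0 → E K m s t ∈ N) : x ∈ N := by
  rw [expand m x]
  refine Submodule.sum_mem _ fun s hs => Submodule.sum_mem _ fun t ht => ?_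
  rw [mem_powerset] at hs ht
  obtain ⟨c, e, hc⟩ := corner hx hs ht
  by_cases h0 : c = 0
  · rw [e, h0, zero_smul]; exact Submodule.zero_mem _
  · have hne : E K m s s * x * E K m t t ≠ 0 := by
      rw [e]; exact smul_ne_zero h0 (E_ne_zero hs)
    rw [e]
    exact Submodule.smul_mem _ _ (h s t hs ht (hc h0) hne)

/-- two-sided ideals of `A`, seen inside `B`. -/
structure IsId (J : Submodule K (B K)) : Prop where
  le : ∀ x ∈ J, x ∈ A K
  left : ∀ a ∈ A K, ∀ x ∈ J, a * x ∈ J
  right : ∀ a ∈ A K, ∀ x ∈ J, x * a ∈ J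

lemma IsId.unit_mem {J : Submodule K (B K)} (hJ : IsId J) {x : B K} (hx : x ∈ J) {m : ℕ}
    {s t : Finset ℕ} (hxm : x ∈ F K m 0)
    (hs : s ⊆ range m) (ht : t ⊆ range m) (h : E K m s s * x * E K m t t ≠ 0) : E K m s t ∈ J := by
  obtain ⟨c, e, _⟩ := corner hxm hs ht
  have hc : c ≠ 0 := by
    rintro rfl
    rw [e, zero_smul] at h
    exact h rfl
  have h1 : c • E K m s t ∈ J := by
    rw [← e]
    exact hJ.right _ (E_mem_A ht ht le_rfl) _ (hJ.left _ (E_mem_A hs hs le_rfl) _ hx)
  have h2 := J.smul_mem c⁻¹ h1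
  rwa [smul_smul, inv_mul_cancel₀ hc, one_smul] at h2

lemma IsId.uniform {J : Submodule K (B K)} (hJ : IsId J) {m : ℕ}
    {s t s' t' : Finset ℕ} (hs : s ⊆ range m) (ht : t ⊆ range m) (hs' : s' ⊆ range m)
    (ht' : t' ⊆ range m) (h1 : s.card ≤ s'.card) (h2 : t'.card ≤ t.card)
    (h : E K m s t ∈ J) : E K m s' t' ∈ J := by
  have h3 := hJ.left _ (E_mem_A hs' hs h1) _ h
  rw [E_mul_same hs] at h3
  have h4 := hJ.right _ (E_mem_A ht ht' h2) _ h3
  rwa [E_mul_same ht] at h4

lemma IsId.step_b {J : Submodule K (B K)} (hJ : IsId J) {m : ℕ}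
    {s t : Finset ℕ} (hs : s ⊆ range m) (ht : t ⊆ range m) (h : E K m s t ∈ J) :
    E K (m + 1) s t ∈ J := by
  have hr : range m ⊆ range (m + 1) := range_subset_range.2 (by omega)
  have hmt : m ∉ t := fun h => by simpa using ht h
  have h3 := hJ.right _ (E_mem_A (ht.trans hr) (ht.trans hr) le_rfl) _ h
  rw [E_succ hs ht, add_mul, E_mul_same (ht.trans hr), E_mul_ne, add_zero] at h3
  · exact h3
  · exact insert_subset (by simp) (ht.trans hr)
  · intro h4
    apply hmt
    rw [← h4]
    exact mem_insert_self _ _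

lemma IsId.step_a {J : Submodule K (B K)} (hJ : IsId J) {m : ℕ}
    {s t : Finset ℕ} (hs : s ⊆ range m) (ht : t ⊆ range m) (h : E K m s t ∈ J) :
    E K (m + 1) (insert m s) (insert m t) ∈ J := by
  have hr : range m ⊆ range (m + 1) := range_subset_range.2 (by omega)
  have hmt : m ∉ t := fun h => by simpa using ht h
  have hit : insert m t ⊆ range (m + 1) := insert_subset (by simp) (ht.trans hr)
  have h3 := hJ.right _ (E_mem_A hit hit le_rfl) _ h
  rw [E_succ hs ht, add_mul, E_mul_same hit, E_mul_ne, zero_add] at h3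
  · exact h3
  · exact ht.trans hr
  · intro h4
    apply hmt
    rw [h4]
    exact mem_insert_self _ _

/-- the set of shapes of an ideal. -/
def Sh (J : Submodule K (B K)) : Set (ℕ × ℕ × ℕ) :=
  {p | ∃ s t : Finset ℕ, s ⊆ range (p.1 + p.2.1 + p.2.2) ∧ t ⊆ range (p.1 + p.2.1 + p.2.2) ∧
    t.card = p.1 ∧ s.card = p.1 + p.2.1 ∧ E K (p.1 + p.2.1 + p.2.2) s t ∈ J}

lemma Sh_b {J : Submodule K (B K)} (hJ : IsId J) {a d b : ℕ} (h : (a, d, b) ∈ Sh J) :
    (a, d, b + 1) ∈ Sh J := by
  obtain ⟨s, t, hs, ht, h1, h2, h3⟩ := h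
  dsimp only at hs ht h1 h2 h3
  have hr : range (a + d + b) ⊆ range (a + d + (b + 1)) := range_subset_range.2 (by omega)
  exact ⟨s, t, hs.trans hr, ht.trans hr, h1, h2, hJ.step_b hs ht h3⟩

lemma Sh_a {J : Submodule K (B K)} (hJ : IsId J) {a d b : ℕ} (h : (a, d, b) ∈ Sh J) :
    (a + 1, d, b) ∈ Sh J := by
  obtain ⟨s, t, hs, ht, h1, h2, h3⟩ := h
  dsimp only at hs ht h1 h2 h3
  have hr : range (a + d + b) ⊆ range (a + d + b + 1) := range_subset_range.2 (by omega)
  have hms : a + d + b ∉ s := fun h => by simpa using hs h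
  have hmt : a + d + b ∉ t := fun h => by simpa using ht h
  have e : a + 1 + d + b = a + d + b + 1 := by omega
  refine ⟨insert (a + d + b) s, insert (a + d + b) t, ?_, ?_, ?_, ?_, ?_⟩
  · dsimp only; rw [e]; exact insert_subset (by simp) (hs.trans hr)
  · dsimp only; rw [e]; exact insert_subset (by simp) (ht.trans hr)
  · dsimp only; rw [card_insert_of_notMem hmt, h1]
  · dsimp only; rw [card_insert_of_notMem hms, h2]; omega
  · dsimp only; rw [e]; exact hJ.step_a hs ht h3

lemma Sh_d {J : Submodule K (B K)} (hJ : IsId J) {a d b : ℕ} (h : (a, d, b) ∈ Sh J) :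
    (a, d + 1, b) ∈ Sh J := by
  obtain ⟨s, t, hs, ht, h1, h2, h3⟩ := h
  dsimp only at hs ht h1 h2 h3
  have hr : range (a + d + b) ⊆ range (a + d + b + 1) := range_subset_range.2 (by omega)
  have hms : a + d + b ∉ s := fun h => by simpa using hs h
  have hmt : a + d + b ∉ t := fun h => by simpa using ht h
  have e : a + (d + 1) + b = a + d + b + 1 := by omega
  have h4 := hJ.step_a hs ht h3
  refine ⟨insert (a + d + b) s, t, ?_, ?_, ?_, ?_, ?_⟩
  · dsimp only; rw [e]; exact insert_subset (by simp) (hs.trans hr)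
  · dsimp only; rw [e]; exact ht.trans hr
  · dsimp only; exact h1
  · dsimp only; rw [card_insert_of_notMem hms, h2]; omega
  · dsimp only; rw [e]
    refine hJ.uniform (insert_subset (by simp) (hs.trans hr)) (insert_subset (by simp) (ht.trans hr))
      (insert_subset (by simp) (hs.trans hr)) (ht.trans hr) le_rfl ?_ h4
    exact card_le_card (subset_insert _ _)

lemma Sh_upper {J : Submodule K (B K)} (hJ : IsId J) {p q : ℕ × ℕ × ℕ} (hp : p ∈ Sh J)
    (hpq : p ≤ q) : q ∈ Sh J := by
  obtain ⟨a, d, b⟩ := p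
  obtain ⟨a', d', b'⟩ := q
  simp only [Prod.mk_le_mk] at hpq
  obtain ⟨h1, h2, h3⟩ := hpq
  obtain ⟨i, rfl⟩ := Nat.exists_eq_add_of_le h1
  obtain ⟨j, rfl⟩ := Nat.exists_eq_add_of_le h2
  obtain ⟨k, rfl⟩ := Nat.exists_eq_add_of_le h3
  have hA : ∀ i, (a + i, d, b) ∈ Sh J := by
    intro i
    induction i with
    | zero => exact hp
    | succ i ih => exact Sh_a hJ ih
  have hD : ∀ j, (a + i, d + j, b) ∈ Sh J := by
    intro j
    induction j with
    | zero => exact hA i
    | succ j ih => exact Sh_d hJ ih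
  have hB : ∀ k, (a + i, d + j, b + k) ∈ Sh J := by
    intro k
    induction k with
    | zero => exact hD j
    | succ k ih => exact Sh_b hJ ih
  exact hB k

lemma le_of_Sh {J J' : Submodule K (B K)} (hJ : IsId J) (hJ' : IsId J') (h : Sh J ⊆ Sh J') :
    J ≤ J' := by
  intro x hx
  obtain ⟨m, hm⟩ := hJ.le x hx
  refine mem_of_units hm J' fun s t hs ht hst hne => ?_
  have h1 := hJ.unit_mem hx hm hs ht hne
  have hsm := card_le_card hs
  rw [card_range] at hsm
  have e : t.card + (s.card - t.card) + (m - s.card) = m := by omega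
  have h2 : (t.card, s.card - t.card, m - s.card) ∈ Sh J := by
    refine ⟨s, t, ?_, ?_, rfl, ?_, ?_⟩
    · dsimp only; rw [e]; exact hs
    · dsimp only; rw [e]; exact ht
    · dsimp only; omega
    · dsimp only; rw [e]; exact h1
  obtain ⟨s', t', hs', ht', h3, h4, h5⟩ := h h2
  dsimp only at hs' ht' h3 h4 h5
  rw [e] at hs' ht' h5
  exact hJ'.uniform hs' ht' hs ht (by omega) (by omega) h5

/-- ascending chain condition on ideals. -/
theorem acc (f : ℕ → Submodule K (B K)) (hf : ∀ n, IsId (f n)) (hmono : Monotone f) :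
    ∃ N, ∀ n, N ≤ n → f n = f N := by
  by_contra hcon
  push Not at hcon
  have hx : ∀ N, ∃ n, ∃ x, N ≤ n ∧ x ∈ Sh (f n) ∧ x ∉ Sh (f N) := by
    intro N
    obtain ⟨n, hn, hne⟩ := hcon N
    have h1 : ¬ (Sh (f n) ⊆ Sh (f N)) := by
      intro h
      exact hne (le_antisymm (le_of_Sh (hf n) (hf N) h) (hmono hn))
    rw [Set.not_subset] at h1
    obtain ⟨x, hx1, hx2⟩ := h1
    exact ⟨n, x, hn, hx1, hx2⟩
  choose g x hg hx1 hx2 using hx
  let u : ℕ → ℕ := fun k => Nat.rec 0 (fun _ v => g v) k
  have hu : ∀ k, u (k + 1) = g (u k) := fun k => rfl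
  have humono : Monotone u := monotone_nat_of_le_succ fun k => by rw [hu]; exact hg _
  obtain ⟨i, j, hij, hle⟩ := wellQuasiOrdered_le (α := ℕ × ℕ × ℕ) (fun k => x (u k))
  have h1 : x (u i) ∈ Sh (f (u (i + 1))) := by rw [hu]; exact hx1 _
  have h2 : x (u j) ∈ Sh (f (u (i + 1))) := Sh_upper (hf _) h1 hle
  have h3 : Sh (f (u (i + 1))) ⊆ Sh (f (u j)) := by
    rintro p ⟨s, t, hs, ht, a1, a2, a3⟩
    exact ⟨s, t, hs, ht, a1, a2, hmono (humono hij) a3⟩
  exact hx2 _ (h3 h2)

/-- the ideal `L`: positive degree. -/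
def L (K : Type*) [Field K] : Submodule K (B K) where
  carrier := {x | ∃ m, x ∈ F K m 1}
  zero_mem' := ⟨0, Submodule.zero_mem _⟩
  add_mem' := by
    rintro x y ⟨m, hx⟩ ⟨n, hy⟩
    exact ⟨max m n, Submodule.add_mem _ (F_mono (le_max_left m n) hx) (F_mono (le_max_right m n) hy)⟩
  smul_mem' := by
    rintro c x ⟨m, hx⟩
    exact ⟨m, Submodule.smul_mem _ _ hx⟩

lemma mem_L {x : B K} : x ∈ L K ↔ ∃ m, x ∈ F K m 1 := Iff.rfl

lemma L_isId : IsId (L K) where
  le := by
    rintro x ⟨m, hx⟩
    exact ⟨m, F_anti (by omega) hx⟩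
  left := by
    rintro a ⟨m, ha⟩ x ⟨n, hx⟩
    refine ⟨max m n, ?_⟩
    have := F_mul (F_mono (le_max_left m n) ha) (F_mono (le_max_right m n) hx)
    simpa using this
  right := by
    rintro a ⟨m, ha⟩ x ⟨n, hx⟩
    refine ⟨max m n, ?_⟩
    have := F_mul (F_mono (le_max_right m n) hx) (F_mono (le_max_left m n) ha)
    simpa using this

/-- a finite subset of `L` lies in a single `F m 1`. -/
lemma finite_L (S : Finset (B K)) (hS : ∀ x ∈ S, x ∈ L K) : ∃ m, ∀ x ∈ S, x ∈ F K m 1 := by
  classical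
  induction S using Finset.induction_on with
  | empty => exact ⟨0, by simp⟩
  | insert a S _ ih =>
    obtain ⟨m, hm⟩ := ih (fun x hx => hS x (mem_insert_of_mem hx))
    obtain ⟨n, hn⟩ := hS a (mem_insert_self _ _)
    refine ⟨max m n, fun x hx => ?_⟩
    rw [mem_insert] at hx
    rcases hx with rfl | hx
    · exact F_mono (le_max_right m n) hn
    · exact F_mono (le_max_left m n) (hm x hx)

/-- an ideal not contained in `L` contains a diagonal matrix unit. -/
lemma exists_idem {J : Submodule K (B K)} (hJ : IsId J) (h : ¬ J ≤ L K) :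
    ∃ m, ∃ s : Finset ℕ, s ⊆ range m ∧ E K m s s ∈ J := by
  by_contra hcon
  push Not at hcon
  apply h
  intro x hx
  obtain ⟨m, hm⟩ := hJ.le x hx
  refine mem_of_units hm (L K) fun s t hs ht hst hne => ?_
  have h1 := hJ.unit_mem hx hm hs ht hne
  refine ⟨m, E_mem_F hs ht ?_⟩
  by_contra h2
  have h3 : s.card ≤ t.card := by omega
  have h4 := hJ.right _ (E_mem_A ht hs h3) _ h1
  rw [E_mul_same ht] at h4
  exact hcon m s hs h4

/-! ### Jordan ideals -/

structure IsJId (J : Submodule K (B K)) : Prop where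
  le : ∀ x ∈ J, x ∈ A K
  mul : ∀ a ∈ A K, ∀ x ∈ J, a * x + x * a ∈ J

lemma half {J : Submodule K (B K)} (h2 : (2 : K) ≠ 0) {x : B K} (h : x + x ∈ J) : x ∈ J := by
  have h1 := J.smul_mem (2 : K)⁻¹ h
  rwa [← two_smul K x, smul_smul, inv_mul_cancel₀ h2, one_smul] at h1

lemma IsJId.diag {J : Submodule K (B K)} (hJ : IsJId J) (h2 : (2 : K) ≠ 0) {x : B K} (hx : x ∈ J)
    {m : ℕ} {s : Finset ℕ} (hs : s ⊆ range m) : E K m s s * x * E K m s s ∈ J := by
  have he := E_mem_A (K := K) hs hs le_rfl
  have h1 := hJ.mul _ he _ hx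
  have h3 := hJ.mul _ he _ h1
  have hid : E K m s s * E K m s s = E K m s s := E_mul_same hs
  have h4 : E K m s s * (E K m s s * x + x * E K m s s) + (E K m s s * x + x * E K m s s) * E K m s s
      - (E K m s s * x + x * E K m s s) = E K m s s * x * E K m s s + E K m s s * x * E K m s s := by
    have e1 : E K m s s * (E K m s s * x) = E K m s s * x := by rw [← mul_assoc, hid]
    have e2 : x * E K m s s * E K m s s = x * E K m s s := by rw [mul_assoc, hid]
    rw [mul_add, add_mul, e1, e2, ← mul_assoc]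
    abel
  have h5 := J.sub_mem h3 h1
  rw [h4] at h5
  exact half h2 h5

lemma IsJId.offdiag {J : Submodule K (B K)} (hJ : IsJId J) {x : B K} (hx : x ∈ J)
    {m : ℕ} {s t : Finset ℕ} (hs : s ⊆ range m) (ht : t ⊆ range m) (hst : s ≠ t) :
    E K m s s * x * E K m t t + E K m t t * x * E K m s s ∈ J := by
  have h1 := hJ.mul _ (E_mem_A (K := K) hs hs le_rfl) _ hx
  have h3 := hJ.mul _ (E_mem_A (K := K) ht ht le_rfl) _ h1
  have h4 : E K m t t * (E K m s s * x + x * E K m s s) + (E K m s s * x + x * E K m s s) * E K m t t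
       = E K m s s * x * E K m t t + E K m t t * x * E K m s s := by
    have e1 : E K m t t * (E K m s s * x) = 0 := by
      rw [← mul_assoc, E_mul_ne ht (Ne.symm hst), zero_mul]
    have e2 : x * E K m s s * E K m t t = 0 := by rw [mul_assoc, E_mul_ne hs hst, mul_zero]
    rw [mul_add, add_mul, e1, e2, ← mul_assoc]
    abel
  rwa [h4] at h3

lemma smul_mem_cancel {J : Submodule K (B K)} {c : K} (hc : c ≠ 0) {x : B K} (h : c • x ∈ J) :
    x ∈ J := by
  have h2 := J.smul_mem c⁻¹ h
  rwa [smul_smul, inv_mul_cancel₀ hc, one_smul] at h2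

lemma IsJId.unit_mem {J : Submodule K (B K)} (hJ : IsJId J) (h2 : (2 : K) ≠ 0) {x : B K}
    (hx : x ∈ J) {m : ℕ} {s t : Finset ℕ} (hxm : x ∈ F K m 0)
    (hs : s ⊆ range m) (ht : t ⊆ range m) (h : E K m s s * x * E K m t t ≠ 0) : E K m s t ∈ J := by
  obtain ⟨c, e, hc'⟩ := corner hxm hs ht
  have hc : c ≠ 0 := by
    rintro rfl
    rw [e, zero_smul] at h
    exact h rfl
  have hts := hc' hc
  rw [add_zero] at hts
  by_cases hst : s = t
  · subst hst
    have h3 := hJ.diag h2 hx hs
    rw [e] at h3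
    exact smul_mem_cancel hc h3
  · obtain ⟨c', e', hc''⟩ := corner hxm ht hs
    have h3 := hJ.offdiag hx hs ht hst
    rw [e, e'] at h3
    by_cases hcard : t.card = s.card
    · have hEts : E K m t s ∈ A K := E_mem_A ht hs (by omega)
      have hEst : E K m s t ∈ A K := E_mem_A hs ht (by omega)
      have h4 := hJ.mul _ hEts _ h3
      have h5 : E K m t s * (c • E K m s t + c' • E K m t s) +
          (c • E K m s t + c' • E K m t s) * E K m t s = c • (E K m t t + E K m s s) := by
        rw [mul_add, add_mul, mul_smul_comm, mul_smul_comm, smul_mul_assoc, smul_mul_assoc,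
          E_mul_same hs, E_mul_same ht, E_mul_ne hs hst, smul_zero]
        rw [smul_add]
        abel
      rw [h5] at h4
      have h6 := smul_mem_cancel hc h4
      have h7 := hJ.mul _ (E_mem_A (K := K) hs hs le_rfl) _ h6
      rw [mul_add, add_mul, E_mul_same hs, E_mul_ne hs hst, E_mul_ne ht (Ne.symm hst), zero_add] at h7
      have h8 := half h2 h7
      have h9 := hJ.mul _ hEst _ h8
      rwa [E_mul_ne ht (Ne.symm hst), E_mul_same hs, zero_add] at h9
    · have hc0 : c' = 0 := by
        by_contra h4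
        have := hc'' h4
        omega
      rw [hc0, zero_smul, add_zero] at h3
      exact smul_mem_cancel hc h3

lemma IsJId.left_unit {J : Submodule K (B K)} (hJ : IsJId J) (h2 : (2 : K) ≠ 0)
    {m : ℕ} {s t u : Finset ℕ} (hs : s ⊆ range m) (ht : t ⊆ range m) (hu : u ⊆ range m)
    (h1 : t.card ≤ s.card) (h3 : s.card ≤ u.card) (h : E K m s t ∈ J) : E K m u t ∈ J := by
  by_cases hus : u = s
  · rw [hus]; exact h
  · have h4 := hJ.mul _ (E_mem_A (K := K) hu hs h3) _ h
    rw [E_mul_same hs] at h4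
    by_cases htu : t = u
    · subst htu
      rw [E_mul_same ht] at h4
      have h5 := hJ.mul _ (E_mem_A (K := K) ht ht le_rfl) _ h4
      rw [mul_add, add_mul, E_mul_same ht, E_mul_ne ht hus, E_mul_ne hs (Ne.symm hus), add_zero] at h5
      exact half h2 h5
    · rw [E_mul_ne ht htu, add_zero] at h4
      exact h4

lemma IsJId.right_unit {J : Submodule K (B K)} (hJ : IsJId J) (h2 : (2 : K) ≠ 0)
    {m : ℕ} {s t v : Finset ℕ} (hs : s ⊆ range m) (ht : t ⊆ range m) (hv : v ⊆ range m)
    (h1 : t.card ≤ s.card) (h3 : v.card ≤ t.card) (h : E K m s t ∈ J) : E K m s v ∈ J := by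
  by_cases hvt : v = t
  · rw [hvt]; exact h
  · have h4 := hJ.mul _ (E_mem_A (K := K) ht hv h3) _ h
    rw [E_mul_same ht] at h4
    by_cases hvs : v = s
    · subst hvs
      rw [E_mul_same hv] at h4
      have h5 := hJ.mul _ (E_mem_A (K := K) hv hv le_rfl) _ h4
      rw [mul_add, add_mul, E_mul_same hv, E_mul_ne hv hvt, E_mul_ne ht (Ne.symm hvt), zero_add] at h5
      exact half h2 h5
    · rw [E_mul_ne hv hvs, zero_add] at h4
      exact h4

lemma IsJId.isId {J : Submodule K (B K)} (hJ : IsJId J) (h2 : (2 : K) ≠ 0) : IsId J where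
  le := hJ.le
  left := by
    intro a ha x hx
    obtain ⟨m₁, ha⟩ := ha
    obtain ⟨m₂, hxm⟩ := hJ.le x hx
    have ha := F_mono (le_max_left m₁ m₂) ha
    have hxm := F_mono (le_max_right m₁ m₂) hxm
    set m := max m₁ m₂
    have key : ∀ s t u v : Finset ℕ, s ⊆ range m → t ⊆ range m → u ⊆ range m → v ⊆ range m →
        (E K m u u * a * E K m v v) * (E K m s s * x * E K m t t) ∈ J := by
      intro s t u v hs ht hu hv
      obtain ⟨c, e, hc⟩ := corner ha hu hv
      obtain ⟨c', e', hc'⟩ := corner hxm hs ht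
      rw [e, e', smul_mul_smul_comm, E_mul hv]
      by_cases h0 : c = 0
      · rw [h0]; simp
      by_cases h0' : c' = 0
      · rw [h0']; simp
      split_ifs with hvs
      · subst hvs
        apply J.smul_mem
        refine hJ.left_unit h2 hv ht hu (hc' h0') (hc h0) (hJ.unit_mem h2 hx hxm hv ht ?_)
        rw [e']
        exact smul_ne_zero h0' (E_ne_zero hv)
      · rw [smul_zero]; exact J.zero_mem
    rw [expand m a, expand m x, Finset.sum_mul_sum]
    refine Submodule.sum_mem _ fun u hu => Submodule.sum_mem _ fun s hs => ?_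
    rw [Finset.sum_mul_sum]
    refine Submodule.sum_mem _ fun v hv => Submodule.sum_mem _ fun t ht => ?_
    rw [mem_powerset] at hu hv hs ht
    exact key s t u v hs ht hu hv
  right := by
    intro a ha x hx
    obtain ⟨m₁, ha⟩ := ha
    obtain ⟨m₂, hxm⟩ := hJ.le x hx
    have ha := F_mono (le_max_left m₁ m₂) ha
    have hxm := F_mono (le_max_right m₁ m₂) hxm
    set m := max m₁ m₂
    have key : ∀ s t u v : Finset ℕ, s ⊆ range m → t ⊆ range m → u ⊆ range m → v ⊆ range m →
        (E K m s s * x * E K m t t) * (E K m u u * a * E K m v v) ∈ J := by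
      intro s t u v hs ht hu hv
      obtain ⟨c, e, hc⟩ := corner ha hu hv
      obtain ⟨c', e', hc'⟩ := corner hxm hs ht
      rw [e, e', smul_mul_smul_comm, E_mul ht]
      by_cases h0 : c = 0
      · rw [h0]; simp
      by_cases h0' : c' = 0
      · rw [h0']; simp
      split_ifs with hvs
      · subst hvs
        apply J.smul_mem
        refine hJ.right_unit h2 hs ht hv (hc' h0') (hc h0) (hJ.unit_mem h2 hx hxm hs ht ?_)
        rw [e']
        exact smul_ne_zero h0' (E_ne_zero hs)
      · rw [smul_zero]; exact J.zero_mem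
    rw [expand m a, expand m x, Finset.sum_mul_sum]
    refine Submodule.sum_mem _ fun u hu => Submodule.sum_mem _ fun s hs => ?_
    rw [Finset.sum_mul_sum]
    refine Submodule.sum_mem _ fun v hv => Submodule.sum_mem _ fun t ht => ?_
    rw [mem_powerset] at hu hv hs ht
    exact key u v s t hu hv hs ht

end Pool.Agent.Helper8.CarPos
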