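import Mathlib

noncomputable section

namespace Pool.Agent.Helper8.CompactCountable

/-- Compact-normal-by-countable groups. -/
def NC (H : Type) [Group H] [TopologicalSpace H] : Prop :=
  ∃ N : Subgroup H, N.Normal ∧ IsCompact (N : Set H) ∧
    ∃ s : ℕ → H, ∀ h : H, ∃ n, (s n)⁻¹ * h ∈ N

theorem nc_compact (H : Type) [Group H] [TopologicalSpace H] [CompactSpace H] : NC H :=
  ⟨⊤, inferInstance, by simpa using isCompact_univ, fun _ => 1, fun _ => ⟨0, trivial⟩⟩

theorem nc_countable (H : Type) [Group H] [TopologicalSpace H] [Countable H] : NC H := by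
  obtain ⟨s, hs⟩ := exists_surjective_nat H
  refine ⟨⊥, inferInstance, by simp, s, fun h => ?_⟩
  obtain ⟨n, rfl⟩ := hs h
  exact ⟨n, by simp⟩

theorem nc_prod (H₁ H₂ : Type) [Group H₁] [TopologicalSpace H₁] [Group H₂] [TopologicalSpace H₂]
    (h1 : NC H₁) (h2 : NC H₂) : NC (H₁ × H₂) := by
  obtain ⟨N, hN, hNc, s, hs⟩ := h1
  obtain ⟨M, hM, hMc, t, ht⟩ := h2
  refine ⟨N.prod M, Subgroup.prod_normal N M, ?_, fun n => (s n.unpair.1, t n.unpair.2), ?_⟩
  · rw [Subgroup.coe_prod]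
    exact hNc.prod hMc
  · rintro ⟨x, y⟩
    obtain ⟨a, ha⟩ := hs x
    obtain ⟨b, hb⟩ := ht y
    refine ⟨Nat.pair a b, ?_⟩
    rw [Subgroup.mem_prod]
    simp only [Nat.unpair_pair]
    exact ⟨ha, hb⟩

theorem nc_subgroup (H : Type) [Group H] [TopologicalSpace H] (L : Subgroup H)
    (hL : IsClosed (L : Set H)) (h : NC H) : NC L := by
  classical
  obtain ⟨N, hN, hNc, s, hs⟩ := h
  refine ⟨N.subgroupOf L, inferInstance, ?_,
    fun n => if h : ∃ l : L, (s n)⁻¹ * (l : H) ∈ N then h.choose else 1, ?_⟩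
  · have h1 : IsCompact ((N : Set H) ∩ L) := hNc.inter_right hL
    have h2 : ((N.subgroupOf L : Subgroup L) : Set L) = ((↑) : L → H) ⁻¹' ((N : Set H) ∩ L) := by
      ext x
      simp [Subgroup.mem_subgroupOf]
    rw [h2]
    exact hL.isClosedEmbedding_subtypeVal.isCompact_preimage h1
  · intro l
    obtain ⟨n, hn⟩ := hs l
    refine ⟨n, ?_⟩
    have hex : ∃ l : L, (s n)⁻¹ * (l : H) ∈ N := ⟨l, hn⟩
    simp only [dif_pos hex]
    rw [Subgroup.mem_subgroupOf]
    have h3 := hex.choose_spec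
    have h4 : ((hex.choose⁻¹ * l : L) : H) =
        ((s n)⁻¹ * (hex.choose : H))⁻¹ * ((s n)⁻¹ * (l : H)) := by
      push_cast
      group
    rw [h4]
    exact N.mul_mem (N.inv_mem h3) hn

theorem nc_image (H₁ H₂ : Type) [Group H₁] [TopologicalSpace H₁] [Group H₂] [TopologicalSpace H₂]
    (f : H₁ →* H₂) (hf : Continuous f) (hs : Function.Surjective f) (h : NC H₁) : NC H₂ := by
  obtain ⟨N, hN, hNc, s, hs'⟩ := h
  refine ⟨N.map f, hN.map f hs, ?_, fun n => f (s n), ?_⟩
  · rw [Subgroup.coe_map]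
    exact hNc.image hf
  · intro y
    obtain ⟨x, rfl⟩ := hs y
    obtain ⟨n, hn⟩ := hs' x
    exact ⟨n, ⟨_, hn, by rw [map_mul, map_inv]⟩⟩

/-- The group of affine maps `y ↦ 2 ^ n * y + x` of the field of 2-adic numbers. -/
def PG : Type := ℤ × ℚ_[2]

instance : TopologicalSpace PG := inferInstanceAs (TopologicalSpace (ℤ × ℚ_[2]))
instance : T2Space PG := inferInstanceAs (T2Space (ℤ × ℚ_[2]))

instance : Mul PG := ⟨fun a b => (a.1 + b.1, a.2 + (2 : ℚ_[2]) ^ a.1 * b.2)⟩
instance : One PG := ⟨((0 : ℤ), (0 : ℚ_[2]))⟩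
instance : Inv PG := ⟨fun a => (-a.1, -((2 : ℚ_[2]) ^ (-a.1) * a.2))⟩

theorem two_ne : (2 : ℚ_[2]) ≠ 0 := two_ne_zero

theorem mul_def' (a b : PG) : a * b = (a.1 + b.1, a.2 + (2 : ℚ_[2]) ^ a.1 * b.2) := rfl
theorem one_def' : (1 : PG) = ((0 : ℤ), (0 : ℚ_[2])) := rfl
theorem inv_def' (a : PG) : a⁻¹ = (-a.1, -((2 : ℚ_[2]) ^ (-a.1) * a.2)) := rfl

theorem ext' {a b : PG} (h1 : a.1 = b.1) (h2 : a.2 = b.2) : a = b := Prod.ext h1 h2

instance : Group PG where
  mul_assoc a b c := by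
    apply ext'
    · exact add_assoc _ _ _
    · show a.2 + (2 : ℚ_[2]) ^ a.1 * b.2 + (2 : ℚ_[2]) ^ (a.1 + b.1) * c.2 =
        a.2 + (2 : ℚ_[2]) ^ a.1 * (b.2 + (2 : ℚ_[2]) ^ b.1 * c.2)
      rw [zpow_add₀ two_ne]
      ring
  one_mul a := by
    apply ext'
    · exact zero_add _
    · show 0 + (2 : ℚ_[2]) ^ (0 : ℤ) * a.2 = a.2
      simp
  mul_one a := by
    apply ext'
    · exact add_zero _
    · show a.2 + (2 : ℚ_[2]) ^ a.1 * 0 = a.2
      simp
  inv_mul_cancel a := by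
    apply ext'
    · exact neg_add_cancel _
    · show -((2 : ℚ_[2]) ^ (-a.1) * a.2) + (2 : ℚ_[2]) ^ (-a.1) * a.2 = 0
      ring

instance : IsTopologicalGroup PG where
  continuous_mul := by
    have h1 : Continuous fun q : PG × PG => q.1.1 :=
      (continuous_fst (X := ℤ) (Y := ℚ_[2])).comp continuous_fst
    have h2 : Continuous fun q : PG × PG => q.1.2 :=
      (continuous_snd (X := ℤ) (Y := ℚ_[2])).comp continuous_fst
    have h3 : Continuous fun q : PG × PG => q.2.1 :=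
      (continuous_fst (X := ℤ) (Y := ℚ_[2])).comp continuous_snd
    have h4 : Continuous fun q : PG × PG => q.2.2 :=
      (continuous_snd (X := ℤ) (Y := ℚ_[2])).comp continuous_snd
    have h5 : Continuous fun n : ℤ => (2 : ℚ_[2]) ^ n := continuous_of_discreteTopology
    exact Continuous.prodMk (h1.add h3) (h2.add ((h5.comp h1).mul h4))
  continuous_inv := by
    have h1 : Continuous fun q : PG => q.1 := continuous_fst (X := ℤ) (Y := ℚ_[2])
    have h2 : Continuous fun q : PG => q.2 := continuous_snd (X := ℤ) (Y := ℚ_[2])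
    have h5 : Continuous fun n : ℤ => (2 : ℚ_[2]) ^ n := continuous_of_discreteTopology
    exact Continuous.prodMk h1.neg (((h5.comp h1.neg).mul h2).neg)

theorem continuous_fst' : Continuous fun q : PG => q.1 := continuous_fst (X := ℤ) (Y := ℚ_[2])
theorem continuous_snd' : Continuous fun q : PG => q.2 := continuous_snd (X := ℤ) (Y := ℚ_[2])

/-- Translations. -/
def tr (x : ℚ_[2]) : PG := ((0 : ℤ), x)

theorem tr_continuous : Continuous tr := Continuous.prodMk continuous_const continuous_id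

/-- The compact subgroup of translations by 2-adic integers. -/
def KK : Subgroup PG where
  carrier := {a | a.1 = 0 ∧ ‖a.2‖ ≤ 1}
  mul_mem' := by
    rintro a b ⟨h1, h2⟩ ⟨h3, h4⟩
    refine ⟨?_, ?_⟩
    · show a.1 + b.1 = 0
      rw [h1, h3, add_zero]
    · show ‖a.2 + (2 : ℚ_[2]) ^ a.1 * b.2‖ ≤ 1
      rw [h1, zpow_zero, one_mul]
      exact (Padic.nonarchimedean _ _).trans (max_le h2 h4)
  one_mem' := ⟨rfl, by show ‖(0 : ℚ_[2])‖ ≤ 1; simp⟩
  inv_mem' := by
    rintro a ⟨h1, h2⟩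
    refine ⟨?_, ?_⟩
    · show -a.1 = 0
      rw [h1, neg_zero]
    · show ‖-((2 : ℚ_[2]) ^ (-a.1) * a.2)‖ ≤ 1
      rw [h1, neg_zero, zpow_zero, one_mul, norm_neg]
      exact h2

/-- The parametrisation of the compact subgroup. -/
def par (z : ℤ_[2]) : KK := ⟨tr (z : ℚ_[2]), ⟨rfl, z.2⟩⟩

theorem par_continuous : Continuous par :=
  Continuous.subtype_mk (tr_continuous.comp continuous_subtype_val) _

theorem par_surjective : Function.Surjective par := by
  rintro ⟨a, h1, h2⟩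
  exact ⟨⟨a.2, h2⟩, Subtype.ext (ext' h1.symm rfl)⟩

theorem KK_compact : CompactSpace KK := by
  have h := isCompact_range par_continuous
  rw [par_surjective.range_eq] at h
  exact isCompact_univ_iff.mp h

theorem KK_separable : TopologicalSpace.SeparableSpace KK := by
  have h : DenseRange par := par_surjective.denseRange
  exact h.separableSpace par_continuous

theorem KK_countable : Countable (PG ⧸ KK) := by
  let s : ℤ × ℚ → PG ⧸ KK := fun q => QuotientGroup.mk ((q.1, (q.2 : ℚ_[2])) : PG)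
  have hs : Function.Surjective s := by
    intro y
    obtain ⟨a, rfl⟩ := QuotientGroup.mk_surjective y
    have hpos : (0 : ℝ) < ‖(2 : ℚ_[2]) ^ a.1‖ := norm_pos_iff.mpr (zpow_ne_zero _ two_ne)
    obtain ⟨r, hr⟩ := Padic.rat_dense 2 a.2 hpos
    refine ⟨(a.1, r), ?_⟩
    apply QuotientGroup.eq.mpr
    refine ⟨?_, ?_⟩
    · show -a.1 + a.1 = 0
      ring
    · show ‖-((2 : ℚ_[2]) ^ (-a.1) * (r : ℚ_[2])) + (2 : ℚ_[2]) ^ (-a.1) * a.2‖ ≤ 1
      have h1 : -((2 : ℚ_[2]) ^ (-a.1) * (r : ℚ_[2])) + (2 : ℚ_[2]) ^ (-a.1) * a.2 =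
          ((2 : ℚ_[2]) ^ a.1)⁻¹ * (a.2 - r) := by
        rw [zpow_neg]
        ring
      rw [h1, norm_mul, norm_inv, inv_mul_le_iff₀ hpos, mul_one]
      exact hr.le
  exact hs.countable

theorem not_nc : ¬ NC PG := by
  rintro ⟨N, hN, hNc, s, hs⟩
  -- the projection to `ℤ` vanishes on `N`
  have h1 : ∀ a ∈ N, a.1 = 0 := by
    intro a ha
    by_contra hne
    have hc : IsCompact ((fun q : PG => q.1) '' (N : Set PG)) := hNc.image continuous_fst'
    have hfin : ((fun q : PG => q.1) '' (N : Set PG)).Finite := hc.finite_of_discrete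
    have hpow : ∀ k : ℕ, (a ^ k).1 = k * a.1 := by
      intro k
      induction k with
      | zero => simp [one_def']
      | succ k ih =>
        rw [pow_succ]
        show (a ^ k).1 + a.1 = _
        rw [ih]
        push_cast
        ring
    have hinj : Function.Injective (fun k : ℕ => (k : ℤ) * a.1) := by
      intro k l hkl
      have := mul_right_cancel₀ hne hkl
      exact_mod_cast this
    refine Set.infinite_range_of_injective hinj (hfin.subset ?_)
    rintro _ ⟨k, rfl⟩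
    exact ⟨a ^ k, N.pow_mem ha k, hpow k⟩
  -- the translation part vanishes on `N`
  have h2 : ∀ a ∈ N, a.2 = 0 := by
    intro a ha
    by_contra hne
    have hc : IsCompact ((fun q : PG => q.2) '' (N : Set PG)) := hNc.image continuous_snd'
    obtain ⟨R, hR⟩ := hc.isBounded.exists_norm_le
    let t : ℕ → PG := fun k => ((-(k : ℤ)), (0 : ℚ_[2]))
    have hconj : ∀ k : ℕ, (t k * a * (t k)⁻¹).2 = (2 : ℚ_[2]) ^ (-(k : ℤ)) * a.2 := by
      intro k
      show 0 + (2 : ℚ_[2]) ^ (-(k : ℤ)) * a.2 + (2 : ℚ_[2]) ^ (-(k : ℤ) + a.1) *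
        -((2 : ℚ_[2]) ^ (- -(k : ℤ)) * 0) = _
      simp
    have hb : ∀ k : ℕ, (2 : ℝ) ^ k * ‖a.2‖ ≤ R := by
      intro k
      have h3 := hR _ ⟨_, hN.conj_mem a ha (t k), rfl⟩
      have h3' : ‖(t k * a * (t k)⁻¹).2‖ ≤ R := h3
      rw [hconj, norm_mul, norm_zpow] at h3'
      have h4 : ‖(2 : ℚ_[2])‖ = (2 : ℝ)⁻¹ := by
        have := Padic.norm_p (p := 2)
        simpa using this
      rw [h4, inv_zpow, zpow_neg, inv_inv, zpow_natCast] at h3'
      exact h3'
    have hpos : 0 < ‖a.2‖ := norm_pos_iff.mpr hne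
    have htend : Filter.Tendsto (fun k : ℕ => (2 : ℝ) ^ k * ‖a.2‖) Filter.atTop Filter.atTop :=
      (tendsto_pow_atTop_atTop_of_one_lt (by norm_num)).atTop_mul_const hpos
    obtain ⟨k, hk⟩ := (htend.eventually_gt_atTop R).exists
    exact absurd (hb k) (not_le_of_gt hk)
  have h3 : ∀ a ∈ N, a = 1 := fun a ha => ext' (h1 a ha) (h2 a ha)
  have hsurj : Function.Surjective s := by
    intro h
    obtain ⟨n, hn⟩ := hs h
    exact ⟨n, (inv_mul_eq_one.mp (h3 _ hn))⟩
  have hcount : Countable PG := hsurj.countable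
  have hinj : Function.Injective tr := fun x y hxy => congrArg Prod.snd hxy
  have hcount2 : Countable ℚ_[2] := hinj.countable
  have h5 := continuum_le_cardinal_of_nontriviallyNormedField ℚ_[2]
  have h6 : Cardinal.mk ℚ_[2] ≤ Cardinal.aleph0 := Cardinal.mk_le_aleph0_iff.mpr hcount2
  exact absurd (h5.trans h6) (not_le_of_gt Cardinal.aleph0_lt_continuum)

end Pool.Agent.Helper8.CompactCountable
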