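import Mathlib

set_option autoImplicit false

namespace Pool.Agent.Helper8.DiffDiv

open Finset

/-- number of members of `P` dividing `a`. -/
noncomputable def om (P : Finset ℕ) (a : ℕ) : ℝ := ∑ p ∈ P, if p ∣ a then (1 : ℝ) else 0

noncomputable def LL (P : Finset ℕ) : ℝ := ∑ p ∈ P, (1 : ℝ) / p

def Adm (t : ℕ) (A : Finset ℕ) : Prop :=
  ∀ a ∈ A, ∀ b ∈ A, a < b → t ≤ b - a → ¬ (b - a ∣ b)

lemma half {t n : ℕ} {A : Finset ℕ} (hA : A ⊆ Icc 1 n) (h : Adm t A) {p : ℕ} (hp : 0 < p)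
    (htp : t ≤ p) : (2 : ℝ) * ((A.filter (fun a => p ∣ a)).card : ℝ) ≤ (n : ℝ) / p + 1 := by
  set C := A.filter (fun a => p ∣ a) with hC
  have hdisj : Disjoint C (C.map (addRightEmbedding p)) := by
    rw [Finset.disjoint_left]
    intro x hx hx'
    rw [Finset.mem_map] at hx'
    obtain ⟨y, hy, hyx⟩ := hx'
    simp only [addRightEmbedding_apply] at hyx
    rw [hC, mem_filter] at hx hy
    refine h y hy.1 x hx.1 (by omega) (by omega) ?_
    have : x - y = p := by omega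
    rw [this]; exact hx.2
  have hsub : C ∪ C.map (addRightEmbedding p) ⊆ (Ioc 0 (n + p)).filter (fun x => p ∣ x) := by
    intro x hx
    rw [mem_union] at hx
    rcases hx with hx | hx
    · rw [hC, mem_filter] at hx
      have := hA hx.1
      rw [mem_Icc] at this
      rw [mem_filter, mem_Ioc]
      exact ⟨⟨by omega, by omega⟩, hx.2⟩
    · rw [Finset.mem_map] at hx
      obtain ⟨y, hy, hyx⟩ := hx
      simp only [addRightEmbedding_apply] at hyx
      rw [hC, mem_filter] at hy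
      have := hA hy.1
      rw [mem_Icc] at this
      rw [mem_filter, mem_Ioc]
      refine ⟨⟨by omega, by omega⟩, ?_⟩
      rw [← hyx]
      exact Dvd.dvd.add hy.2 (dvd_refl p)
  have hcard := Finset.card_le_card hsub
  rw [Finset.card_union_of_disjoint hdisj, Finset.card_map, Nat.Ioc_filter_dvd_card_eq_div] at hcard
  have h2 : (n + p) / p = n / p + 1 := Nat.add_div_right n hp
  rw [h2] at hcard
  have h3 : ((C.card + C.card : ℕ) : ℝ) ≤ ((n / p + 1 : ℕ) : ℝ) := by exact_mod_cast hcard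
  push_cast at h3
  have h4 : ((n / p : ℕ) : ℝ) ≤ (n : ℝ) / p := Nat.cast_div_le
  linarith

lemma sum_om (A P : Finset ℕ) :
    ∑ a ∈ A, om P a = ∑ p ∈ P, ((A.filter (fun a => p ∣ a)).card : ℝ) := by
  unfold om
  rw [Finset.sum_comm]
  refine Finset.sum_congr rfl fun p _ => ?_
  rw [Finset.sum_ite]
  simp

lemma sum_om_ge {P : Finset ℕ} (n : ℕ) (hP : ∀ p ∈ P, Nat.Prime p) :
    (n : ℝ) * LL P - P.card ≤ ∑ a ∈ Icc 1 n, om P a := by
  rw [sum_om]
  unfold LL
  have h1 : ∀ p ∈ P, (n : ℝ) * (1 / p) - 1 ≤ (((Icc 1 n).filter (fun a => p ∣ a)).card : ℝ) := by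
    intro p hp
    have hp0 : 0 < p := (hP p hp).pos
    have : (Icc 1 n).filter (fun a => p ∣ a) = (Ioc 0 n).filter (fun a => p ∣ a) := by
      rfl
    rw [this, Nat.Ioc_filter_dvd_card_eq_div]
    have h5 : (n : ℝ) / p < ((n / p : ℕ) : ℝ) + 1 := by
      have h6 : n < p * (n / p + 1) := by
        have := Nat.lt_mul_div_succ n hp0
        simpa using this
      have h7 : (n : ℝ) < p * (((n / p : ℕ) : ℝ) + 1) := by exact_mod_cast h6
      rw [div_lt_iff₀ (by exact_mod_cast hp0)]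
      linarith
    have : (n : ℝ) * (1 / p) = n / p := by ring
    rw [this]
    linarith
  have h2 := Finset.sum_le_sum h1
  rw [Finset.sum_sub_distrib, ← Finset.mul_sum] at h2
  simpa using h2

lemma sum_om_sq_le {P : Finset ℕ} (n : ℕ) (hP : ∀ p ∈ P, Nat.Prime p) :
    ∑ a ∈ Icc 1 n, (om P a) ^ 2 ≤ (n : ℝ) * (LL P) ^ 2 + n * LL P := by
  have h1 : ∀ a, (om P a) ^ 2 = ∑ p ∈ P, ∑ q ∈ P, (if p ∣ a ∧ q ∣ a then (1 : ℝ) else 0) := by
    intro a
    unfold om
    rw [sq, Finset.sum_mul_sum]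
    refine Finset.sum_congr rfl fun p _ => Finset.sum_congr rfl fun q _ => ?_
    by_cases hp : p ∣ a <;> by_cases hq : q ∣ a <;> simp [hp, hq]
  simp_rw [h1]
  rw [Finset.sum_comm]
  have h2 : ∀ p ∈ P, (∑ a ∈ Icc 1 n, ∑ q ∈ P, (if p ∣ a ∧ q ∣ a then (1 : ℝ) else 0)) ≤
      ∑ q ∈ P, ((n : ℝ) * ((1 / p) * (1 / q)) + if p = q then (n : ℝ) * (1 / p) else 0) := by
    intro p hp
    rw [Finset.sum_comm]
    refine Finset.sum_le_sum fun q hq => ?_
    rw [Finset.sum_ite]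
    simp only [Finset.sum_const, nsmul_eq_mul, mul_one, mul_zero, add_zero]
    have hp0 : (0 : ℝ) < p := by exact_mod_cast (hP p hp).pos
    have hq0 : (0 : ℝ) < q := by exact_mod_cast (hP q hq).pos
    by_cases hpq : p = q
    · subst hpq
      have : (Icc 1 n).filter (fun a => p ∣ a ∧ p ∣ a) = (Ioc 0 n).filter (fun a => p ∣ a) := by
        ext x; simp [mem_filter, mem_Icc, mem_Ioc, Nat.succ_le_iff]
      rw [this, Nat.Ioc_filter_dvd_card_eq_div]
      have h4 : ((n / p : ℕ) : ℝ) ≤ (n : ℝ) / p := Nat.cast_div_le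
      rw [if_pos rfl]
      have h5 : (n : ℝ) * (1 / p) = n / p := by ring
      rw [h5]
      have : 0 ≤ (n : ℝ) * (1 / p * (1 / p)) := by positivity
      linarith
    · have hco : Nat.Coprime p q := (Nat.coprime_primes (hP p hp) (hP q hq)).2 hpq
      have : (Icc 1 n).filter (fun a => p ∣ a ∧ q ∣ a) = (Ioc 0 n).filter (fun a => p * q ∣ a) := by
        ext x
        simp only [mem_filter, mem_Icc, mem_Ioc]
        constructor
        · rintro ⟨⟨h1, h2⟩, h3, h4⟩
          exact ⟨⟨by omega, h2⟩, hco.mul_dvd_of_dvd_of_dvd h3 h4⟩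
        · rintro ⟨⟨h1, h2⟩, h3⟩
          exact ⟨⟨by omega, h2⟩, dvd_of_mul_right_dvd h3, dvd_of_mul_left_dvd h3⟩
      rw [this, Nat.Ioc_filter_dvd_card_eq_div, if_neg hpq]
      have h4 : ((n / (p * q) : ℕ) : ℝ) ≤ (n : ℝ) / ((p * q : ℕ) : ℝ) := Nat.cast_div_le
      push_cast at h4
      have h5 : (n : ℝ) * (1 / p * (1 / q)) = n / (p * q) := by
        field_simp
      rw [h5]
      linarith
  refine (Finset.sum_le_sum h2).trans (le_of_eq ?_)
  unfold LL
  simp_rw [Finset.sum_add_distrib]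
  rw [sq, Finset.sum_mul_sum, Finset.mul_sum, Finset.mul_sum]
  congr 1
  · refine Finset.sum_congr rfl fun p _ => ?_
    rw [Finset.mul_sum]
  · refine Finset.sum_congr rfl fun p hp => ?_
    rw [Finset.sum_ite_eq]
    simp [hp]

lemma turan_kubilius {P : Finset ℕ} (n : ℕ) (hP : ∀ p ∈ P, Nat.Prime p) :
    ∑ a ∈ Icc 1 n, (LL P - om P a) ^ 2 ≤ (n : ℝ) * LL P + 2 * LL P * P.card := by
  have hL : 0 ≤ LL P := by
    unfold LL
    exact Finset.sum_nonneg fun p _ => by positivity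
  have h1 : ∑ a ∈ Icc 1 n, (LL P - om P a) ^ 2 =
      (n : ℝ) * (LL P) ^ 2 - 2 * LL P * ∑ a ∈ Icc 1 n, om P a + ∑ a ∈ Icc 1 n, (om P a) ^ 2 := by
    rw [Finset.mul_sum]
    have : ∀ a, (LL P - om P a) ^ 2 = (LL P)^2 - 2 * LL P * om P a + (om P a)^2 := by
      intro a; ring
    simp_rw [this]
    rw [Finset.sum_add_distrib, Finset.sum_sub_distrib]
    simp
  rw [h1]
  have h2 := sum_om_ge n hP
  have h3 := sum_om_sq_le n hP
  have h4 : 2 * LL P * ((n : ℝ) * LL P - P.card) ≤ 2 * LL P * ∑ a ∈ Icc 1 n, om P a :=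
    mul_le_mul_of_nonneg_left h2 (by positivity)
  nlinarith

lemma upper {t n : ℕ} {A P : Finset ℕ} (hA : A ⊆ Icc 1 n) (h : Adm t A)
    (hP : ∀ p ∈ P, Nat.Prime p) (htP : ∀ p ∈ P, t ≤ p) {μ : ℝ} (hμ : 0 < μ) :
    (A.card : ℝ) * LL P ≤ n * LL P / 2 + P.card / 2 + (n * LL P + 2 * LL P * P.card) / (2 * μ)
      + n * μ / 2 := by
  have h1 : ∑ a ∈ A, om P a ≤ n * LL P / 2 + P.card / 2 := by
    rw [sum_om]
    have : ∀ p ∈ P, ((A.filter (fun a => p ∣ a)).card : ℝ) ≤ (n : ℝ) / 2 * (1 / p) + 1 / 2 := by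
      intro p hp
      have := half hA h (hP p hp).pos (htP p hp)
      have h5 : (n : ℝ) / 2 * (1 / p) = (n / p) / 2 := by ring
      rw [h5]
      linarith
    refine (Finset.sum_le_sum this).trans (le_of_eq ?_)
    rw [Finset.sum_add_distrib, ← Finset.mul_sum]
    simp only [Finset.sum_const, nsmul_eq_mul]
    unfold LL
    ring
  have h2 : ∀ a, LL P - om P a ≤ (LL P - om P a) ^ 2 / (2 * μ) + μ / 2 := by
    intro a
    have : (LL P - om P a) ^ 2 / (2 * μ) + μ / 2 - (LL P - om P a) =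
        ((LL P - om P a) - μ) ^ 2 / (2 * μ) := by
      field_simp
      ring
    have h3 : 0 ≤ ((LL P - om P a) - μ) ^ 2 / (2 * μ) := by positivity
    linarith
  have h3 : ∑ a ∈ A, (LL P - om P a) ≤ (n * LL P + 2 * LL P * P.card) / (2 * μ) + n * μ / 2 := by
    calc ∑ a ∈ A, (LL P - om P a) ≤ ∑ a ∈ A, ((LL P - om P a) ^ 2 / (2 * μ) + μ / 2) :=
          Finset.sum_le_sum fun a _ => h2 a
      _ ≤ ∑ a ∈ Icc 1 n, ((LL P - om P a) ^ 2 / (2 * μ) + μ / 2) :=
          Finset.sum_le_sum_of_subset_of_nonneg hA fun a _ _ => by positivity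
      _ = (∑ a ∈ Icc 1 n, (LL P - om P a) ^ 2) / (2 * μ) + n * μ / 2 := by
          rw [Finset.sum_add_distrib, Finset.sum_div]
          simp only [Finset.sum_const, nsmul_eq_mul, Nat.card_Icc, add_tsub_cancel_right]
          ring
      _ ≤ _ := by
          have := turan_kubilius n hP
          have h5 : (∑ a ∈ Icc 1 n, (LL P - om P a) ^ 2) / (2 * μ) ≤
            (n * LL P + 2 * LL P * P.card) / (2 * μ) := by
            apply div_le_div_of_nonneg_right this (by positivity)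
          linarith
  rw [Finset.sum_sub_distrib] at h3
  simp only [Finset.sum_const, nsmul_eq_mul] at h3
  linarith

/-- finite sets of primes `≥ t` with large sum of reciprocals. -/
lemma exists_P (t : ℕ) (K : ℝ) : ∃ P : Finset ℕ, (∀ p ∈ P, Nat.Prime p) ∧ (∀ p ∈ P, t ≤ p) ∧
    K ≤ LL P := by
  by_contra hcon
  push Not at hcon
  apply Nat.Primes.not_summable_one_div
  have hs : Summable (Set.indicator {p : ℕ | p.Prime} (fun n : ℕ => (1 : ℝ) / n)) := by
    rw [← summable_nat_add_iff t]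
    apply summable_of_sum_le (c := K)
    · intro i
      apply Set.indicator_nonneg
      intro x _
      positivity
    · intro u
      set P : Finset ℕ := (u.map (addRightEmbedding t)).filter Nat.Prime with hPdef
      have hP1 : ∀ p ∈ P, Nat.Prime p := fun p hp => (mem_filter.1 hp).2
      have hP2 : ∀ p ∈ P, t ≤ p := by
        intro p hp
        have := (mem_filter.1 hp).1
        rw [Finset.mem_map] at this
        obtain ⟨y, hy, hyx⟩ := this
        simp only [addRightEmbedding_apply] at hyx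
        omega
      have := hcon P hP1 hP2
      refine le_of_eq_of_le ?_ this.le
      unfold LL
      rw [hPdef, Finset.sum_filter, Finset.sum_map]
      refine Finset.sum_congr rfl fun x _ => ?_
      simp only [addRightEmbedding_apply, Set.indicator, Set.mem_setOf_eq]
  have h2 := (summable_subtype_iff_indicator (s := {p : ℕ | p.Prime})
    (f := fun n : ℕ => (1 : ℝ) / n)).2 hs
  exact h2

lemma eventually_upper (t : ℕ) {ε : ℝ} (hε : 0 < ε) :
    ∃ N : ℕ, ∀ n : ℕ, N ≤ n → ∀ A : Finset ℕ, A ⊆ Icc 1 n → Adm t A →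
      (A.card : ℝ) ≤ (1 / 2 + ε) * n := by
  obtain ⟨P, hP, htP, hL⟩ := exists_P t (4 / ε ^ 2 + 1)
  have hL0 : 0 < LL P := lt_of_lt_of_le (by positivity) hL
  have hL1 : 4 / ε ^ 2 ≤ LL P := by linarith
  have hL2 : 4 ≤ ε ^ 2 * LL P := by
    rw [div_le_iff₀ (by positivity)] at hL1
    linarith
  -- bound
  set c : ℝ := P.card / 2 + (2 * LL P * P.card) / (2 * (ε * LL P)) with hc
  obtain ⟨N, hN⟩ := exists_nat_ge (c / (ε * LL P / 8))
  refine ⟨N, fun n hn A hA h => ?_⟩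
  have h1 := upper hA h hP htP (μ := ε * LL P) (by positivity)
  have h2 : c ≤ n * (ε * LL P / 8) := by
    have : c / (ε * LL P / 8) ≤ n := hN.trans (by exact_mod_cast hn)
    rwa [div_le_iff₀ (by positivity)] at this
  have h3 : (n * LL P + 2 * LL P * P.card) / (2 * (ε * LL P)) =
      n / (2 * ε) + (2 * LL P * P.card) / (2 * (ε * LL P)) := by
    field_simp
  rw [h3] at h1
  have h4 : (n : ℝ) / (2 * ε) ≤ n * (ε * LL P / 8) := by
    rw [div_le_iff₀ (by positivity)]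
    have : n * (ε * LL P / 8) * (2 * ε) = n * (ε ^ 2 * LL P / 4) := by ring
    rw [this]
    have hn0 : (0 : ℝ) ≤ n := Nat.cast_nonneg n
    nlinarith
  have h5 : (A.card : ℝ) * LL P ≤ (1 / 2 + ε) * n * LL P := by
    have hn0 : (0 : ℝ) ≤ n := Nat.cast_nonneg n
    have h6 : 0 ≤ n * (ε * LL P) := by positivity
    rw [hc] at h2
    nlinarith
  exact le_of_mul_le_mul_right h5 hL0

lemma odd_adm (t n : ℕ) (ht : 1 ≤ t) :
    ∃ A : Finset ℕ, A ⊆ Icc 1 n ∧ A.card = (n + 1) / 2 ∧ Adm t A := by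
  refine ⟨(Finset.range ((n + 1) / 2)).image (fun i => 2 * i + 1), ?_, ?_, ?_⟩
  · intro x hx
    rw [mem_image] at hx
    obtain ⟨i, hi, rfl⟩ := hx
    rw [mem_range] at hi
    rw [mem_Icc]
    omega
  · rw [Finset.card_image_of_injective _ (by intro a b hab; simp at hab; omega), card_range]
  · intro a ha b hb hab htab hdvd
    rw [mem_image] at ha hb
    obtain ⟨i, _, rfl⟩ := ha
    obtain ⟨j, _, rfl⟩ := hb
    have h2 : 2 ∣ (2 * j + 1 - (2 * i + 1)) := ⟨j - i, by omega⟩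
    have h3 : 2 ∣ 2 * j + 1 := h2.trans hdvd
    omega

theorem main (t : ℕ) (ht : 1 ≤ t) :
      Filter.Tendsto
        (fun n : ℕ =>
          ((sSup {k : ℕ | ∃ A : Finset ℕ, A ⊆ Finset.Icc 1 n ∧ A.card = k ∧
              ∀ a ∈ A, ∀ b ∈ A, a < b → t ≤ b - a → ¬ (b - a ∣ b)} : ℕ) : ℝ) / (n : ℝ))
        Filter.atTop (nhds (1 / 2 : ℝ)) := by
  rw [Metric.tendsto_atTop]
  intro ε hε
  obtain ⟨N, hN⟩ := eventually_upper t (half_pos hε)
  refine ⟨N + 1, fun n hn => ?_⟩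
  set S := {k : ℕ | ∃ A : Finset ℕ, A ⊆ Finset.Icc 1 n ∧ A.card = k ∧
              ∀ a ∈ A, ∀ b ∈ A, a < b → t ≤ b - a → ¬ (b - a ∣ b)} with hS
  have hbdd : BddAbove S := by
    refine ⟨n, ?_⟩
    rintro k ⟨A, hA, rfl, _⟩
    have := Finset.card_le_card hA
    simpa using this
  obtain ⟨A0, hA0, hA0c, hA0a⟩ := odd_adm t n ht
  have hne : S.Nonempty := ⟨_, A0, hA0, hA0c, hA0a⟩
  have hlow : (n + 1) / 2 ≤ sSup S := le_csSup hbdd ⟨A0, hA0, hA0c, hA0a⟩
  have hmem : sSup S ∈ S := Nat.sSup_mem hne hbdd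
  obtain ⟨A, hA, hAc, hAa⟩ := hmem
  have hup := hN n (by omega) A hA hAa
  rw [hAc] at hup
  have hn0 : (0 : ℝ) < n := by
    have : 0 < n := by omega
    exact_mod_cast this
  have hlow' : (n : ℝ) / 2 ≤ (sSup S : ℕ) := by
    have : n ≤ 2 * sSup S := by omega
    have : (n : ℝ) ≤ 2 * (sSup S : ℕ) := by exact_mod_cast this
    linarith
  rw [Real.dist_eq, abs_lt]
  constructor
  · have : (1 / 2 : ℝ) ≤ ((sSup S : ℕ) : ℝ) / n := by
      rw [le_div_iff₀ hn0]; linarith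
    linarith
  · have : ((sSup S : ℕ) : ℝ) / n ≤ 1 / 2 + ε / 2 := by
      rw [div_le_iff₀ hn0]; exact hup
    linarith

end Pool.Agent.Helper8.DiffDiv
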