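import Mathlib

/-! Core inequality for the linear speed-up of parallel random walks. -/

namespace Pool.Agent.Helper8.HitCore

open Finset

/-- telescoping power inequality -/
lemma tele (m T : ℕ) (s : ℕ → ℝ) (hs : ∀ t, 0 ≤ s t) :
    (∑ j ∈ range T, s j) ^ (m + 1) ≤
      ((m : ℝ) + 1) * ∑ t ∈ range T, s t * (∑ j ∈ range T, s (j + t)) ^ m := by
  -- induction from the front: generalise by shifting
  induction T generalizing s with
  | zero => simp
  | succ T ih =>
    have ih' := ih (fun j => s (j + 1)) (fun t => hs _)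
    -- a = s 0 + b, b = shifted sum
    set b := ∑ j ∈ range T, s (j + 1) with hb
    have hb0 : 0 ≤ b := Finset.sum_nonneg fun _ _ => hs _
    have hsum : ∑ j ∈ range (T + 1), s j = b + s 0 := by
      rw [Finset.sum_range_succ']
    rw [hsum]
    have h1 : (b + s 0) ^ (m + 1) ≤ b ^ (m + 1) + ((m : ℝ) + 1) * (s 0 * (b + s 0) ^ m) := by
      have hs0 := hs 0
      clear ih ih' hsum hb
      clear_value b
      induction m with
      | zero => simp
      | succ m ihm =>
        have h2 : (b + s 0) ^ (m + 1 + 1) = (b + s 0) * (b + s 0) ^ (m + 1) := by ring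
        have h3 : 0 ≤ b * b ^ (m + 1) := by positivity
        have h4 : b * (b + s 0) ^ (m + 1) ≤
            b * (b ^ (m + 1) + ((m : ℝ) + 1) * (s 0 * (b + s 0) ^ m)) :=
          mul_le_mul_of_nonneg_left ihm hb0
        have h5 : b * (((m : ℝ) + 1) * (s 0 * (b + s 0) ^ m)) ≤
            ((m : ℝ) + 1) * (s 0 * (b + s 0) ^ (m + 1)) := by
          have : b * (b + s 0) ^ m ≤ (b + s 0) ^ (m + 1) := by
            rw [pow_succ']
            apply mul_le_mul_of_nonneg_right _ (by positivity)
            linarith
          calc b * (((m : ℝ) + 1) * (s 0 * (b + s 0) ^ m))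
              = ((m : ℝ) + 1) * s 0 * (b * (b + s 0) ^ m) := by ring
            _ ≤ ((m : ℝ) + 1) * s 0 * (b + s 0) ^ (m + 1) := by
                apply mul_le_mul_of_nonneg_left this (by positivity)
            _ = _ := by ring
        push_cast
        have h6 : (b + s 0) ^ (m + 1 + 1) = b * (b + s 0) ^ (m + 1) + s 0 * (b + s 0) ^ (m + 1) := by
          ring
        have h7 : b ^ (m + 1 + 1) = b * b ^ (m + 1) := by ring
        rw [h6, h7]
        rw [mul_add] at h4
        linarith [h4, h5]
    rw [Finset.sum_range_succ' (fun t => s t * (∑ j ∈ range (T + 1), s (j + t)) ^ m)]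
    have h6 : ∑ t ∈ range T, s (t + 1) * (∑ j ∈ range T, s (j + t + 1)) ^ m ≤
        ∑ t ∈ range T, s (t + 1) * (∑ j ∈ range (T + 1), s (j + (t + 1))) ^ m := by
      apply Finset.sum_le_sum
      intro t _
      apply mul_le_mul_of_nonneg_left _ (hs _)
      apply pow_le_pow_left₀ (Finset.sum_nonneg fun _ _ => hs _)
      rw [Finset.sum_range_succ]
      have : ∑ j ∈ range T, s (j + t + 1) = ∑ j ∈ range T, s (j + (t + 1)) := by
        apply Finset.sum_congr rfl; intro j _; congr 1
      rw [this]
      linarith [hs (T + (t + 1))]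
    have h7 : s 0 * (b + s 0) ^ m = s 0 * (∑ j ∈ range (T + 1), s (j + 0)) ^ m := by
      simp only [add_zero]
      rw [hsum]
    have hm : (0 : ℝ) ≤ (m : ℝ) + 1 := by positivity
    have h8 := mul_le_mul_of_nonneg_left h6 hm
    rw [← h7]
    rw [mul_add]
    linarith

variable {V : Type*} [Fintype V] [DecidableEq V]

/-- survival probabilities for a kernel `K` -/
noncomputable def surv (K : V → V → ℝ) (v : V) : ℕ → V → ℝ
  | 0, u => if u = v then 0 else 1
  | t + 1, u => if u = v then 0 else ∑ w, K u w * surv K v t w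

/-- position distribution of the walk killed when leaving `v` -/
noncomputable def occ (K : V → V → ℝ) (v x : V) : ℕ → V → ℝ
  | 0, b => if b = x then 1 else 0
  | j + 1, b => ∑ a, (if a = v then 0 else occ K v x j a * K a b)

lemma surv_nonneg (K : V → V → ℝ) (hK : ∀ a b, 0 ≤ K a b) (v : V) (t : ℕ) (u : V) :
    0 ≤ surv K v t u := by
  induction t generalizing u with
  | zero => simp only [surv]; split_ifs <;> norm_num
  | succ t ih =>
    simp only [surv]
    split_ifs
    · exact le_rfl
    · exact Finset.sum_nonneg fun w _ => mul_nonneg (hK _ _) (ih w)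

lemma occ_nonneg (K : V → V → ℝ) (hK : ∀ a b, 0 ≤ K a b) (v x : V) (t : ℕ) (u : V) :
    0 ≤ occ K v x t u := by
  induction t generalizing u with
  | zero => simp only [occ]; split_ifs <;> norm_num
  | succ t ih =>
    simp only [occ]
    apply Finset.sum_nonneg
    intro a _
    split_ifs
    · exact le_rfl
    · exact mul_nonneg (ih a) (hK _ _)

lemma occ_surv (K : V → V → ℝ) (v x : V) (j t : ℕ) :
    ∑ b, occ K v x j b * surv K v t b = surv K v (j + t) x := by
  induction j generalizing t with
  | zero => simp [occ]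
  | succ j ih =>
    have h1 : ∑ b, occ K v x (j + 1) b * surv K v t b
        = ∑ a, occ K v x j a * surv K v (t + 1) a := by
      simp only [occ, Finset.sum_mul]
      rw [Finset.sum_comm]
      apply Finset.sum_congr rfl
      intro a _
      simp only [surv]
      split_ifs
      · simp
      · rw [Finset.mul_sum]
        apply Finset.sum_congr rfl
        intro b _
        ring
    rw [h1, ih]
    congr 1
    ring

lemma surv_zero_mul (K : V → V → ℝ) (v : V) (t : ℕ) (u : V) :
    surv K v 0 u * surv K v t u = surv K v t u := by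
  cases t with
  | zero => simp only [surv]; split_ifs <;> simp
  | succ t => simp only [surv]; split_ifs <;> simp

/-- finite-horizon inequality -/
theorem finite_horizon (K : V → V → ℝ) (hK : ∀ a b, 0 ≤ K a b) (v x : V) (m T : ℕ) (M : ℝ)
    (hM0 : 0 ≤ M)
    (hM : ∀ b : Fin m → V,
      ∑ t ∈ range T, surv K v t x * ∏ i, surv K v t (b i) ≤ M) :
    ∑ t ∈ range T, surv K v t x ≤ ((m : ℝ) + 1) * M := by
  set s : ℕ → ℝ := fun t => surv K v t x with hs
  have hs0 : ∀ t, 0 ≤ s t := fun t => surv_nonneg K hK v t x
  set h : ℝ := ∑ t ∈ range T, s t with hh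
  have hh0 : 0 ≤ h := Finset.sum_nonneg fun _ _ => hs0 _
  set G : V → ℝ := fun b => ∑ j ∈ range T, occ K v x j b * surv K v 0 b with hG
  have hG0 : ∀ b, 0 ≤ G b := fun b => Finset.sum_nonneg fun j _ =>
    mul_nonneg (occ_nonneg K hK v x j b) (surv_nonneg K hK v 0 b)
  have hGS : ∀ t, ∑ b, G b * surv K v t b = ∑ j ∈ range T, s (j + t) := by
    intro t
    simp only [hG, Finset.sum_mul]
    rw [Finset.sum_comm]
    apply Finset.sum_congr rfl
    intro j _
    rw [hs]
    simp only
    rw [← occ_surv K v x j t]
    apply Finset.sum_congr rfl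
    intro b _
    rw [mul_assoc, surv_zero_mul]
  have hG1 : ∑ b, G b = h := by
    have h0 := hGS 0
    have h1 : ∀ b, G b * surv K v 0 b = G b := by
      intro b
      simp only [hG, Finset.sum_mul]
      apply Finset.sum_congr rfl
      intro j _
      rw [mul_assoc, surv_zero_mul]
    simp only [h1, add_zero] at h0
    exact h0
  -- average
  have havg : ∑ b : Fin m → V, (∏ i, G (b i)) *
      (∑ t ∈ range T, s t * ∏ i, surv K v t (b i)) ≤ M * h ^ m := by
    have h1 : h ^ m = ∑ b : Fin m → V, ∏ i, G (b i) := by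
      rw [← hG1, Fintype.sum_pow]
    rw [h1, Finset.mul_sum]
    apply Finset.sum_le_sum
    intro b _
    rw [mul_comm M]
    exact mul_le_mul_of_nonneg_left (hM b) (Finset.prod_nonneg fun i _ => hG0 _)
  have hswap : ∑ b : Fin m → V, (∏ i, G (b i)) *
      (∑ t ∈ range T, s t * ∏ i, surv K v t (b i)) =
      ∑ t ∈ range T, s t * (∑ j ∈ range T, s (j + t)) ^ m := by
    simp only [Finset.mul_sum]
    rw [Finset.sum_comm]
    apply Finset.sum_congr rfl
    intro t _
    rw [← hGS t, Fintype.sum_pow, Finset.mul_sum]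
    apply Finset.sum_congr rfl
    intro b _
    rw [Finset.prod_mul_distrib]
    ring
  rw [hswap] at havg
  have htele := tele m T s hs0
  have hm : (0 : ℝ) ≤ (m : ℝ) + 1 := by positivity
  have h2 : h ^ (m + 1) ≤ ((m : ℝ) + 1) * (M * h ^ m) :=
    htele.trans (mul_le_mul_of_nonneg_left havg hm)
  rcases hh0.eq_or_lt with h0 | hpos
  · rw [← h0]; positivity
  · have hp : 0 < h ^ m := by positivity
    have h3 : h * h ^ m ≤ (((m : ℝ) + 1) * M) * h ^ m := by
      calc h * h ^ m = h ^ (m + 1) := by ring
        _ ≤ _ := h2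
        _ = _ := by ring
    exact le_of_mul_le_mul_right h3 hp

end Pool.Agent.Helper8.HitCore
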