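import Mathlib

set_option autoImplicit false

namespace Pool.Agent.Helper8.IndA

open Finset

def fe (e j a b : ℕ) : ℤ :=
  (if (a + e / 2 * b) % e = j % e then 1 else 0) -
  (if (a + e / 2 * b) % e = (j + e / 2) % e then 1 else 0)

theorem fe_even (m j a b : ℕ) (hb : b % 2 = 0) : fe (2 * m) j a b = fe (2 * m) j a 0 := by
  obtain ⟨c, rfl⟩ : ∃ c, b = 2 * c := ⟨b / 2, by omega⟩
  unfold fe
  have h1 : 2 * m / 2 = m := by omega
  have h2 : (a + 2 * m / 2 * (2 * c)) % (2 * m) = (a + 2 * m / 2 * 0) % (2 * m) := by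
    rw [h1]
    have : a + m * (2 * c) = a + 2 * m * c := by ring
    rw [this, Nat.add_mul_mod_self_left, Nat.mul_zero, Nat.add_zero]
  rw [h2]

theorem fe_odd (m j a b : ℕ) (hb : b % 2 = 1) : fe (2 * m) j a b = - fe (2 * m) j a 0 := by
  obtain ⟨c, rfl⟩ : ∃ c, b = 2 * c + 1 := ⟨b / 2, by omega⟩
  unfold fe
  have h1 : 2 * m / 2 = m := by omega
  have h2 : (a + 2 * m / 2 * (2 * c + 1)) % (2 * m) = (a + m) % (2 * m) := by
    rw [h1]
    have : a + m * (2 * c + 1) = (a + m) + 2 * m * c := by ring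
    rw [this, Nat.add_mul_mod_self_left]
  rw [h2, h1]
  have h3 : (a + m * 0) % (2 * m) = a % (2 * m) := by simp
  rw [h3]
  have h4 : ((a + m) % (2 * m) = (j + m) % (2 * m)) ↔ (a % (2 * m) = j % (2 * m)) := by
    constructor
    · intro h; exact Nat.ModEq.add_right_cancel' m h
    · intro h; exact Nat.ModEq.add_right m h
  have h5 : ((a + m) % (2 * m) = j % (2 * m)) ↔ (a % (2 * m) = (j + m) % (2 * m)) := by
    have e1 : (a + m + m) % (2 * m) = a % (2 * m) := by
      have : a + m + m = a + 2 * m := by ring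
      rw [this]; simp
    constructor
    · intro h
      have := Nat.ModEq.add_right m h
      unfold Nat.ModEq at this
      rw [e1] at this; exact this
    · intro h
      apply Nat.ModEq.add_right_cancel' m
      unfold Nat.ModEq
      rw [e1]; exact h
  simp only [h4, h5]
  ring

theorem fe_aeven (m j a b : ℕ) (ha : a % 2 = 0) (hj : j % 2 = 1) (hm : m % 2 = 0) :
    fe (2 * m) j a b = 0 := by
  unfold fe
  have h1 : 2 * m / 2 = m := by omega
  rw [h1]
  obtain ⟨q, rfl⟩ : ∃ q, m = 2 * q := ⟨m / 2, by omega⟩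
  have p1 : ∀ z : ℕ, (z % (2 * (2 * q))) % 2 = z % 2 := fun z =>
    Nat.mod_mod_of_dvd z ⟨2 * q, rfl⟩
  have p2 : (a + 2 * q * b) % 2 = 0 := by
    have : 2 * q * b = 2 * (q * b) := by ring
    rw [this]; omega
  rw [if_neg, if_neg]
  · simp
  · intro h
    have := congrArg (fun z => z % 2) h
    simp only [p1] at this
    omega
  · intro h
    have := congrArg (fun z => z % 2) h
    simp only [p1] at this
    omega

theorem sumind (r c : ℕ) : ∀ q : ℕ, ∑ i ∈ range q, (if r = 2 * i + 1 + c then (1 : ℤ) else 0)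
    = if (c ≤ r ∧ (r - c) % 2 = 1 ∧ r - c < 2 * q) then 1 else 0
  | 0 => by simp
  | q + 1 => by
      rw [sum_range_succ, sumind r c q]
      split_ifs <;> first | omega | rfl | (exfalso; omega)

def V (t a : ℕ) : ℤ := ∑ j ∈ range (2 ^ (t - 3)), fe (2 ^ t) (2 * j + 1) a 0

theorem V_eq (s a : ℕ) : V (s + 3) a =
    (if ((a % (8 * 2 ^ s)) % 2 = 1 ∧ a % (8 * 2 ^ s) < 2 * 2 ^ s) then 1 else 0) -
    (if (4 * 2 ^ s ≤ a % (8 * 2 ^ s) ∧ (a % (8 * 2 ^ s) - 4 * 2 ^ s) % 2 = 1 ∧
      a % (8 * 2 ^ s) - 4 * 2 ^ s < 2 * 2 ^ s) then 1 else 0) := by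
  unfold V fe
  have e1 : s + 3 - 3 = s := by omega
  have e2 : 2 ^ (s + 3) = 8 * 2 ^ s := by rw [pow_add]; ring
  rw [e1, e2]
  generalize 2 ^ s = q
  have e3 : 8 * q / 2 = 4 * q := by omega
  rw [e3, sum_sub_distrib]
  have h1 := sumind (a % (8 * q)) 0 q
  have h2 := sumind (a % (8 * q)) (4 * q) q
  have g1 : ∑ j ∈ range q, (if (a + 4 * q * 0) % (8 * q) = (2 * j + 1) % (8 * q) then (1 : ℤ) else 0)
      = ∑ i ∈ range q, (if a % (8 * q) = 2 * i + 1 + 0 then (1 : ℤ) else 0) := by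
    apply sum_congr rfl
    intro j hj
    rw [mem_range] at hj
    rw [Nat.mod_eq_of_lt (show 2 * j + 1 < 8 * q by omega)]
    simp
  have g2 : ∑ j ∈ range q, (if (a + 4 * q * 0) % (8 * q) = (2 * j + 1 + 4 * q) % (8 * q) then (1 : ℤ) else 0)
      = ∑ i ∈ range q, (if a % (8 * q) = 2 * i + 1 + 4 * q then (1 : ℤ) else 0) := by
    apply sum_congr rfl
    intro j hj
    rw [mem_range] at hj
    rw [Nat.mod_eq_of_lt (show 2 * j + 1 + 4 * q < 8 * q by omega)]
    simp
  rw [g1, g2, h1, h2]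
  simp

def W (n a : ℕ) : ℤ := fe 4 1 a 0 + 2 * ∑ t ∈ Ico 3 n, (2 : ℤ) ^ (t - 2) * V t a

theorem mod_half (a q : ℕ) (hq : 0 < q) : a % (4 * q) = if a % (8 * q) < 4 * q then a % (8 * q) else a % (8 * q) - 4 * q := by
  have h1 : a % (8 * q) % (4 * q) = a % (4 * q) := Nat.mod_mod_of_dvd a ⟨2, by ring⟩
  have h2 : a % (8 * q) < 8 * q := Nat.mod_lt _ (by omega)
  rw [← h1]
  generalize a % (8 * q) = r at *
  split_ifs with h
  · exact Nat.mod_eq_of_lt h
  · rw [Nat.mod_eq_sub_mod (by omega)]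
    exact Nat.mod_eq_of_lt (by omega)

theorem Wdiff : ∀ (s a a' : ℕ), a % 2 = 1 → a' % 2 = 1 → (a + a') % (4 * 2 ^ s) = 0 →
    W (s + 3) a - W (s + 3) a' = 2 * (2 * 2 ^ s - ((a % (4 * 2 ^ s) : ℕ) : ℤ))
  | 0, a, a', ha, ha', h => by
      unfold W fe
      simp only [pow_zero, mul_one] at h ⊢
      have h1 : a % 4 = 1 ∨ a % 4 = 3 := by omega
      rcases h1 with h1 | h1
      · have h2 : a' % 4 = 3 := by omega
        simp [h1, h2]
      · have h2 : a' % 4 = 1 := by omega
        simp [h1, h2]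
  | s + 1, a, a', ha, ha', h => by
      have hq : 0 < 2 ^ s := by positivity
      have e2 : 4 * 2 ^ (s + 1) = 8 * 2 ^ s := by rw [pow_succ]; ring
      have h0 : (a + a') % (4 * 2 ^ s) = 0 := by
        have : (a + a') % (8 * 2 ^ s) = 0 := by rw [← e2]; exact h
        have h3 : (4 * 2 ^ s) ∣ (8 * 2 ^ s) := ⟨2, by ring⟩
        exact Nat.mod_eq_zero_of_dvd (h3.trans (Nat.dvd_of_mod_eq_zero this))
      have ih := Wdiff s a a' ha ha' h0
      have r1 : ∀ a, W (s + 1 + 3) a = W (s + 3) a + 2 * ((2 : ℤ) ^ (s + 1) * V (s + 3) a) := by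
        intro a
        unfold W
        have : s + 1 + 3 = (s + 3) + 1 := by omega
        rw [this, sum_Ico_succ_top (by omega)]
        have : s + 3 - 2 = s + 1 := by omega
        rw [this]; ring
      rw [r1, r1]
      have hgoal : V (s + 3) a - V (s + 3) a' = if a % (8 * 2 ^ s) < 4 * 2 ^ s then 1 else -1 := by
        rw [V_eq, V_eq]
        rw [e2] at h
        have p1 : ∀ z : ℕ, (z % (8 * 2 ^ s)) % 2 = z % 2 := fun z =>
          Nat.mod_mod_of_dvd z ⟨4 * 2 ^ s, by ring⟩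
        have m1 := p1 a
        have m2 := p1 a'
        have l1 : a % (8 * 2 ^ s) < 8 * 2 ^ s := Nat.mod_lt _ (by omega)
        have l2 : a' % (8 * 2 ^ s) < 8 * 2 ^ s := Nat.mod_lt _ (by omega)
        have l3 : (a % (8 * 2 ^ s) + a' % (8 * 2 ^ s)) % (8 * 2 ^ s) = 0 := by
          rw [← Nat.add_mod]; exact h
        have l4 : a % (8 * 2 ^ s) + a' % (8 * 2 ^ s) = 8 * 2 ^ s := by
          generalize a % (8 * 2 ^ s) = r at *
          generalize a' % (8 * 2 ^ s) = r' at *
          obtain ⟨c, hc⟩ := Nat.dvd_of_mod_eq_zero l3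
          have hc1 : c = 1 := by
            rcases Nat.lt_trichotomy c 1 with h | h | h
            · have : c = 0 := by omega
              rw [this] at hc; omega
            · exact h
            · nlinarith
          rw [hc1] at hc; omega
        generalize a % (8 * 2 ^ s) = r at *
        generalize a' % (8 * 2 ^ s) = r' at *
        generalize 2 ^ s = q at *
        split_ifs <;> first | rfl | (exfalso; omega)
      have hmod := mod_half a (2 ^ s) hq
      have key : W (s + 3) a + 2 * ((2 : ℤ) ^ (s + 1) * V (s + 3) a) -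
          (W (s + 3) a' + 2 * ((2 : ℤ) ^ (s + 1) * V (s + 3) a'))
          = (W (s + 3) a - W (s + 3) a') + 2 * 2 ^ (s + 1) * (V (s + 3) a - V (s + 3) a') := by ring
      rw [key, ih, hgoal, e2, hmod]
      have l1 : a % (8 * 2 ^ s) < 8 * 2 ^ s := Nat.mod_lt _ (by omega)
      split_ifs with hlt
      · rw [pow_succ]; push_cast; ring
      · rw [pow_succ, Nat.cast_sub (by omega)]; push_cast; ring

end Pool.Agent.Helper8.IndA
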