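import Pool.Agent.Helper8.IndA

set_option autoImplicit false
set_option linter.unusedSectionVars false
set_option linter.unusedVariables false

namespace Pool.Agent.Helper8.IndA

open Finset

section setup

variable {p : ℕ} [hp : Fact p.Prime]

/-- index data -/
structure Ix (g : ZMod p) (I : ZMod p → ℕ) : Prop where
  pw : ∀ x : ZMod p, x ≠ 0 → g ^ I x = x
  lt : ∀ x : ZMod p, x ≠ 0 → I x < p - 1
  inj : ∀ a b : ℕ, g ^ a = g ^ b ↔ a ≡ b [MOD p - 1]
  g0 : g ≠ 0

theorem exists_Ix (g : ZMod p) (hg : orderOf g = p - 1) (hp1 : 1 < p - 1) : ∃ I, Ix g I := by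
  have hg0 : g ≠ 0 := by
    rintro rfl
    rw [orderOf_zero] at hg
    omega
  set u : (ZMod p)ˣ := Units.mk0 g hg0 with hu
  have huc : (u : ZMod p) = g := rfl
  have hou : orderOf u = p - 1 := by
    rw [← orderOf_units]; exact hg
  have hcard : Nat.card (ZMod p)ˣ = p - 1 := by
    rw [Nat.card_eq_fintype_card, ZMod.card_units]
  have htop : Subgroup.zpowers u = ⊤ := by
    apply Subgroup.eq_top_of_card_eq
    rw [Nat.card_zpowers, hou, hcard]
  have hinj : ∀ a b : ℕ, g ^ a = g ^ b ↔ a ≡ b [MOD p - 1] := by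
    intro a b
    rw [← hou, ← pow_eq_pow_iff_modEq]
    constructor
    · intro h; apply Units.ext; push_cast; exact h
    · intro h
      have := congrArg (fun (v : (ZMod p)ˣ) => (v : ZMod p)) h
      simp only [Units.val_pow_eq_pow_val, huc] at this
      exact this
  have hex : ∀ x : ZMod p, ∃ a : ℕ, x ≠ 0 → (g ^ a = x ∧ a < p - 1) := by
    intro x
    by_cases hx : x = 0
    · exact ⟨0, fun h => absurd hx h⟩
    · have h1 : Units.mk0 x hx ∈ Subgroup.zpowers u := by rw [htop]; trivial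
      rw [← mem_powers_iff_mem_zpowers] at h1
      obtain ⟨a, ha⟩ := h1
      have ha' : g ^ a = x := by
        have := congrArg (fun (v : (ZMod p)ˣ) => (v : ZMod p)) ha
        simp only [Units.val_pow_eq_pow_val, huc, Units.val_mk0] at this
        exact this
      refine ⟨a % (p - 1), fun _ => ⟨?_, Nat.mod_lt _ (by omega)⟩⟩
      rw [← ha', hinj]
      exact Nat.mod_modEq a (p - 1)
  choose I hI using hex
  exact ⟨I, fun x hx => (hI x hx).1, fun x hx => (hI x hx).2, hinj, hg0⟩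

variable {g : ZMod p} {I : ZMod p → ℕ} (H : Ix g I)

include H

theorem Imul (x y : ZMod p) (hx : x ≠ 0) (hy : y ≠ 0) : I (x * y) ≡ I x + I y [MOD p - 1] := by
  rw [← H.inj, pow_add, H.pw x hx, H.pw y hy, H.pw _ (mul_ne_zero hx hy)]

theorem Iinv (x : ZMod p) (hx : x ≠ 0) : I x⁻¹ + I x ≡ 0 [MOD p - 1] := by
  rw [← H.inj, pow_add, H.pw x hx, H.pw _ (inv_ne_zero hx), pow_zero, inv_mul_cancel₀ hx]

theorem Ineg (M4 : ℕ) (hM : p - 1 = 4 * M4) (hM4 : 0 < M4) : g ^ (2 * M4) = -1 := by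
  have h1 : (g ^ (2 * M4)) ^ 2 = 1 := by
    rw [← pow_mul]
    have : 2 * M4 * 2 = p - 1 := by omega
    rw [this, show (1 : ZMod p) = g ^ 0 from (pow_zero g).symm, H.inj]
    simp [Nat.ModEq]
  have h2 : g ^ (2 * M4) ≠ 1 := by
    intro h
    rw [show (1 : ZMod p) = g ^ 0 from (pow_zero g).symm, H.inj] at h
    have h3 := (Nat.modEq_zero_iff_dvd).1 h
    have := Nat.le_of_dvd (by omega) h3
    omega
  rcases (mul_self_eq_one_iff.1 (show g ^ (2 * M4) * g ^ (2 * M4) = 1 by rw [← sq]; exact h1)) with h | h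
  · exact absurd h h2
  · exact h

end setup

end Pool.Agent.Helper8.IndA
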