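import Pool.Agent.Helper8.IndB

set_option autoImplicit false
set_option linter.unusedSectionVars false
set_option linter.unusedVariables false

namespace Pool.Agent.Helper8.IndA

open Finset

section sets

variable {p : ℕ} [hp : Fact p.Prime] {g : ZMod p} {I : ZMod p → ℕ} (H : Ix g I)

def NR (I : ZMod p → ℕ) : Finset (ZMod p) := univ.filter (fun x => x ≠ 0 ∧ x ≠ 1 ∧ I x % 2 = 1)
def Om (I : ZMod p → ℕ) : Finset (ZMod p) :=
  univ.filter (fun x => x ≠ 0 ∧ x ≠ 1 ∧ I x % 2 = 1 ∧ I (1 - x) % 2 = 0)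
def Om' (I : ZMod p → ℕ) : Finset (ZMod p) :=
  univ.filter (fun x => x ≠ 0 ∧ x ≠ 1 ∧ I x % 2 = 1 ∧ I (1 - x) % 2 = 1)

theorem mem_Om (x : ZMod p) : x ∈ Om I ↔ x ≠ 0 ∧ x ≠ 1 ∧ I x % 2 = 1 ∧ I (1 - x) % 2 = 0 := by
  simp [Om]
theorem mem_Om' (x : ZMod p) : x ∈ Om' I ↔ x ≠ 0 ∧ x ≠ 1 ∧ I x % 2 = 1 ∧ I (1 - x) % 2 = 1 := by
  simp [Om']
theorem mem_NR (x : ZMod p) : x ∈ NR I ↔ x ≠ 0 ∧ x ≠ 1 ∧ I x % 2 = 1 := by
  simp [NR]

theorem NR_split {B : Type} [AddCommMonoid B] (f : ZMod p → B) :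
    ∑ x ∈ NR I, f x = ∑ x ∈ Om I, f x + ∑ x ∈ Om' I, f x := by
  classical
  rw [← Finset.sum_filter_add_sum_filter_not (NR I) (fun x => I (1 - x) % 2 = 0)]
  congr 1
  · apply Finset.sum_congr _ (fun _ _ => rfl)
    ext x; simp only [mem_filter, mem_NR, mem_Om]; tauto
  · apply Finset.sum_congr _ (fun _ _ => rfl)
    ext x; simp only [mem_filter, mem_NR, mem_Om']
    constructor
    · rintro ⟨⟨h1, h2, h3⟩, h4⟩; exact ⟨h1, h2, h3, by omega⟩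
    · rintro ⟨h1, h2, h3, h4⟩; exact ⟨⟨h1, h2, h3⟩, by omega⟩

include H

variable {M4 : ℕ} (hM : p - 1 = 4 * (2 * M4)) (hM4 : 0 < M4)
include hM hM4

theorem modN {a b : ℕ} (h : a ≡ b [MOD p - 1]) : a ≡ b [MOD 2] :=
  Nat.ModEq.of_dvd ⟨4 * M4, by omega⟩ h

theorem Ineg1 : I (-1) ≡ 4 * M4 [MOD p - 1] := by
  have h1 := Ineg H (2 * M4) hM (by omega)
  have h2 : (2 * (2 * M4)) = 4 * M4 := by ring
  rw [h2] at h1
  rw [← H.inj, h1, H.pw (-1) (by simp)]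

/-- index of `1 - x⁻¹` -/
theorem I_one_sub_inv (x : ZMod p) (h0 : x ≠ 0) (h1 : x ≠ 1) :
    I (1 - x⁻¹) + I x ≡ I (1 - x) + 4 * M4 [MOD p - 1] := by
  have hx1 : (1 : ZMod p) - x ≠ 0 := sub_ne_zero.2 (Ne.symm h1)
  have hx2 : (1 : ZMod p) - x⁻¹ ≠ 0 := by
    intro h
    apply h1
    have : x⁻¹ = 1 := (sub_eq_zero.1 h).symm
    exact inv_eq_one.1 this
  have e1 : (1 - x⁻¹) * x = (1 - x) * (-1) := by field_simp; ring
  have a1 := Imul H (1 - x⁻¹) x hx2 h0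
  have a2 := Imul H (1 - x) (-1) hx1 (by simp)
  rw [e1] at a1
  exact (a1.symm.trans a2).trans (Nat.ModEq.add_left _ (Ineg1 H hM hM4))

theorem inv_Om (x : ZMod p) (hx : x ∈ Om I) : x⁻¹ ∈ Om' I := by
  rw [mem_Om] at hx
  obtain ⟨h1, h2, h3, h4⟩ := hx
  rw [mem_Om']
  have a1 := modN H hM hM4 (Iinv H x h1)
  have a2 := modN H hM hM4 (I_one_sub_inv H hM hM4 x h1 h2)
  unfold Nat.ModEq at a1 a2
  refine ⟨inv_ne_zero h1, fun h => h2 (inv_eq_one.1 h), by omega, by omega⟩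

theorem inv_Om' (x : ZMod p) (hx : x ∈ Om' I) : x⁻¹ ∈ Om I := by
  rw [mem_Om'] at hx
  obtain ⟨h1, h2, h3, h4⟩ := hx
  rw [mem_Om]
  have a1 := modN H hM hM4 (Iinv H x h1)
  have a2 := modN H hM hM4 (I_one_sub_inv H hM hM4 x h1 h2)
  unfold Nat.ModEq at a1 a2
  refine ⟨inv_ne_zero h1, fun h => h2 (inv_eq_one.1 h), by omega, by omega⟩

theorem Om'_sum {B : Type} [AddCommMonoid B] (f : ZMod p → B) :
    ∑ x ∈ Om' I, f x = ∑ x ∈ Om I, f x⁻¹ := by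
  apply Finset.sum_nbij' (fun x => x⁻¹) (fun x => x⁻¹)
  · exact fun x hx => inv_Om' H hM hM4 x hx
  · exact fun x hx => inv_Om H hM hM4 x hx
  · intro x _; simp
  · intro x _; simp
  · intro x _; simp

theorem NR_sum {B : Type} [AddCommMonoid B] (f : ZMod p → B) :
    ∑ x ∈ NR I, f x = ∑ x ∈ Om I, (f x + f x⁻¹) := by
  rw [NR_split, Om'_sum H hM hM4, sum_add_distrib]

/-- the involution x ↦ x/(x-1) on Om -/
theorem I_tw (x : ZMod p) (h0 : x ≠ 0) (h1 : x ≠ 1) :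
    (I (x / (x - 1)) + I (1 - x) ≡ I x + 4 * M4 [MOD p - 1]) ∧
    (I (1 - x / (x - 1)) + I (1 - x) ≡ 0 [MOD p - 1]) := by
  have hx1 : (1 : ZMod p) - x ≠ 0 := sub_ne_zero.2 (Ne.symm h1)
  have hx2 : x - 1 ≠ 0 := sub_ne_zero.2 h1
  have e1 : (x / (x - 1)) * (1 - x) = x * (-1) := by
    have : (1 - x) = (x - 1) * (-1) := by ring
    rw [this, ← mul_assoc, div_mul_cancel₀ _ hx2]
  have e2 : (1 - x / (x - 1)) = (1 - x)⁻¹ := by
    have h3 : (1 - x / (x - 1)) * (1 - x) = 1 := by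
      rw [sub_mul, e1]; ring
    exact eq_inv_of_mul_eq_one_left h3
  constructor
  · have a1 := Imul H (x / (x - 1)) (1 - x) (div_ne_zero h0 hx2) hx1
    have a2 := Imul H x (-1) h0 (by simp)
    rw [e1] at a1
    exact (a1.symm.trans a2).trans (Nat.ModEq.add_left _ (Ineg1 H hM hM4))
  · rw [e2]; exact Iinv H (1 - x) hx1

theorem tw_Om (x : ZMod p) (hx : x ∈ Om I) : x / (x - 1) ∈ Om I := by
  rw [mem_Om] at hx
  obtain ⟨h1, h2, h3, h4⟩ := hx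
  rw [mem_Om]
  have hx2 : x - 1 ≠ 0 := sub_ne_zero.2 h2
  obtain ⟨a1, a2⟩ := I_tw H hM hM4 x h1 h2
  have b1 := modN H hM hM4 a1
  have b2 := modN H hM hM4 a2
  unfold Nat.ModEq at b1 b2
  refine ⟨div_ne_zero h1 hx2, ?_, by omega, by omega⟩
  intro h
  rw [div_eq_one_iff_eq hx2] at h
  have : (1 : ZMod p) = 0 := by linear_combination h
  exact one_ne_zero this

theorem tw_sum {B : Type} [AddCommMonoid B] (f : ZMod p → B) :
    ∑ x ∈ Om I, f x = ∑ x ∈ Om I, f (x / (x - 1)) := by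
  have hinv : ∀ x ∈ Om I, (x / (x - 1)) / (x / (x - 1) - 1) = x := by
    intro x hx
    rw [mem_Om] at hx
    have hx2 : x - 1 ≠ 0 := sub_ne_zero.2 hx.2.1
    have : x / (x - 1) - 1 = 1 / (x - 1) := by field_simp; ring
    rw [this]; field_simp
  apply Finset.sum_nbij' (fun x => x / (x - 1)) (fun x => x / (x - 1))
  · exact fun x hx => tw_Om H hM hM4 x hx
  · exact fun x hx => tw_Om H hM hM4 x hx
  · exact hinv
  · exact hinv
  · intro x hx; rw [hinv x hx]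

/-- twice the sum of the indices of `1-x` over `Om` vanishes -/
theorem sum_one_sub : ((p - 1 : ℕ) : ℤ) ∣ 2 * ∑ x ∈ Om I, (I (1 - x) : ℤ) := by
  have h1 := tw_sum H hM hM4 (fun x => (I (1 - x) : ℤ))
  have h2 : 2 * ∑ x ∈ Om I, (I (1 - x) : ℤ) =
      ∑ x ∈ Om I, ((I (1 - x / (x - 1)) + I (1 - x) : ℕ) : ℤ) := by
    push_cast
    rw [sum_add_distrib, ← h1]; ring
  rw [h2]
  apply Finset.dvd_sum
  intro x hx
  rw [mem_Om] at hx
  have h3 := (I_tw H hM hM4 x hx.1 hx.2.1).2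
  exact_mod_cast (Nat.modEq_zero_iff_dvd).1 h3

end sets

end Pool.Agent.Helper8.IndA
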