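import Pool.Agent.Helper8.IndC

set_option autoImplicit false
set_option linter.unusedSectionVars false
set_option linter.unusedVariables false

namespace Pool.Agent.Helper8.IndA

open Finset

section sets

variable {p : ℕ} [hp : Fact p.Prime] {g : ZMod p} {I : ZMod p → ℕ} (H : Ix g I)
include H
variable {M4 : ℕ} (hM : p - 1 = 4 * (2 * M4)) (hM4 : 0 < M4)
include hM hM4

theorem gpow_ne (a : ℕ) : g ^ a ≠ 0 := pow_ne_zero a H.g0

theorem I_gpow (a : ℕ) (ha : a < p - 1) : I (g ^ a) = a := by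
  have h0 := gpow_ne H hM hM4 a
  have h1 := H.pw _ h0
  rw [H.inj] at h1
  exact Nat.ModEq.eq_of_lt_of_lt h1 (H.lt _ h0) ha

theorem NR_range {B : Type} [AddCommMonoid B] (f : ℕ → B) :
    ∑ x ∈ NR I, f (I x) = ∑ a ∈ (range (p - 1)).filter (fun a => a % 2 = 1), f a := by
  apply Finset.sum_nbij' (fun x => I x) (fun a => g ^ a)
  · intro x hx
    rw [mem_NR] at hx
    simp only [mem_filter, mem_range]
    exact ⟨H.lt x hx.1, hx.2.2⟩
  · intro a ha
    simp only [mem_filter, mem_range] at ha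
    rw [mem_NR]
    refine ⟨gpow_ne H hM hM4 a, ?_, ?_⟩
    · intro h
      rw [show (1 : ZMod p) = g ^ 0 from (pow_zero g).symm, H.inj] at h
      have := modN H hM hM4 h
      unfold Nat.ModEq at this
      omega
    · rw [I_gpow H hM hM4 a ha.1]; exact ha.2
  · intro x hx
    rw [mem_NR] at hx
    exact H.pw x hx.1
  · intro a ha
    simp only [mem_filter, mem_range] at ha
    exact I_gpow H hM hM4 a ha.1
  · intro x hx; rfl

theorem prim : IsPrimitiveRoot g (p - 1) := by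
  constructor
  · rw [show (1 : ZMod p) = g ^ 0 from (pow_zero g).symm, H.inj]
    simp [Nat.ModEq]
  · intro l hl
    rw [show (1 : ZMod p) = g ^ 0 from (pow_zero g).symm, H.inj] at hl
    exact (Nat.modEq_zero_iff_dvd).1 hl

theorem neg_one_ne : (-1 : ZMod p) ≠ 1 := by
  intro h
  have h1 := Ineg H (2 * M4) hM (by omega)
  rw [h, show (1 : ZMod p) = g ^ 0 from (pow_zero g).symm, H.inj] at h1
  have h3 := (Nat.modEq_zero_iff_dvd).1 h1
  have := Nat.le_of_dvd (by omega) h3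
  omega

theorem prodNR : ∏ z ∈ NR I, (1 - z) = 2 := by
  classical
  have hh := Ineg H (2 * M4) hM (by omega)
  have hprim : IsPrimitiveRoot (g ^ 2) (2 * (2 * M4)) :=
    (prim H hM hM4).pow (by omega) (by omega)
  have h1 := hprim.pow_sub_pow_eq_prod_sub_mul (1 : ZMod p) g (by omega)
  rw [one_pow, hh] at h1
  have h2 : (1 : ZMod p) - -1 = 2 := by ring
  rw [h2] at h1
  rw [h1]
  symm
  have hg0 := H.g0
  apply Finset.prod_nbij' (fun z => z * g) (fun z => z * g⁻¹)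
  · intro z hz
    rw [Polynomial.mem_nthRootsFinset (by omega)] at hz
    have hz0 : z ≠ 0 := by
      rintro rfl
      rw [zero_pow (by omega)] at hz
      exact zero_ne_one hz
    have hy : (z * g) ^ (2 * (2 * M4)) = -1 := by rw [mul_pow, hz, hh, one_mul]
    have hy0 : z * g ≠ 0 := mul_ne_zero hz0 hg0
    rw [mem_NR]
    refine ⟨hy0, ?_, ?_⟩
    · intro h
      rw [h, one_pow] at hy
      exact neg_one_ne H hM hM4 hy.symm
    · by_contra hcon
      obtain ⟨c, hc⟩ : ∃ c, I (z * g) = 2 * c := ⟨I (z * g) / 2, by omega⟩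
      have h5 := H.pw _ hy0
      rw [hc] at h5
      rw [← h5, ← pow_mul] at hy
      have h6 : g ^ (2 * c * (2 * (2 * M4))) = 1 := by
        rw [show (1 : ZMod p) = g ^ 0 from (pow_zero g).symm, H.inj]
        rw [Nat.modEq_zero_iff_dvd, hM]
        exact ⟨c, by ring⟩
      rw [h6] at hy
      exact neg_one_ne H hM hM4 hy.symm
  · intro z hz
    rw [mem_NR] at hz
    rw [Polynomial.mem_nthRootsFinset (by omega)]
    obtain ⟨c, hc⟩ : ∃ c, I z = 2 * c + 1 := ⟨I z / 2, by omega⟩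
    have h5 := H.pw _ hz.1
    rw [hc] at h5
    have h7 : z * g⁻¹ = g ^ (2 * c) := by
      rw [← h5, pow_succ, mul_assoc, mul_inv_cancel₀ hg0, mul_one]
    rw [h7, ← pow_mul, show (1 : ZMod p) = g ^ 0 from (pow_zero g).symm, H.inj]
    rw [Nat.modEq_zero_iff_dvd, hM]
    exact ⟨c, by ring⟩
  · intro z _
    rw [mul_assoc, mul_inv_cancel₀ hg0, mul_one]
  · intro z _
    rw [mul_assoc, inv_mul_cancel₀ hg0, mul_one]
  · intro z _; rfl

theorem sumNR (k : ℕ) (hk : g ^ k = 2) : ∑ z ∈ NR I, I (1 - z) ≡ k [MOD p - 1] := by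
  rw [← H.inj, hk, ← prodNR H hM hM4, ← Finset.prod_pow_eq_pow_sum]
  apply Finset.prod_congr rfl
  intro z hz
  rw [mem_NR] at hz
  exact H.pw _ (sub_ne_zero.2 (Ne.symm hz.2.1))

theorem card_Om : (Om I).card = 2 * M4 := by
  have h1 := NR_sum H hM hM4 (fun _ => (1 : ℕ))
  have h2 := NR_range H hM hM4 (fun _ => (1 : ℕ))
  rw [h1] at h2
  simp only [sum_const, smul_eq_mul] at h2
  have h3 : ∀ m : ℕ, ((range (2 * m)).filter (fun a => a % 2 = 1)).card = m := by
    intro m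
    induction m with
    | zero => simp
    | succ m ih =>
        have : 2 * (m + 1) = 2 * m + 1 + 1 := by ring
        rw [this, range_add_one, range_add_one, filter_insert, filter_insert]
        rw [if_pos (by omega), if_neg (by omega), card_insert_of_notMem (by simp), ih]
  have h4 : p - 1 = 2 * (4 * M4) := by omega
  rw [h4, h3] at h2
  omega

theorem X_mod (k : ℕ) (hk : g ^ k = 2) : ((p - 1 : ℕ) : ℤ) ∣ ∑ x ∈ Om I, (I x : ℤ) + k := by
  have h1 := sumNR H hM hM4 k hk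
  have h2 : ((p - 1 : ℕ) : ℤ) ∣ (k : ℤ) - ∑ z ∈ NR I, (I (1 - z) : ℤ) := by
    have := (Nat.modEq_iff_dvd).1 h1
    push_cast at this
    exact_mod_cast this
  have h3 : ∑ z ∈ NR I, (I (1 - z) : ℤ) = ∑ x ∈ Om I, ((I (1 - x) : ℤ) + (I (1 - x⁻¹) : ℤ)) :=
    NR_sum H hM hM4 (fun z => (I (1 - z) : ℤ))
  have h4 : ((p - 1 : ℕ) : ℤ) ∣ ∑ x ∈ Om I, (((I (1 - x) : ℤ) + 4 * M4) - (I (1 - x⁻¹) + I x)) := by
    apply Finset.dvd_sum
    intro x hx
    rw [mem_Om] at hx
    have h5 := I_one_sub_inv H hM hM4 x hx.1 hx.2.1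
    have := (Nat.modEq_iff_dvd).1 h5
    push_cast at this ⊢
    exact this
  have h5 := sum_one_sub H hM hM4
  have h6 : ((p - 1 : ℕ) : ℤ) ∣ ∑ x ∈ Om I, ((4 * M4 : ℕ) : ℤ) := by
    rw [sum_const, card_Om H hM hM4, nsmul_eq_mul, hM]
    push_cast
    exact ⟨M4, by ring⟩
  have key : ∑ x ∈ Om I, (I x : ℤ) + k =
      ((k : ℤ) - ∑ z ∈ NR I, (I (1 - z) : ℤ)) + 2 * ∑ x ∈ Om I, (I (1 - x) : ℤ)
      + ∑ x ∈ Om I, ((4 * M4 : ℕ) : ℤ)
      - ∑ x ∈ Om I, (((I (1 - x) : ℤ) + 4 * M4) - (I (1 - x⁻¹) + I x)) := by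
    rw [h3, sum_sub_distrib, sum_add_distrib, sum_add_distrib, sum_add_distrib]
    push_cast
    ring
  rw [key]
  exact Dvd.dvd.sub (Dvd.dvd.add (Dvd.dvd.add h2 h5) h6) h4

end sets

section count

def ph (T a : ℕ) : ℕ := if a % 2 = 1 ∧ (a / 2) % 2 ≠ (a / T) % 2 then 1 else 0

theorem ph_per (q : ℕ) (hq : 0 < q) (c a : ℕ) : ph (4 * q) (2 * (4 * q) * c + a) = ph (4 * q) a := by
  unfold ph
  have h1 : (2 * (4 * q) * c + a) / (4 * q) = 2 * c + a / (4 * q) := by
    have : 2 * (4 * q) * c + a = 4 * q * (2 * c) + a := by ring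
    rw [this, Nat.mul_add_div (by omega)]
  have h2 : (2 * (4 * q) * c + a) / 2 = 2 * (2 * q * c) + a / 2 := by
    have : 2 * (4 * q) * c + a = 2 * (2 * (2 * q * c)) + a := by ring
    rw [this, Nat.mul_add_div (by omega)]
  have h3 : (2 * (4 * q) * c + a) % 2 = a % 2 := by
    have : 2 * (4 * q) * c + a = 2 * (4 * q * c) + a := by ring
    rw [this]; omega
  rw [h1, h2, h3]
  have h4 : (2 * (2 * q * c) + a / 2) % 2 = (a / 2) % 2 := by omega
  have h5 : (2 * c + a / (4 * q)) % 2 = (a / (4 * q)) % 2 := by omega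
  rw [h4, h5]

theorem sum_odd : ∀ m : ℕ, ∑ i ∈ range (2 * m), (if i % 2 = 1 then (1 : ℕ) else 0) = m
  | 0 => by simp
  | m + 1 => by
      have : 2 * (m + 1) = 2 * m + 1 + 1 := by ring
      rw [this, sum_range_succ, sum_range_succ, sum_odd m, if_neg (by omega), if_pos (by omega)]

theorem ph_block (q : ℕ) (hq : 0 < q) : ∑ i ∈ range (2 * (4 * q)), ph (4 * q) i = 2 * q := by
  have h0 : 2 * (4 * q) = 4 * q + 4 * q := by ring
  rw [h0, sum_range_add, ← sum_add_distrib]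
  have h1 : ∀ i ∈ range (4 * q), ph (4 * q) i + ph (4 * q) (4 * q + i) =
      (if i % 2 = 1 then (1 : ℕ) else 0) := by
    intro i hi
    rw [mem_range] at hi
    unfold ph
    have e1 : i / (4 * q) = 0 := Nat.div_eq_of_lt hi
    have e2 : (4 * q + i) / (4 * q) = 1 := by
      rw [Nat.add_div_left _ (by omega), e1]
    rw [e1, e2]
    split_ifs <;> omega
  rw [sum_congr rfl h1]
  have : 4 * q = 2 * (2 * q) := by ring
  rw [this, sum_odd]

theorem ph_total (q : ℕ) (hq : 0 < q) : ∀ M : ℕ,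
    ∑ i ∈ range (2 * (4 * q) * M), ph (4 * q) i = 2 * q * M
  | 0 => by simp
  | M + 1 => by
      rw [Nat.mul_succ, sum_range_add, ph_total q hq M]
      simp only [ph_per q hq M]
      rw [ph_block q hq]; ring

theorem ph_neg (q : ℕ) (hq : 0 < q) (M a a' : ℕ) (ha : a % 2 = 1) (h : a' + a = 2 * (4 * q) * M) :
    ph (4 * q) a' = ph (4 * q) a := by
  have hr := Nat.div_add_mod a (4 * q)
  have hlt : a % (4 * q) < 4 * q := Nat.mod_lt _ (by omega)
  have hodd : (a % (4 * q)) % 2 = 1 := by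
    rw [Nat.mod_mod_of_dvd a ⟨2 * q, by ring⟩]; exact ha
  set q1 := a / (4 * q) with hq1
  set r := a % (4 * q) with hr'
  have h1 : q1 < 2 * M := by
    by_contra hcon
    push Not at hcon
    have : 4 * q * (2 * M) ≤ 4 * q * q1 := Nat.mul_le_mul_left _ hcon
    have e : 2 * (4 * q) * M = 4 * q * (2 * M) := by ring
    omega
  obtain ⟨c, hc⟩ : ∃ c, 2 * M = q1 + 1 + c := ⟨2 * M - (q1 + 1), by omega⟩
  have h2 : a' = 4 * q * c + (4 * q - r) := by
    have e : 2 * (4 * q) * M = 4 * q * (2 * M) := by ring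
    rw [e, hc] at h
    have e2 : 4 * q * (q1 + 1 + c) = 4 * q * q1 + 4 * q + 4 * q * c := by ring
    omega
  have h3 : a' / (4 * q) = c := by
    rw [h2, Nat.mul_add_div (by omega), Nat.div_eq_of_lt (by omega)]; omega
  have h4 : a' % 2 = 1 := by
    have e : 2 * (4 * q) * M = 2 * (4 * q * M) := by ring
    omega
  have h5 : (a' / 2) % 2 ≠ (a / 2) % 2 := by
    have e : 2 * (4 * q) * M = 4 * (2 * q * M) := by ring
    omega
  unfold ph
  rw [h3]
  split_ifs <;> omega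

theorem ph_cong (K a : ℕ) (hK : 0 < K) (ha : a % 2 = 1) :
    ((8 * K : ℕ) : ℤ) ∣ (2 * K - ((a % (4 * K) : ℕ) : ℤ)) - ((2 * K - 1) * a + 4 * K * ph (4 * K) a) := by
  have hr := Nat.div_add_mod a (4 * K)
  set q1 := a / (4 * K) with hq1
  set r := a % (4 * K) with hr'
  have h1 : (4 : ℤ) ∣ (a : ℤ) - 1 - 2 * q1 + 2 * ph (4 * K) a := by
    unfold ph
    rw [← hq1]
    split_ifs with h <;> omega
  obtain ⟨c, hc⟩ := h1
  refine ⟨-c, ?_⟩
  have hr2 : (a : ℤ) = 4 * K * q1 + r := by exact_mod_cast hr.symm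
  push_cast
  have : (r : ℤ) = a - 4 * K * q1 := by linarith
  rw [this]
  linear_combination (-2 * (K : ℤ)) * hc

end count

end Pool.Agent.Helper8.IndA
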