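import Pool.Agent.Helper8.IndD

set_option autoImplicit false
set_option linter.unusedSectionVars false
set_option linter.unusedVariables false

namespace Pool.Agent.Helper8.IndA

open Finset

def full (n a b : ℕ) : ℤ := fe 4 1 a b + 2 * ∑ t ∈ Ico 3 n, (2 : ℤ) ^ (t - 2) *
  ∑ j ∈ range (2 ^ (t - 3)), fe (2 ^ t) (2 * j + 1) a b

theorem two_pow_split (t : ℕ) (ht : 3 ≤ t) : 2 ^ t = 2 * (2 * (2 * 2 ^ (t - 3))) := by
  obtain ⟨s, rfl⟩ : ∃ s, t = s + 3 := ⟨t - 3, by omega⟩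
  have : s + 3 - 3 = s := by omega
  rw [this, pow_add]; ring

theorem full_even (n a b : ℕ) (hb : b % 2 = 0) : full n a b = W n a := by
  unfold full W V
  congr 1
  · exact fe_even 2 1 a b hb
  · congr 1
    apply sum_congr rfl
    intro t ht
    rw [mem_Ico] at ht
    congr 1
    apply sum_congr rfl
    intro j _
    rw [two_pow_split t ht.1]
    exact fe_even _ _ _ _ hb

theorem full_odd (n a b : ℕ) (hb : b % 2 = 1) : full n a b = - W n a := by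
  unfold full W V
  rw [neg_add]
  congr 1
  · exact fe_odd 2 1 a b hb
  · rw [← mul_neg, ← sum_neg_distrib]
    congr 1
    apply sum_congr rfl
    intro t ht
    rw [mem_Ico] at ht
    rw [← mul_neg, ← sum_neg_distrib]
    congr 1
    apply sum_congr rfl
    intro j _
    rw [two_pow_split t ht.1]
    exact fe_odd _ _ _ _ hb

theorem full_zero (n a b : ℕ) (ha : a % 2 = 0) : full n a b = 0 := by
  unfold full
  have h1 : fe 4 1 a b = 0 := fe_aeven 2 1 a b ha (by norm_num) (by norm_num)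
  rw [h1, zero_add]
  have h2 : ∑ t ∈ Ico 3 n, (2 : ℤ) ^ (t - 2) *
      ∑ j ∈ range (2 ^ (t - 3)), fe (2 ^ t) (2 * j + 1) a b = 0 := by
    apply sum_eq_zero
    intro t ht
    rw [mem_Ico] at ht
    have : ∑ j ∈ range (2 ^ (t - 3)), fe (2 ^ t) (2 * j + 1) a b = 0 := by
      apply sum_eq_zero
      intro j _
      rw [two_pow_split t ht.1]
      exact fe_aeven _ _ a b ha (by omega) (by omega)
    rw [this, mul_zero]
  rw [h2, mul_zero]

variable {p : ℕ} [hp : Fact p.Prime] {g : ZMod p} {I : ZMod p → ℕ} (H : Ix g I)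
include H

theorem ncard_eq (e c : ℕ) (he : e ∣ p - 1) :
    (Set.ncard {x : ZMod p | x ≠ 0 ∧ x ≠ 1 ∧
          ∃ a b : ℕ, g ^ a = x ∧ g ^ b = 1 - x ∧
            (a + e / 2 * b) % e = c % e} : ℤ)
    = ∑ x ∈ univ.filter (fun x : ZMod p => x ≠ 0 ∧ x ≠ 1),
      (if (I x + e / 2 * I (1 - x)) % e = c % e then (1 : ℤ) else 0) := by
  classical
  have hset : {x : ZMod p | x ≠ 0 ∧ x ≠ 1 ∧
          ∃ a b : ℕ, g ^ a = x ∧ g ^ b = 1 - x ∧
            (a + e / 2 * b) % e = c % e} =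
      ((univ.filter (fun x : ZMod p => x ≠ 0 ∧ x ≠ 1)).filter
        (fun x => (I x + e / 2 * I (1 - x)) % e = c % e) : Finset (ZMod p)) := by
    ext x
    simp only [Set.mem_ofPred_eq, coe_filter, mem_filter, mem_univ, true_and]
    constructor
    · rintro ⟨h1, h2, a, b, h3, h4, h5⟩
      refine ⟨⟨h1, h2⟩, ?_⟩
      have k1 : a ≡ I x [MOD e] := by
        apply Nat.ModEq.of_dvd he
        rw [← H.inj, H.pw x h1, h3]
      have k2 : b ≡ I (1 - x) [MOD e] := by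
        apply Nat.ModEq.of_dvd he
        rw [← H.inj, H.pw _ (sub_ne_zero.2 (Ne.symm h2)), h4]
      have k3 : a + e / 2 * b ≡ I x + e / 2 * I (1 - x) [MOD e] :=
        Nat.ModEq.add k1 (Nat.ModEq.mul_left _ k2)
      rw [← h5]; exact k3.symm
    · rintro ⟨⟨h1, h2⟩, h3⟩
      exact ⟨h1, h2, I x, I (1 - x), H.pw x h1, H.pw _ (sub_ne_zero.2 (Ne.symm h2)), h3⟩
  rw [hset, Set.ncard_coe_finset, Finset.card_filter]
  push_cast
  rfl

theorem final (s k M : ℕ) (hs : 1 ≤ s) (hM0 : 0 < M) (hM : p - 1 = 8 * 2 ^ s * M)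
    (D : ℕ → ℕ → ℤ)
    (hD : ∀ e j : ℕ, D e j =
      (Set.ncard {x : ZMod p | x ≠ 0 ∧ x ≠ 1 ∧
          ∃ a b : ℕ, g ^ a = x ∧ g ^ b = 1 - x ∧
            (a + e / 2 * b) % e = j % e} : ℤ)
      - (Set.ncard {x : ZMod p | x ≠ 0 ∧ x ≠ 1 ∧
          ∃ a b : ℕ, g ^ a = x ∧ g ^ b = 1 - x ∧
            (a + e / 2 * b) % e = (j + e / 2) % e} : ℤ))
    (hk : g ^ k = 2) :
    (2 ^ (s + 3 + 1) : ℤ) ∣ D 4 1
      + 2 * ∑ t ∈ Finset.Ico 3 (s + 3), (2 : ℤ) ^ (t - 2) *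
          ∑ j ∈ Finset.range (2 ^ (t - 3)), D (2 ^ t) (2 * j + 1)
      - 2 * ((2 : ℤ) ^ (s + 3 - 2) + 1) * (k : ℤ) := by
  classical
  have hK : 0 < 2 ^ s := by positivity
  have hM' : p - 1 = 4 * (2 * (2 ^ s * M)) := by rw [hM]; ring
  have hM4 : 0 < 2 ^ s * M := Nat.mul_pos hK hM0
  have hDe : ∀ e j : ℕ, e ∣ p - 1 → D e j = ∑ x ∈ univ.filter (fun x : ZMod p => x ≠ 0 ∧ x ≠ 1),
      fe e j (I x) (I (1 - x)) := by
    intro e j he
    rw [hD, ncard_eq H e j he, ncard_eq H e (j + e / 2) he, ← sum_sub_distrib]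
    rfl
  have hL : D 4 1 + 2 * ∑ t ∈ Finset.Ico 3 (s + 3), (2 : ℤ) ^ (t - 2) *
          ∑ j ∈ Finset.range (2 ^ (t - 3)), D (2 ^ t) (2 * j + 1)
      = ∑ x ∈ univ.filter (fun x : ZMod p => x ≠ 0 ∧ x ≠ 1), full (s + 3) (I x) (I (1 - x)) := by
    unfold full
    rw [sum_add_distrib, ← mul_sum, sum_comm]
    congr 1
    · exact hDe 4 1 ⟨2 * (2 ^ s * M), hM'⟩
    · congr 1
      apply sum_congr rfl
      intro t ht
      rw [mem_Ico] at ht
      rw [← mul_sum]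
      congr 1
      rw [sum_comm]
      apply sum_congr rfl
      intro j _
      apply hDe
      rw [hM]
      have h1 : 2 ^ t ∣ 2 ^ (s + 3) := pow_dvd_pow 2 (by omega)
      have h2 : 2 ^ (s + 3) = 8 * 2 ^ s := by rw [pow_add]; ring
      rw [h2] at h1
      exact Dvd.dvd.mul_right h1 M
  have hL2 : ∑ x ∈ univ.filter (fun x : ZMod p => x ≠ 0 ∧ x ≠ 1), full (s + 3) (I x) (I (1 - x))
      = ∑ x ∈ NR I, full (s + 3) (I x) (I (1 - x)) := by
    symm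
    apply Finset.sum_subset
    · intro x hx
      rw [mem_NR] at hx
      simp only [mem_filter, mem_univ, true_and]
      exact ⟨hx.1, hx.2.1⟩
    · intro x hx hx2
      simp only [mem_filter, mem_univ, true_and] at hx
      rw [mem_NR] at hx2
      apply full_zero
      by_contra hcon
      exact hx2 ⟨hx.1, hx.2, by omega⟩
  have hodd : ∀ x ∈ Om I, I x % 2 = 1 ∧ I x⁻¹ % 2 = 1 ∧ I x⁻¹ + I x = p - 1 := by
    intro x hx
    have hx1 := hx
    rw [mem_Om] at hx1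
    have hx2 := inv_Om H hM' hM4 x hx
    rw [mem_Om'] at hx2
    refine ⟨hx1.2.2.1, hx2.2.2.1, ?_⟩
    have h1 := Iinv H x hx1.1
    have h2 := H.lt x hx1.1
    have h3 := H.lt _ (inv_ne_zero hx1.1)
    obtain ⟨c, hc⟩ := (Nat.modEq_zero_iff_dvd).1 h1
    have hc1 : c = 1 := by
      rcases Nat.lt_trichotomy c 1 with h | h | h
      · have : c = 0 := by omega
        rw [this] at hc; omega
      · exact h
      · have : (p - 1) * 2 ≤ (p - 1) * c := Nat.mul_le_mul_left _ h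
        omega
    rw [hc, hc1, mul_one]
  have hL3 : ∑ x ∈ NR I, full (s + 3) (I x) (I (1 - x)) =
      ∑ x ∈ Om I, 2 * (2 * 2 ^ s - ((I x % (4 * 2 ^ s) : ℕ) : ℤ)) := by
    rw [NR_sum H hM' hM4]
    apply sum_congr rfl
    intro x hx
    have h1 := hodd x hx
    have hx1 := hx
    rw [mem_Om] at hx1
    have hx2 := inv_Om H hM' hM4 x hx
    rw [mem_Om'] at hx2
    rw [full_even _ _ _ hx1.2.2.2, full_odd _ _ _ hx2.2.2.2, ← sub_eq_add_neg]
    apply Wdiff s _ _ h1.1 h1.2.1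
    have h3 : I x + I x⁻¹ = 4 * 2 ^ s * (2 * M) := by
      rw [add_comm, h1.2.2, hM]; ring
    rw [h3]; simp
  have hph : ∑ x ∈ Om I, ph (4 * 2 ^ s) (I x) = 2 ^ s * M := by
    have h1 := NR_sum H hM' hM4 (fun x => ph (4 * 2 ^ s) (I x))
    have h2 := NR_range H hM' hM4 (fun a => ph (4 * 2 ^ s) a)
    rw [h1] at h2
    have h3 : ∑ x ∈ Om I, (ph (4 * 2 ^ s) (I x) + ph (4 * 2 ^ s) (I x⁻¹)) =
        2 * ∑ x ∈ Om I, ph (4 * 2 ^ s) (I x) := by
      rw [mul_sum]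
      apply sum_congr rfl
      intro x hx
      have h4 := hodd x hx
      rw [ph_neg (2 ^ s) hK M (I x) (I x⁻¹) h4.1 (by rw [h4.2.2, hM]; ring)]
      ring
    have h5 : ∑ a ∈ (range (p - 1)).filter (fun a => a % 2 = 1), ph (4 * 2 ^ s) a
        = 2 * 2 ^ s * M := by
      rw [← ph_total (2 ^ s) hK M]
      have h6 : p - 1 = 2 * (4 * 2 ^ s) * M := by rw [hM]; ring
      rw [h6]
      apply Finset.sum_subset (Finset.filter_subset _ _)
      intro a ha hna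
      unfold ph
      rw [if_neg]
      rintro ⟨h7, _⟩
      exact hna (mem_filter.2 ⟨ha, h7⟩)
    rw [h3, h5] at h2
    have : 2 * 2 ^ s * M = 2 * (2 ^ s * M) := by ring
    omega
  have hX := X_mod H hM' hM4 k hk
  have hcard := card_Om H hM' hM4
  have hc : ((8 * 2 ^ s : ℕ) : ℤ) ∣ ∑ x ∈ Om I, ((2 * ((2 ^ s : ℕ) : ℤ) - ((I x % (4 * 2 ^ s) : ℕ) : ℤ))
      - ((2 * ((2 ^ s : ℕ) : ℤ) - 1) * (I x : ℤ) + 4 * ((2 ^ s : ℕ) : ℤ) * (ph (4 * 2 ^ s) (I x) : ℤ))) := by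
    apply Finset.dvd_sum
    intro x hx
    exact ph_cong (2 ^ s) (I x) hK (hodd x hx).1
  -- parity of k
  have hkeven : (2 : ℤ) ∣ k := by
    have h1 : (2 : ℤ) ∣ ∑ x ∈ Om I, (I x : ℤ) + k :=
      dvd_trans ⟨((4 * (2 ^ s * M) : ℕ) : ℤ), by rw [hM']; push_cast; ring⟩ hX
    have h2 : (2 : ℤ) ∣ ∑ x ∈ Om I, ((I x : ℤ) - 1) := by
      apply Finset.dvd_sum
      intro x hx
      have := (hodd x hx).1
      omega
    rw [sum_sub_distrib, sum_const, hcard, nsmul_eq_mul] at h2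
    push_cast at h2
    have h3 : (2 : ℤ) ∣ 2 * (2 ^ s * (M : ℤ)) * 1 := ⟨2 ^ s * M, by ring⟩
    have h4 := (Dvd.dvd.sub h1 (Dvd.dvd.add h2 h3))
    have e : ∑ x ∈ Om I, (I x : ℤ) + (k : ℤ) -
      (∑ x ∈ Om I, (I x : ℤ) - 2 * (2 ^ s * (M : ℤ)) * 1 + 2 * (2 ^ s * (M : ℤ)) * 1) = k := by ring
    rwa [e] at h4
  obtain ⟨k', hk'⟩ := hkeven
  obtain ⟨y, hy⟩ := hX
  obtain ⟨z, hz⟩ := hc
  rw [sum_sub_distrib, sum_add_distrib, ← mul_sum, ← mul_sum] at hz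
  have hph' : ∑ x ∈ Om I, (ph (4 * 2 ^ s) (I x) : ℤ) = 2 ^ s * M := by exact_mod_cast hph
  rw [hph'] at hz
  rw [hL, hL2, hL3, ← mul_sum]
  obtain ⟨s', rfl⟩ : ∃ s', s = s' + 1 := ⟨s - 1, by omega⟩
  have e1 : s' + 1 + 3 - 2 = s' + 1 + 1 := by omega
  rw [e1]
  rw [hM] at hy
  push_cast at hy hz ⊢
  generalize ∑ x ∈ Om I, (2 * (2 : ℤ) ^ (s' + 1) - (I x : ℤ) % (4 * 2 ^ (s' + 1))) = S at *
  generalize ∑ x ∈ Om I, (I x : ℤ) = X at *
  have hX' : X = 8 * 2 ^ (s' + 1) * (M : ℤ) * y - k := by linarith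
  have hS' : S = 8 * 2 ^ (s' + 1) * z + ((2 * 2 ^ (s' + 1) - 1) * X + 4 * 2 ^ (s' + 1) * (2 ^ (s' + 1) * M)) := by
    linarith
  rw [hS', hX', hk']
  refine ⟨z + (2 * 2 ^ (s' + 1) - 1) * M * y + 2 ^ s' * M - k', ?_⟩
  ring

end Pool.Agent.Helper8.IndA
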