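import Mathlib

namespace Pool.Agent.Helper8.LGroupAut

/-- Levels. -/
inductive Idx (J : Type) : Type
  | b1 : Idx J
  | b2 : Idx J
  | t : J → Idx J

/-- The poset: a well ordered chain `W` at the bottom, and one copy of `G` for each level. -/
inductive Om (G J W : Type) : Type
  | m : W → Om G J W
  | x : Idx J → G → Om G J W

section

variable {G J W : Type} [Group G] [Lattice G] [MulLeftMono G] [MulRightMono G]
  [LinearOrder W] (c : J → G) (ρ : Idx J → W)

/-- Relation between points of the copies. -/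
def xle (i : Idx J) (g : G) (i' : Idx J) (h : G) : Prop :=
  (i = i' ∧ g ≤ h) ∨ ∃ j : J, i' = Idx.t j ∧ ((i = Idx.b1 ∧ g ≤ h) ∨ (i = Idx.b2 ∧ g * c j ≤ h))

/-- The order of `Om`. -/
def ole : Om G J W → Om G J W → Prop
  | .m w, .m w' => w ≤ w'
  | .m w, .x i _ => w ≤ ρ i
  | .x _ _, .m _ => False
  | .x i g, .x i' h => xle c i g i' h

/-- The order of `Om` as a partial order. -/
@[reducible] def omOrder (hρ1 : ∀ j, ρ Idx.b1 ≤ ρ (Idx.t j)) (hρ2 : ∀ j, ρ Idx.b2 ≤ ρ (Idx.t j)) :
    PartialOrder (Om G J W) where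
  le := ole c ρ
  le_refl a := by
    cases a with
    | m w => exact le_refl w
    | x i g => exact Or.inl ⟨rfl, le_refl g⟩
  le_trans a b d hab hbd := by
    cases a with
    | m w =>
      cases b with
      | m w' =>
        cases d with
        | m w'' => exact le_trans (a := w) hab hbd
        | x i g => exact le_trans (a := w) hab hbd
      | x i g =>
        cases d with
        | m w'' => exact absurd hbd (fun h => h)
        | x i' g' =>
          rcases hbd with ⟨rfl, _⟩ | ⟨j, rfl, ⟨rfl, _⟩ | ⟨rfl, _⟩⟩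
          · exact hab
          · exact le_trans (a := w) hab (hρ1 j)
          · exact le_trans (a := w) hab (hρ2 j)
    | x i g =>
      cases b with
      | m w' => exact absurd hab (fun h => h)
      | x i' g' =>
        cases d with
        | m w'' => exact absurd hbd (fun h => h)
        | x i'' g'' =>
          rcases hab with ⟨rfl, h1⟩ | ⟨j, rfl, h1⟩
          · rcases hbd with ⟨rfl, h2⟩ | ⟨j, rfl, ⟨rfl, h2⟩ | ⟨rfl, h2⟩⟩
            · exact Or.inl ⟨rfl, h1.trans h2⟩
            · exact Or.inr ⟨j, rfl, Or.inl ⟨rfl, h1.trans h2⟩⟩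
            · exact Or.inr ⟨j, rfl, Or.inr ⟨rfl, (mul_le_mul_left h1 _).trans h2⟩⟩
          · rcases hbd with ⟨rfl, h2⟩ | ⟨j', rfl, ⟨h3, _⟩ | ⟨h3, _⟩⟩
            · rcases h1 with ⟨rfl, h1⟩ | ⟨rfl, h1⟩
              · exact Or.inr ⟨j, rfl, Or.inl ⟨rfl, h1.trans h2⟩⟩
              · exact Or.inr ⟨j, rfl, Or.inr ⟨rfl, h1.trans h2⟩⟩
            · exact absurd h3 (by simp)
            · exact absurd h3 (by simp)
  le_antisymm a b hab hba := by
    cases a with
    | m w =>
      cases b with
      | m w' => exact congrArg _ (le_antisymm (a := w) hab hba)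
      | x i g => exact absurd hba (fun h => h)
    | x i g =>
      cases b with
      | m w' => exact absurd hab (fun h => h)
      | x i' g' =>
        rcases hab with ⟨rfl, h1⟩ | ⟨j, rfl, h1⟩
        · rcases hba with ⟨_, h2⟩ | ⟨j, h3, ⟨h4, _⟩ | ⟨h4, _⟩⟩
          · rw [le_antisymm h1 h2]
          · rw [h4] at h3
            exact absurd h3 (by simp)
          · rw [h4] at h3
            exact absurd h3 (by simp)
        · rcases hba with ⟨h3, h2⟩ | ⟨j, h3, ⟨h4, _⟩ | ⟨h4, _⟩⟩
          · rcases h1 with ⟨h4, _⟩ | ⟨h4, _⟩ <;> rw [h4] at h3 <;> exact absurd h3 (by simp)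
          · exact absurd h4 (by simp)
          · exact absurd h4 (by simp)

/-- Left translation on `Om`. -/
def tr (a : G) : Om G J W → Om G J W
  | .m w => .m w
  | .x i g => .x i (a * g)

theorem tr_tr (a b : G) (y : Om G J W) : tr a (tr b y) = tr (a * b) y := by
  cases y with
  | m w => rfl
  | x i g => exact congrArg _ (mul_assoc a b g).symm

theorem tr_one (y : Om G J W) : tr (1 : G) y = y := by
  cases y with
  | m w => rfl
  | x i g => exact congrArg _ (one_mul g)

theorem tr_le (a : G) (y z : Om G J W) (h : ole c ρ y z) : ole c ρ (tr a y) (tr a z) := by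
  cases y with
  | m w =>
    cases z with
    | m w' => exact h
    | x i g => exact h
  | x i g =>
    cases z with
    | m w' => exact h
    | x i' g' =>
      rcases h with ⟨h1, h2⟩ | ⟨j, h1, ⟨h2, h3⟩ | ⟨h2, h3⟩⟩
      · exact Or.inl ⟨h1, mul_le_mul_right h2 a⟩
      · exact Or.inr ⟨j, h1, Or.inl ⟨h2, mul_le_mul_right h3 a⟩⟩
      · refine Or.inr ⟨j, h1, Or.inr ⟨h2, ?_⟩⟩
        rw [mul_assoc]
        exact mul_le_mul_right h3 a

end

theorem acc_map {Ω : Type} [PartialOrder Ω] (f : Ω ≃o Ω) (y : Ω)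
    (h : Acc (· < ·) y) : Acc (· < ·) (f y) := by
  induction h with
  | intro y _ ih =>
    refine Acc.intro _ ?_
    intro z hz
    have h1 : f.symm z < y := by
      rw [← f.lt_iff_lt, f.apply_symm_apply]
      exact hz
    have h2 := ih _ h1
    rwa [f.apply_symm_apply] at h2

theorem acc_map_iff {Ω : Type} [PartialOrder Ω] (f : Ω ≃o Ω) (y : Ω) :
    Acc (· < ·) (f y) ↔ Acc (· < ·) y := by
  constructor
  · intro h
    have := acc_map f.symm _ h
    rwa [f.symm_apply_apply] at this
  · exact acc_map f y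

theorem main_nontrivial (G J W : Type) [Group G] [Lattice G] [MulLeftMono G] [MulRightMono G]
    [LinearOrder W] [WellFoundedLT W] (c : J → G) (hc : Function.Surjective c) (ρ : Idx J → W)
    (hρ : Function.Injective ρ)
    (hρ1 : ∀ j, ρ Idx.b1 ≤ ρ (Idx.t j)) (hρ2 : ∀ j, ρ Idx.b2 ≤ ρ (Idx.t j))
    (hG : ∃ y : G, 1 < y) :
    ∃ (Ω : Type) (_ : PartialOrder Ω) (φ : G → (Ω ≃o Ω)),
        Function.Bijective φ ∧
        (∀ a b : G, φ (a * b) = (φ b).trans (φ a)) ∧
        (∀ a b : G, a ≤ b ↔ ∀ x : Ω, φ a x ≤ φ b x) := by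
  let inst : PartialOrder (Om G J W) := omOrder c ρ hρ1 hρ2
  have hle : ∀ y z : Om G J W, y ≤ z ↔ ole c ρ y z := fun _ _ => Iff.rfl
  let φ : G → (Om G J W ≃o Om G J W) := fun a =>
    { toFun := tr a
      invFun := tr a⁻¹
      left_inv := fun y => by rw [tr_tr, inv_mul_cancel, tr_one]
      right_inv := fun y => by rw [tr_tr, mul_inv_cancel, tr_one]
      map_rel_iff' := by
        intro y z
        constructor
        · intro h
          have := tr_le c ρ a⁻¹ _ _ h
          rw [Equiv.coe_fn_mk, tr_tr, tr_tr, inv_mul_cancel, tr_one, tr_one] at this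
          exact this
        · intro h
          exact tr_le c ρ a _ _ h }
  have hφ : ∀ a y, φ a y = tr a y := fun _ _ => rfl
  have i0 : Idx J := Idx.b1
  -- accessible elements
  have hacc1 : ∀ w : W, Acc (· < ·) (Om.m w : Om G J W) := by
    intro w
    induction w using WellFoundedLT.induction with
    | ind w ih =>
      refine Acc.intro _ ?_
      intro z hz
      cases z with
      | m w' =>
        refine ih w' ?_
        rw [lt_iff_le_not_ge] at hz ⊢
        exact hz
      | x i g => exact absurd hz.le (fun h => h)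
  obtain ⟨y0, hy0⟩ := hG
  have hacc2 : ∀ (z : Om G J W), Acc (· < ·) z → ∀ i g, z ≠ Om.x i g := by
    intro z hz
    induction hz with
    | intro z _ ih =>
      rintro i g rfl
      refine ih (Om.x i (g * y0⁻¹)) ?_ i (g * y0⁻¹) rfl
      have h1 : g * y0⁻¹ < g := by
        have := mul_lt_mul_right (inv_lt_one'.mpr hy0) g
        rwa [mul_one] at this
      rw [lt_iff_le_not_ge]
      refine ⟨Or.inl ⟨rfl, h1.le⟩, ?_⟩
      intro h
      rcases h with ⟨_, h⟩ | ⟨j, h2, ⟨h3, _⟩ | ⟨h3, _⟩⟩
      · exact absurd h (not_le_of_gt h1)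
      · rw [h3] at h2
        exact absurd h2 (by simp)
      · rw [h3] at h2
        exact absurd h2 (by simp)
  -- an automorphism preserves the two parts
  have hm : ∀ (f : Om G J W ≃o Om G J W) (w : W), ∃ w', f (Om.m w) = Om.m w' := by
    intro f w
    have h1 := (acc_map_iff f (Om.m w)).mpr (hacc1 w)
    cases h2 : f (Om.m w) with
    | m w' => exact ⟨w', rfl⟩
    | x i g => exact absurd h2 (hacc2 _ h1 i g)
  have hge : ∀ (f : Om G J W ≃o Om G J W) (w w' : W), f (Om.m w) = Om.m w' → w ≤ w' := by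
    intro f
    choose F hF using hm f
    have hmono : StrictMono F := by
      intro a b hab
      have h1 : (Om.m a : Om G J W) < Om.m b := by
        rw [lt_iff_le_not_ge] at hab ⊢
        exact hab
      have h2 := f.lt_iff_lt.mpr h1
      rw [hF, hF] at h2
      rw [lt_iff_le_not_ge] at h2 ⊢
      exact h2
    intro w w' h
    rw [hF] at h
    have h3 : F w = w' := by injection h
    rw [← h3]
    exact hmono.le_apply
  have hfix : ∀ (f : Om G J W ≃o Om G J W) (w : W), f (Om.m w) = Om.m w := by
    intro f w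
    obtain ⟨w', hw'⟩ := hm f w
    have h1 := hge f w w' hw'
    have h2 : f.symm (Om.m w') = Om.m w := by rw [← hw', f.symm_apply_apply]
    have h3 := hge f.symm w' w h2
    rw [hw', le_antisymm h3 h1]
  have hx : ∀ (f : Om G J W ≃o Om G J W) (i : Idx J) (g : G), ∃ g', f (Om.x i g) = Om.x i g' := by
    intro f i g
    cases h2 : f (Om.x i g) with
    | m w' =>
      exfalso
      have h3 : Acc (· < ·) (f (Om.x i g)) := by rw [h2]; exact hacc1 w'
      exact hacc2 _ ((acc_map_iff f _).mp h3) i g rfl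
    | x i' g' =>
      have h3 : ∀ w : W, w ≤ ρ i ↔ w ≤ ρ i' := by
        intro w
        have h4 := f.le_iff_le (x := Om.m w) (y := Om.x i g)
        rw [hfix, h2] at h4
        exact h4.symm
      have h5 : ρ i = ρ i' := le_antisymm ((h3 _).mp le_rfl) ((h3 _).mpr le_rfl)
      have h6 := hρ h5
      subst h6
      exact ⟨g', rfl⟩
  refine ⟨Om G J W, inst, φ, ⟨?_, ?_⟩, ?_, ?_⟩
  · intro a b hab
    have h1 : φ a (Om.x Idx.b1 1) = φ b (Om.x Idx.b1 1) := by rw [hab]
    rw [hφ, hφ] at h1
    have h2 : a * 1 = b * 1 := by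
      simp only [tr] at h1
      injection h1
    rwa [mul_one, mul_one] at h2
  · intro f
    choose F hF using hx f
    choose F' hF' using hx f.symm
    have hFF' : ∀ i g, F i (F' i g) = g := by
      intro i g
      have h1 : f (f.symm (Om.x i g)) = Om.x i g := f.apply_symm_apply _
      rw [hF', hF] at h1
      injection h1
    have hbt1 : ∀ j g, F (Idx.t j) g = F Idx.b1 g := by
      intro j g
      have key : ∀ g h, g ≤ h ↔ F Idx.b1 g ≤ F (Idx.t j) h := by
        intro g h
        have h4 := f.le_iff_le (x := Om.x Idx.b1 g) (y := Om.x (Idx.t j) h)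
        rw [hF, hF, hle, hle] at h4
        simp only [ole, xle] at h4
        simp at h4
        exact h4.symm
      apply le_antisymm
      · have h5 := (key g (F' (Idx.t j) (F Idx.b1 g))).mpr (by rw [hFF'])
        have h6 := f.le_iff_le (x := Om.x (Idx.t j) g)
          (y := Om.x (Idx.t j) (F' (Idx.t j) (F Idx.b1 g)))
        rw [hF, hF, hle, hle, hFF'] at h6
        rcases h6.mpr (Or.inl ⟨rfl, h5⟩) with ⟨_, h7⟩ | ⟨_, _, ⟨h8, _⟩ | ⟨h8, _⟩⟩
        · exact h7
        · exact absurd h8 (by simp)
        · exact absurd h8 (by simp)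
      · exact (key g g).mp le_rfl
    have hbt2 : ∀ j g, F (Idx.t j) (g * c j) = F Idx.b2 g * c j := by
      intro j g
      have key : ∀ g h, g * c j ≤ h ↔ F Idx.b2 g * c j ≤ F (Idx.t j) h := by
        intro g h
        have h4 := f.le_iff_le (x := Om.x Idx.b2 g) (y := Om.x (Idx.t j) h)
        rw [hF, hF, hle, hle] at h4
        simp only [ole, xle] at h4
        simp at h4
        exact h4.symm
      apply le_antisymm
      · have h5 := (key g (F' (Idx.t j) (F Idx.b2 g * c j))).mpr (by rw [hFF'])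
        have h6 := f.le_iff_le (x := Om.x (Idx.t j) (g * c j))
          (y := Om.x (Idx.t j) (F' (Idx.t j) (F Idx.b2 g * c j)))
        rw [hF, hF, hle, hle, hFF'] at h6
        rcases h6.mpr (Or.inl ⟨rfl, h5⟩) with ⟨_, h7⟩ | ⟨_, _, ⟨h8, _⟩ | ⟨h8, _⟩⟩
        · exact h7
        · exact absurd h8 (by simp)
        · exact absurd h8 (by simp)
      · exact (key g _).mp le_rfl
    have hb12 : ∀ g, F Idx.b2 g = F Idx.b1 g := by
      intro g
      obtain ⟨j, hj⟩ := hc 1
      have h1 := hbt2 j g
      rw [hj, mul_one, mul_one, hbt1] at h1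
      exact h1.symm
    have hmul : ∀ g a, F Idx.b1 (g * a) = F Idx.b1 g * a := by
      intro g a
      obtain ⟨j, rfl⟩ := hc a
      have h1 := hbt2 j g
      rw [hbt1, hb12] at h1
      exact h1
    have hF1 : ∀ i g, F i g = F Idx.b1 1 * g := by
      intro i g
      have h1 : F Idx.b1 g = F Idx.b1 1 * g := by
        have := hmul 1 g
        rwa [one_mul] at this
      cases i with
      | b1 => exact h1
      | b2 => rw [hb12, h1]
      | t j => rw [hbt1, h1]
    refine ⟨F Idx.b1 1, ?_⟩
    apply OrderIso.ext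
    funext y
    show tr (F Idx.b1 1) y = f y
    cases y with
    | m w => rw [hfix]; rfl
    | x i g => rw [hF, hF1 i g]; rfl
  · intro a b
    apply OrderIso.ext
    funext y
    exact (tr_tr a b y).symm
  · intro a b
    constructor
    · intro h y
      cases y with
      | m w => exact le_rfl
      | x i g => exact Or.inl ⟨rfl, mul_le_mul_left h g⟩
    · intro h
      have h1 := h (Om.x Idx.b1 1)
      rcases h1 with ⟨_, h7⟩ | ⟨_, h8, _⟩
      · rwa [mul_one, mul_one] at h7
      · exact absurd h8 (by simp)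

/-- Rank function to a well ordered type. -/
def rk {J : Type} : Idx J → WithBot (WithBot J)
  | .b1 => ⊥
  | .b2 => ((⊥ : WithBot J) : WithBot (WithBot J))
  | .t j => ((j : WithBot J) : WithBot (WithBot J))

theorem rk_injective {J : Type} : Function.Injective (rk (J := J)) := by
  intro a b hab
  cases a <;> cases b <;> simp [rk] at hab ⊢
  exact hab

theorem main_nontrivial' (G J : Type) [Group G] [Lattice G] [MulLeftMono G] [MulRightMono G]
    [LinearOrder J] [WellFoundedLT J] (c : J → G) (hc : Function.Surjective c)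
    (hG : ∃ y : G, 1 < y) :
    ∃ (Ω : Type) (_ : PartialOrder Ω) (φ : G → (Ω ≃o Ω)),
        Function.Bijective φ ∧
        (∀ a b : G, φ (a * b) = (φ b).trans (φ a)) ∧
        (∀ a b : G, a ≤ b ↔ ∀ x : Ω, φ a x ≤ φ b x) :=
  main_nontrivial G J (WithBot (WithBot J)) c hc rk rk_injective (fun _ => bot_le)
      (fun j => by
        show (((⊥ : WithBot J) : WithBot (WithBot J))) ≤ ((j : WithBot J) : WithBot (WithBot J))
        exact WithBot.coe_le_coe.mpr bot_le) hG

/-- A copy of a type, without any structure. -/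
structure Wr (G : Type) : Type where
  /-- the underlying element -/
  v : G

theorem main (G : Type) [Group G] [Lattice G] [MulLeftMono G] [MulRightMono G] :
    ∃ (Ω : Type) (_ : PartialOrder Ω) (φ : G → (Ω ≃o Ω)),
        Function.Bijective φ ∧
        (∀ a b : G, φ (a * b) = (φ b).trans (φ a)) ∧
        (∀ a b : G, a ≤ b ↔ ∀ x : Ω, φ a x ≤ φ b x) := by
  by_cases hG : ∃ y : G, 1 < y
  · obtain ⟨o, ho⟩ := exists_wellFoundedLT (Wr G)
    exact main_nontrivial' G (Wr G) Wr.v (fun g => ⟨⟨g⟩, rfl⟩) hG
  · have hsub : ∀ z : G, z = 1 := by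
      intro z
      by_contra hz
      apply hG
      by_cases h : z ⊔ 1 = 1
      · have h1 : z ≤ 1 := by rw [← h]; exact le_sup_left
        have h2 : z < 1 := lt_of_le_of_ne h1 hz
        exact ⟨z⁻¹, one_lt_inv'.mpr h2⟩
      · exact ⟨z ⊔ 1, lt_of_le_of_ne le_sup_right (Ne.symm h)⟩
    refine ⟨PUnit, inferInstance, fun _ => OrderIso.refl _, ⟨?_, ?_⟩, ?_, ?_⟩
    · intro a b _
      rw [hsub a, hsub b]
    · intro f
      exact ⟨1, OrderIso.ext (funext fun _ => rfl)⟩
    · intro a b
      rfl
    · intro a b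
      rw [hsub a, hsub b]
      simp

end Pool.Agent.Helper8.LGroupAut
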