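import Mathlib
import Pool.Agent.Helper8.CarPos

set_option autoImplicit false

namespace Pool.Agent.Helper8.NonNilRad

/-- `IsProd S n x`: `x` is a product of `n` elements of `S`, for some arrangement of parentheses. -/
inductive IsProd {A : Type*} [Mul A] (S : Set A) : ℕ → A → Prop
  | base {x : A} : x ∈ S → IsProd S 1 x
  | mul {m n : ℕ} {x y : A} : IsProd S m x → IsProd S n y → IsProd S (m + n) (x * y)

/-- There is `n ≥ 1` such that every product of `n` elements of `S` vanishes, for every arrangement of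
parentheses. (For a subalgebra `S` this says that `S` is nilpotent.) -/
def IsNilpotentSet {A : Type*} [NonUnitalNonAssocRing A] (S : Set A) : Prop :=
  ∃ n : ℕ, 1 ≤ n ∧ ∀ x : A, IsProd S n x → x = 0

section
variable (K : Type*) {A : Type*} [Field K] [NonUnitalNonAssocRing A] [Module K A]

/-- A `K`-submodule is a two-sided ideal. -/
def IsAlgIdeal (I : Submodule K A) : Prop :=
  ∀ a : A, ∀ x ∈ I, a * x ∈ I ∧ x * a ∈ I

/-- Every finitely generated subalgebra of (the algebra) `I` is nilpotent. -/
def IsLocallyNilpotent [IsScalarTower K A A] [SMulCommClass K A A] (I : Submodule K A) : Prop :=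
  ∀ F : Finset A, (∀ x ∈ F, x ∈ I) →
    IsNilpotentSet ((NonUnitalAlgebra.adjoin K (F : Set A) : NonUnitalSubalgebra K A) : Set A)

/-- `L` is the locally nilpotent radical: the largest locally nilpotent ideal. -/
def IsLocNilRadical [IsScalarTower K A A] [SMulCommClass K A A] (L : Submodule K A) : Prop :=
  IsAlgIdeal K L ∧ IsLocallyNilpotent K L ∧
    ∀ I : Submodule K A, IsAlgIdeal K I → IsLocallyNilpotent K I → I ≤ L

/-- The ascending chain condition on two-sided ideals. -/
def WeaklyNoetherian (A : Type*) [NonUnitalNonAssocRing A] [Module K A] : Prop :=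
  ∀ f : ℕ → Submodule K A, (∀ n, IsAlgIdeal K (f n)) → (∀ n, f n ≤ f (n + 1)) →
    ∃ N, ∀ n, N ≤ n → f n = f N

/-- `A` is weakly Noetherian and its locally nilpotent radical is not nilpotent. -/
def BadRadical (A : Type*) [NonUnitalNonAssocRing A] [Module K A] [IsScalarTower K A A]
    [SMulCommClass K A A] : Prop :=
  WeaklyNoetherian K A ∧
    ∃ L : Submodule K A, IsLocNilRadical K L ∧ ¬ IsNilpotentSet (L : Set A)

end

def IsAssociative (A : Type*) [Mul A] : Prop := ∀ a b c : A, (a * b) * c = a * (b * c)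

def IsAlternative (A : Type*) [Mul A] : Prop :=
  (∀ a b : A, (a * a) * b = a * (a * b)) ∧ (∀ a b : A, (b * a) * a = b * (a * a))

def IsJordanAlgebra (A : Type*) [Mul A] : Prop :=
  (∀ a b : A, a * b = b * a) ∧ (∀ a b : A, (a * b) * (a * a) = a * (b * (a * a)))

open Pool.Agent.Helper8

section transfer

variable {K : Type*} [Field K] {T : Type*} [NonUnitalNonAssocRing T] [Module K T]
  [IsScalarTower K T T] [SMulCommClass K T T]

theorem bad_of (φ : T →ₗ[K] CarPos.B K) (hinj : Function.Injective φ)
    (hsurj : ∀ x ∈ CarPos.A K, ∃ y, φ y = x)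
    (h1 : ∀ I : Submodule K T, IsAlgIdeal K I → CarPos.IsId (I.map φ))
    (h3 : ∀ (m d d' : ℕ) (x y : T), φ x ∈ CarPos.F K m d → φ y ∈ CarPos.F K m d' →
      φ (x * y) ∈ CarPos.F K m (d + d'))
    (hA : ∀ x : T, φ x ∈ CarPos.A K)
    (h4 : ∀ (m : ℕ) (s : Finset ℕ) (e : T), s ⊆ Finset.range m → φ e = CarPos.E K m s s → e * e = e)
    (h5 : ∀ (n k : ℕ) (x y : T) (c : K), k + 1 ≤ n → c ≠ 0 →
      φ x = CarPos.E K n (Finset.range (k + 1)) (Finset.range k) →
      φ y = c • CarPos.E K n (Finset.range k) ∅ →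
      ∃ c' : K, c' ≠ 0 ∧ φ (x * y) = c' • CarPos.E K n (Finset.range (k + 1)) ∅) :
    BadRadical K T := by
  refine ⟨?_, (CarPos.L K).comap φ, ⟨?_, ?_, ?_⟩, ?_⟩
  · intro f hf hmono
    have hm : Monotone f := monotone_nat_of_le_succ hmono
    obtain ⟨N, hN⟩ := CarPos.acc (fun n => (f n).map φ) (fun n => h1 _ (hf n))
      (fun a b hab => Submodule.map_mono (hm hab))
    exact ⟨N, fun n hn => Submodule.map_injective_of_injective hinj (hN n hn)⟩
  · intro a x hx
    rw [Submodule.mem_comap] at hx
    obtain ⟨n, hx⟩ := hx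
    obtain ⟨m, ha⟩ := hA a
    have ha' := CarPos.F_mono (le_max_left m n) ha
    have hx' := CarPos.F_mono (le_max_right m n) hx
    constructor
    · rw [Submodule.mem_comap]
      refine ⟨max m n, ?_⟩
      have := h3 _ _ _ _ _ ha' hx'
      simpa using this
    · rw [Submodule.mem_comap]
      refine ⟨max m n, ?_⟩
      have := h3 _ _ _ _ _ hx' ha'
      simpa using this
  · intro F hF
    classical
    obtain ⟨m, hm⟩ := CarPos.finite_L (F.image φ) (by
      intro x hx
      rw [Finset.mem_image] at hx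
      obtain ⟨y, hy, rfl⟩ := hx
      exact hF y hy)
    let S : NonUnitalSubalgebra K T :=
      { carrier := {x | φ x ∈ CarPos.F K m 1}
        add_mem' := by
          intro a b ha hb
          simp only [Set.mem_ofPred_eq, map_add] at *
          exact Submodule.add_mem _ ha hb
        zero_mem' := by
          simp only [Set.mem_ofPred_eq, map_zero]
          exact Submodule.zero_mem _
        mul_mem' := by
          intro a b ha hb
          simp only [Set.mem_ofPred_eq] at *
          exact CarPos.F_anti (by omega) (h3 _ _ _ _ _ ha hb)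
        smul_mem' := by
          intro c x hx
          simp only [Set.mem_ofPred_eq, map_smul] at *
          exact Submodule.smul_mem _ _ hx }
    have hS : NonUnitalAlgebra.adjoin K (F : Set T) ≤ S := by
      rw [NonUnitalAlgebra.adjoin_le_iff]
      intro x hx
      exact hm _ (Finset.mem_image_of_mem _ hx)
    have hprod : ∀ n x, IsProd ((NonUnitalAlgebra.adjoin K (F : Set T) :
        NonUnitalSubalgebra K T) : Set T) n x → φ x ∈ CarPos.F K m n := by
      intro n x hx
      induction hx with
      | base h => exact hS h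
      | mul _ _ ih1 ih2 => exact h3 _ _ _ _ _ ih1 ih2
    refine ⟨m + 1, by omega, fun x hx => ?_⟩
    have := hprod _ _ hx
    rw [CarPos.F_top, Submodule.mem_bot] at this
    apply hinj
    rw [this, map_zero]
  · intro I hI hIl
    rw [← Submodule.map_le_iff_le_comap]
    by_contra hcon
    obtain ⟨m, s, hs, hmem⟩ := CarPos.exists_idem (h1 I hI) hcon
    obtain ⟨e, heI, he⟩ := hmem
    have hee := h4 m s e hs he
    obtain ⟨n, hn, hnil⟩ := hIl {e} (by
      intro x hx
      rw [Finset.mem_singleton] at hx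
      rw [hx]; exact heI)
    have hprod : ∀ k, IsProd ((NonUnitalAlgebra.adjoin K (({e} : Finset T) : Set T) :
        NonUnitalSubalgebra K T) : Set T) (k + 1) e := by
      intro k
      induction k with
      | zero =>
        apply IsProd.base
        exact NonUnitalAlgebra.subset_adjoin K (by simp)
      | succ k ih =>
        have := IsProd.mul ih (IsProd.base (NonUnitalAlgebra.subset_adjoin K
          (show e ∈ (({e} : Finset T) : Set T) by simp)))
        rwa [hee] at this
    have h0 := hnil e (by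
      obtain ⟨k, rfl⟩ := Nat.exists_eq_add_of_le hn
      rw [Nat.add_comm]
      exact hprod k)
    rw [h0, map_zero] at he
    exact CarPos.E_ne_zero hs he.symm
  · rintro ⟨n, hn, hnil⟩
    have hprod : ∀ k, k + 1 ≤ n → ∃ x : T, ∃ c : K, c ≠ 0 ∧
        φ x = c • CarPos.E K n (Finset.range (k + 1)) ∅ ∧
        IsProd (((CarPos.L K).comap φ : Submodule K T) : Set T) (k + 1) x := by
      intro k
      induction k with
      | zero =>
        intro hk
        have hsub : Finset.range (0 + 1) ⊆ Finset.range n := Finset.range_subset_range.2 hk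
        have hmem : CarPos.E K n (Finset.range (0 + 1)) ∅ ∈ CarPos.F K n 1 :=
          CarPos.E_mem_F hsub (by simp) (by simp)
        obtain ⟨x, hx⟩ := hsurj _ ⟨n, CarPos.F_anti (by omega) hmem⟩
        refine ⟨x, 1, one_ne_zero, by rw [hx, one_smul], IsProd.base ?_⟩
        rw [SetLike.mem_coe, Submodule.mem_comap]
        rw [hx]
        exact ⟨n, hmem⟩
      | succ k ih =>
        intro hk
        obtain ⟨y, c, hc, hy, hyp⟩ := ih (by omega)
        have hsub1 : Finset.range (k + 1 + 1) ⊆ Finset.range n := Finset.range_subset_range.2 hk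
        have hsub2 : Finset.range (k + 1) ⊆ Finset.range n := Finset.range_subset_range.2 (by omega)
        have hmem : CarPos.E K n (Finset.range (k + 1 + 1)) (Finset.range (k + 1)) ∈ CarPos.F K n 1 :=
          CarPos.E_mem_F hsub1 hsub2 (by simp)
        obtain ⟨x, hx⟩ := hsurj _ ⟨n, CarPos.F_anti (by omega) hmem⟩
        obtain ⟨c', hc', h6⟩ := h5 n (k + 1) x y c hk hc hx hy
        refine ⟨x * y, c', hc', h6, ?_⟩
        have hx1 : IsProd (((CarPos.L K).comap φ : Submodule K T) : Set T) 1 x := by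
          apply IsProd.base
          rw [SetLike.mem_coe, Submodule.mem_comap, hx]
          exact ⟨n, hmem⟩
        have := IsProd.mul hx1 hyp
        rwa [Nat.add_comm 1 (k + 1)] at this
    obtain ⟨k, rfl⟩ := Nat.exists_eq_add_of_le hn
    obtain ⟨x, c, hc, hx, hp⟩ := hprod k (by omega)
    have h0 := hnil x (by rw [Nat.add_comm]; exact hp)
    rw [h0, map_zero] at hx
    have hsub : Finset.range (k + 1) ⊆ Finset.range (1 + k) :=
      Finset.range_subset_range.2 (by omega)
    exact smul_ne_zero hc (CarPos.E_ne_zero hsub) hx.symm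

end transfer

/-- the associative algebra. -/
abbrev TA (K : Type*) [Field K] := ↥(CarPos.A K)

theorem bad_assoc (K : Type*) [Field K] : BadRadical K (TA K) := by
  refine bad_of (CarPos.A K).val.toLinearMap Subtype.val_injective ?_ ?_ ?_ ?_ ?_ ?_
  · intro x hx; exact ⟨⟨x, hx⟩, rfl⟩
  · intro I hI
    refine ⟨?_, ?_, ?_⟩
    · rintro x ⟨y, _, rfl⟩; exact y.2
    · rintro a ha x ⟨y, hy, rfl⟩
      exact ⟨⟨a, ha⟩ * y, (hI _ y hy).1, rfl⟩
    · rintro a ha x ⟨y, hy, rfl⟩
      exact ⟨y * ⟨a, ha⟩, (hI _ y hy).2, rfl⟩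
  · intro m d d' x y hx hy
    exact CarPos.F_mul hx hy
  · intro x; exact x.2
  · intro m s e hs he
    apply Subtype.ext
    have he' : (e : CarPos.B K) = CarPos.E K m s s := he
    change (e : CarPos.B K) * (e : CarPos.B K) = e
    rw [he', CarPos.E_mul_same hs]
  · intro n k x y c hk hc hx hy
    refine ⟨c, hc, ?_⟩
    have hx' : (x : CarPos.B K) = _ := hx
    have hy' : (y : CarPos.B K) = _ := hy
    change (x : CarPos.B K) * (y : CarPos.B K) = _
    rw [hx', hy', mul_smul_comm, CarPos.E_mul_same]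
    exact Finset.range_subset_range.2 (by omega)

section jordan

universe u

variable (K : Type u) [Field K]

open SymAlg

/-- `2` is invertible in the algebra. -/
@[reducible] noncomputable def inv2 (h2 : (2 : K) ≠ 0) : Invertible (2 : TA K) where
  invOf := algebraMap K _ (2 : K)⁻¹
  invOf_mul_self := by
    have : (2 : TA K) = algebraMap K _ (2 : K) := by rw [map_ofNat]
    rw [this, ← map_mul, inv_mul_cancel₀ h2, map_one]
  mul_invOf_self := by
    have : (2 : TA K) = algebraMap K _ (2 : K) := by rw [map_ofNat]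
    rw [this, ← map_mul, mul_inv_cancel₀ h2, map_one]

theorem inv2_smul (h2 : (2 : K) ≠ 0) [Invertible (2 : TA K)] (z : TA K) :
    (⅟(2 : TA K)) * z = (2 : K)⁻¹ • z := by
  have : (⅟(2 : TA K)) = algebraMap K _ (2 : K)⁻¹ := by
    apply invOf_eq_right_inv
    have : (2 : TA K) = algebraMap K _ (2 : K) := by rw [map_ofNat]
    rw [this, ← map_mul, mul_inv_cancel₀ h2, map_one]
  rw [this, Algebra.smul_def]

theorem jordan_identity (h2 : (2 : K) ≠ 0) [Invertible (2 : TA K)] (a b : (TA K)ˢʸᵐ) :
    (a * b) * (a * a) = a * (b * (a * a)) := by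
  apply unsym_injective
  simp only [unsym_mul, inv2_smul K h2, smul_add, mul_add, add_mul, smul_mul_assoc, mul_smul_comm,
    mul_assoc]
  abel

theorem bad_jordan' (h2 : (2 : K) ≠ 0) [Invertible (2 : TA K)] :
    ∃ (A : Type u) (_ : NonUnitalNonAssocRing A) (_ : Module K A) (_ : IsScalarTower K A A)
      (_ : SMulCommClass K A A), IsJordanAlgebra A ∧ BadRadical K A := by
  have hinv := inv2_smul K h2
  have hst : IsScalarTower K (TA K)ˢʸᵐ (TA K)ˢʸᵐ := ⟨by
    intro c x y
    apply unsym_injective
    rw [smul_eq_mul, smul_eq_mul, unsym_mul, unsym_smul, unsym_smul, unsym_mul, hinv, hinv,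
      smul_mul_assoc, mul_smul_comm, ← smul_add, smul_comm]⟩
  have hsc : SMulCommClass K (TA K)ˢʸᵐ (TA K)ˢʸᵐ := ⟨by
    intro c x y
    apply unsym_injective
    rw [smul_eq_mul, smul_eq_mul, unsym_smul, unsym_mul, unsym_mul, unsym_smul, hinv, hinv,
      smul_mul_assoc, mul_smul_comm, ← smul_add, smul_comm]⟩
  refine ⟨(TA K)ˢʸᵐ, inferInstance, inferInstance, hst, hsc,
    ⟨SymAlg.mul_comm, jordan_identity K h2⟩, ?_⟩
  let φ : (TA K)ˢʸᵐ →ₗ[K] CarPos.B K :=
    { toFun := fun x => ((unsym x : TA K) : CarPos.B K)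
      map_add' := fun x y => rfl
      map_smul' := fun c x => rfl }
  have hφmul : ∀ x y, φ (x * y) = (2 : K)⁻¹ • (φ x * φ y + φ y * φ x) := by
    intro x y
    change ((unsym (x * y) : TA K) : CarPos.B K) = _
    rw [unsym_mul, hinv]
    rfl
  refine bad_of φ (fun x y h => unsym_injective (Subtype.ext h)) ?_ ?_ ?_ ?_ ?_ ?_
  · intro x hx; exact ⟨sym ⟨x, hx⟩, rfl⟩
  · intro I hI
    apply CarPos.IsJId.isId _ h2
    refine ⟨?_, ?_⟩
    · rintro x ⟨y, _, rfl⟩; exact (unsym y).2
    · rintro a ha x ⟨y, hy, rfl⟩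
      have h6 : φ (sym ⟨a, ha⟩ * y) ∈ I.map φ := ⟨_, (hI _ y hy).1, rfl⟩
      rw [hφmul] at h6
      have h7 := (I.map φ).smul_mem (2 : K) h6
      rw [smul_smul, mul_inv_cancel₀ h2, one_smul] at h7
      exact h7
  · intro m d d' x y hx hy
    rw [hφmul]
    refine Submodule.smul_mem _ _ (Submodule.add_mem _ (CarPos.F_mul hx hy) ?_)
    rw [Nat.add_comm d d']
    exact CarPos.F_mul hy hx
  · intro x; exact (unsym x).2
  · intro m s e hs he
    apply unsym_injective
    apply Subtype.ext
    change φ (e * e) = φ e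
    rw [hφmul, he, CarPos.E_mul_same hs, ← two_smul K, smul_smul, inv_mul_cancel₀ h2, one_smul]
  · intro n k x y c hk hc hx hy
    refine ⟨(2 : K)⁻¹ * c, mul_ne_zero (inv_ne_zero h2) hc, ?_⟩
    rw [hφmul, hx, hy, mul_smul_comm, smul_mul_assoc, CarPos.E_mul_same, CarPos.E_mul_ne, smul_zero,
      add_zero, smul_smul]
    · simp
    · intro h
      have := congrArg Finset.card h
      simp at this
    · exact Finset.range_subset_range.2 (by omega)

theorem bad_jordan (h2 : (2 : K) ≠ 0) :
    ∃ (A : Type u) (_ : NonUnitalNonAssocRing A) (_ : Module K A) (_ : IsScalarTower K A A)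
      (_ : SMulCommClass K A A), IsJordanAlgebra A ∧ BadRadical K A :=
  @bad_jordan' K _ h2 (inv2 K h2)

end jordan

end Pool.Agent.Helper8.NonNilRad
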