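import Mathlib

set_option autoImplicit false

open MeasureTheory Set

namespace Pool.Agent.Helper8.OrthoComp

/-- Lebesgue measure on `[0,1]`. -/
noncomputable abbrev μ : Measure ℝ := volume.restrict (Icc (0:ℝ) 1)

/-- the folding map. -/
noncomputable def fold (x : ℝ) : ℝ := if x < 3/4 then x else 1 - 2 * |x - 7/8|

/-- the involution. -/
noncomputable def flip (x : ℝ) : ℝ := if x < 3/4 then x else 7/4 - x

lemma fold_meas : Measurable fold := by
  unfold fold
  refine Measurable.ite measurableSet_Iio measurable_id ?_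
  fun_prop

lemma flip_meas : Measurable flip := by
  unfold flip
  refine Measurable.ite measurableSet_Iio measurable_id ?_
  fun_prop

lemma mp_of {f : ℝ → ℝ} (hf : Measurable f)
    (h : ∀ y, 0 < y → y ≤ 1 → (f ⁻¹' Ici y ∩ Icc 0 1 : Set ℝ) =ᵐ[volume] (Icc 0 (1 - y) : Set ℝ) ∨
      volume (f ⁻¹' Ici y ∩ Icc 0 1) = ENNReal.ofReal (1 - y))
    (h0 : ∀ x ∈ Icc (0:ℝ) 1, f x ∈ Icc (0:ℝ) 1) : MeasurePreserving f μ μ := by
  refine ⟨hf, ?_⟩
  have : IsFiniteMeasure (Measure.map f μ) := by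
    infer_instance
  apply Measure.ext_of_Ici
  intro y
  rw [Measure.map_apply hf measurableSet_Ici, Measure.restrict_apply (hf measurableSet_Ici),
    Measure.restrict_apply measurableSet_Ici]
  rcases le_or_gt y 0 with hy | hy
  · congr 1
    ext x
    simp only [mem_inter_iff, mem_preimage, mem_Ici, mem_Icc]
    constructor
    · rintro ⟨_, h1, h2⟩; exact ⟨by linarith, h1, h2⟩
    · rintro ⟨_, h1, h2⟩; exact ⟨by have := (h0 x ⟨h1, h2⟩).1; linarith, h1, h2⟩
  rcases le_or_gt y 1 with hy1 | hy1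
  · have h2 : (Ici y ∩ Icc 0 1 : Set ℝ) = Icc y 1 := by
      ext x; simp only [mem_inter_iff, mem_Ici, mem_Icc]
      constructor
      · rintro ⟨a, b, c⟩; exact ⟨a, c⟩
      · rintro ⟨a, b⟩; exact ⟨a, by linarith, b⟩
    rw [h2, Real.volume_Icc]
    rcases h y hy hy1 with h3 | h3
    · rw [measure_congr h3, Real.volume_Icc]; simp
    · rw [h3]
  · have h2 : (Ici y ∩ Icc 0 1 : Set ℝ) = ∅ := by
      ext x; simp only [mem_inter_iff, mem_Ici, mem_Icc, mem_empty_iff_false, iff_false]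
      rintro ⟨a, b, c⟩; linarith
    have h3 : (f ⁻¹' Ici y ∩ Icc 0 1 : Set ℝ) = ∅ := by
      ext x; simp only [mem_inter_iff, mem_preimage, mem_Ici, mem_Icc, mem_empty_iff_false, iff_false]
      rintro ⟨a, b, c⟩
      have := (h0 x ⟨b, c⟩).2
      linarith
    rw [h2, h3]

lemma fold_mem {x : ℝ} (hx : x ∈ Icc (0:ℝ) 1) : fold x ∈ Icc (0:ℝ) 1 := by
  obtain ⟨h1, h2⟩ := hx
  unfold fold
  split_ifs with h
  · exact ⟨h1, h2⟩
  · push Not at h
    have h3 : |x - 7/8| ≤ 1/8 := by rw [abs_le]; constructor <;> linarith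
    have := abs_nonneg (x - 7/8)
    constructor <;> linarith

lemma flip_mem {x : ℝ} (hx : x ∈ Icc (0:ℝ) 1) : flip x ∈ Icc (0:ℝ) 1 := by
  obtain ⟨h1, h2⟩ := hx
  unfold flip
  split_ifs with h
  · exact ⟨h1, h2⟩
  · push Not at h
    constructor <;> linarith

lemma fold_mp : MeasurePreserving fold μ μ := by
  refine mp_of fold_meas (fun y hy hy1 => Or.inr ?_) (fun x hx => fold_mem hx)
  rcases le_or_gt y (3/4) with h | h
  · have : (fold ⁻¹' Ici y ∩ Icc 0 1 : Set ℝ) = Icc y 1 := by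
      ext x
      simp only [mem_inter_iff, mem_preimage, mem_Ici, mem_Icc, fold]
      constructor
      · rintro ⟨a, b, c⟩
        split_ifs at a with h4
        · exact ⟨a, c⟩
        · push Not at h4; exact ⟨by linarith, c⟩
      · rintro ⟨a, b⟩
        refine ⟨?_, by linarith, b⟩
        split_ifs with h4
        · exact a
        · push Not at h4
          have h3 : |x - 7/8| ≤ 1/8 := by rw [abs_le]; constructor <;> linarith
          linarith
    rw [this, Real.volume_Icc]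
  · have : (fold ⁻¹' Ici y ∩ Icc 0 1 : Set ℝ) = Icc ((y + 3/4) / 2) ((11/4 - y) / 2) := by
      ext x
      simp only [mem_inter_iff, mem_preimage, mem_Ici, mem_Icc, fold]
      constructor
      · rintro ⟨a, b, c⟩
        split_ifs at a with h4
        · linarith
        · have h5 : |x - 7/8| ≤ (1 - y) / 2 := by linarith
          rw [abs_le] at h5
          exact ⟨by linarith [h5.1], by linarith [h5.2]⟩
      · rintro ⟨a, b⟩
        refine ⟨?_, by linarith, by linarith⟩
        rw [if_neg (by linarith)]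
        have h5 : |x - 7/8| ≤ (1 - y) / 2 := by
          rw [abs_le]; constructor <;> linarith
        linarith
    rw [this, Real.volume_Icc]
    congr 1
    ring

lemma flip_mp : MeasurePreserving flip μ μ := by
  refine mp_of flip_meas (fun y hy hy1 => Or.inr ?_) (fun x hx => flip_mem hx)
  rcases le_or_gt y (3/4) with h | h
  · have : (flip ⁻¹' Ici y ∩ Icc 0 1 : Set ℝ) = Icc y 1 := by
      ext x
      simp only [mem_inter_iff, mem_preimage, mem_Ici, mem_Icc, flip]
      constructor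
      · rintro ⟨a, b, c⟩
        split_ifs at a with h4
        · exact ⟨a, c⟩
        · push Not at h4; exact ⟨by linarith, c⟩
      · rintro ⟨a, b⟩
        refine ⟨?_, by linarith, b⟩
        split_ifs with h4
        · exact a
        · linarith
    rw [this, Real.volume_Icc]
  · have : (flip ⁻¹' Ici y ∩ Icc 0 1 : Set ℝ) = Icc (3/4) (7/4 - y) := by
      ext x
      simp only [mem_inter_iff, mem_preimage, mem_Ici, mem_Icc, flip]
      constructor
      · rintro ⟨a, b, c⟩
        split_ifs at a with h4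
        · linarith
        · push Not at h4; exact ⟨h4, by linarith⟩
      · rintro ⟨a, b⟩
        refine ⟨?_, by linarith, by linarith⟩
        rw [if_neg (by linarith)]
        linarith
    rw [this, Real.volume_Icc]
    congr 1
    ring

lemma fold_flip {x : ℝ} (hx : x ∈ Icc (0:ℝ) 1) : fold (flip x) = fold x := by
  obtain ⟨h1, h2⟩ := hx
  unfold flip
  split_ifs with h
  · rfl
  · unfold fold
    rw [if_neg (by linarith), if_neg h]
    have : (7/4 - x - 7/8 : ℝ) = -(x - 7/8) := by ring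
    rw [this, abs_neg]

/-! ### Hartley functions -/

noncomputable def cas (n : ℤ) (x : ℝ) : ℝ := Real.cos (2 * Real.pi * n * x) + Real.sin (2 * Real.pi * n * x)

lemma cas_cont (n : ℤ) : Continuous (cas n) := by unfold cas; fun_prop

lemma cas_bound (n : ℤ) (x : ℝ) : |cas n x| ≤ Real.sqrt 2 := by
  apply Real.abs_le_sqrt
  unfold cas
  have := Real.sin_sq_add_cos_sq (2 * Real.pi * n * x)
  nlinarith [sq_nonneg (Real.cos (2 * Real.pi * n * x) - Real.sin (2 * Real.pi * n * x))]

lemma memLp_of_bounded {f : ℝ → ℝ} (hf : AEStronglyMeasurable f μ) {C : ℝ} (hC : ∀ x, |f x| ≤ C) :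
    MemLp f 2 μ := by
  apply MemLp.of_bound hf C
  filter_upwards with x
  exact hC x

lemma cas_memLp (n : ℤ) : MemLp (cas n) 2 μ :=
  memLp_of_bounded (cas_cont n).aestronglyMeasurable (cas_bound n)

noncomputable def h (n : ℤ) : Lp ℝ 2 μ := (cas_memLp n).toLp

lemma int_Icc (f : ℝ → ℝ) : ∫ x, f x ∂μ = ∫ x in (0:ℝ)..1, f x := by
  rw [intervalIntegral.integral_of_le zero_le_one, integral_Icc_eq_integral_Ioc]

lemma int_cos (k : ℤ) : ∫ x in (0:ℝ)..1, Real.cos (2 * Real.pi * k * x) = if k = 0 then 1 else 0 := by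
  split_ifs with hk
  · subst hk; simp
  · have hne : (2 * Real.pi * k : ℝ) ≠ 0 := by
      have : (k : ℝ) ≠ 0 := by exact_mod_cast hk
      have := Real.pi_ne_zero
      positivity
    rw [intervalIntegral.integral_comp_mul_left (fun x => Real.cos x) hne]
    rw [integral_cos]
    simp only [mul_one, mul_zero, Real.sin_zero, sub_zero]
    have : Real.sin (2 * Real.pi * k) = 0 := by
      have := Real.sin_int_mul_pi (2 * k)
      rw [← this]; congr 1; push_cast; ring
    rw [this]; simp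

lemma int_sin (k : ℤ) : ∫ x in (0:ℝ)..1, Real.sin (2 * Real.pi * k * x) = 0 := by
  by_cases hk : k = 0
  · subst hk; simp
  · have hne : (2 * Real.pi * k : ℝ) ≠ 0 := by
      have : (k : ℝ) ≠ 0 := by exact_mod_cast hk
      have := Real.pi_ne_zero
      positivity
    rw [intervalIntegral.integral_comp_mul_left (fun x => Real.sin x) hne]
    rw [integral_sin]
    simp only [mul_one, mul_zero, Real.cos_zero]
    have : Real.cos (2 * Real.pi * k) = 1 := by
      have := Real.cos_int_mul_two_pi k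
      rw [← this]; congr 1; ring
    rw [this]; simp

lemma inner_eq (f g : Lp ℝ 2 μ) : inner ℝ f g = ∫ x, (f x : ℝ) * g x ∂μ := by
  rw [MeasureTheory.L2.inner_def]
  refine integral_congr_ae ?_
  filter_upwards with x
  simp [mul_comm]

lemma h_coe (n : ℤ) : (h n : ℝ → ℝ) =ᵐ[μ] cas n := MemLp.coeFn_toLp _

lemma inner_h (n m : ℤ) : inner ℝ (h n) (h m) = if n = m then (1 : ℝ) else 0 := by
  rw [inner_eq]
  have h1 : ∫ x, (h n x : ℝ) * h m x ∂μ = ∫ x, cas n x * cas m x ∂μ := by
    refine integral_congr_ae ?_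
    filter_upwards [h_coe n, h_coe m] with x h1 h2
    rw [h1, h2]
  rw [h1, int_Icc]
  have h2 : ∀ x : ℝ, cas n x * cas m x = Real.cos (2 * Real.pi * ((n - m : ℤ) : ℝ) * x) +
      Real.sin (2 * Real.pi * ((n + m : ℤ) : ℝ) * x) := by
    intro x
    unfold cas
    have e1 : 2 * Real.pi * ((n - m : ℤ) : ℝ) * x = 2 * Real.pi * n * x - 2 * Real.pi * m * x := by
      push_cast; ring
    have e2 : 2 * Real.pi * ((n + m : ℤ) : ℝ) * x = 2 * Real.pi * n * x + 2 * Real.pi * m * x := by
      push_cast; ring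
    rw [e1, e2, Real.cos_sub, Real.sin_add]
    ring
  simp_rw [h2]
  rw [intervalIntegral.integral_add, int_cos, int_sin, add_zero]
  · by_cases hnm : n = m
    · simp [hnm]
    · rw [if_neg hnm, if_neg (sub_ne_zero.2 hnm)]
  · apply Continuous.intervalIntegrable; fun_prop
  · apply Continuous.intervalIntegrable; fun_prop

lemma h_orthonormal : Orthonormal ℝ h := by
  rw [orthonormal_iff_ite]
  intro i j
  exact inner_h i j

/-- completeness of the Hartley system. -/
lemma h_complete (f : Lp ℝ 2 μ) (hf : ∀ n, inner ℝ (h n) f = 0) : f = 0 := by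
  have hfi : ∀ n, ∫ x in (0:ℝ)..1, cas n x * f x = 0 := by
    intro n
    rw [← int_Icc, ← hf n, inner_eq]
    refine integral_congr_ae ?_
    filter_upwards [h_coe n] with x h1
    rw [h1]
  have hmem : MemLp f 2 μ := Lp.memLp f
  have hint : Integrable f μ := hmem.integrable (by norm_num)
  have hintI : IntervalIntegrable f volume 0 1 := by
    rw [intervalIntegrable_iff_integrableOn_Icc_of_le zero_le_one]
    exact hint
  have hcasI : ∀ n, IntervalIntegrable (fun x => cas n x * f x) volume 0 1 := fun n =>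
    hintI.continuousOn_mul (cas_cont n).continuousOn
  have hcos : ∀ n : ℤ, ∫ x in (0:ℝ)..1, Real.cos (2 * Real.pi * n * x) * f x = 0 := by
    intro n
    have e : ∀ x : ℝ, Real.cos (2 * Real.pi * n * x) * f x =
        (1/2) * (cas n x * f x + cas (-n) x * f x) := by
      intro x
      unfold cas
      have : 2 * Real.pi * ((-n : ℤ) : ℝ) * x = -(2 * Real.pi * n * x) := by push_cast; ring
      rw [this, Real.cos_neg, Real.sin_neg]
      ring
    simp_rw [e]
    rw [intervalIntegral.integral_const_mul, intervalIntegral.integral_add (hcasI n) (hcasI (-n)),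
      hfi, hfi]
    simp
  have hsin : ∀ n : ℤ, ∫ x in (0:ℝ)..1, Real.sin (2 * Real.pi * n * x) * f x = 0 := by
    intro n
    have e : ∀ x : ℝ, Real.sin (2 * Real.pi * n * x) * f x =
        (1/2) * (cas n x * f x - cas (-n) x * f x) := by
      intro x
      unfold cas
      have : 2 * Real.pi * ((-n : ℤ) : ℝ) * x = -(2 * Real.pi * n * x) := by push_cast; ring
      rw [this, Real.cos_neg, Real.sin_neg]
      ring
    simp_rw [e]
    rw [intervalIntegral.integral_const_mul, intervalIntegral.integral_sub (hcasI n) (hcasI (-n)),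
      hfi, hfi]
    simp
  have hmemC : MemLp (fun x => (f x : ℂ)) 2 (volume.restrict (Ioc (0:ℝ) 1)) := by
    have : MemLp f 2 (volume.restrict (Ioc (0:ℝ) 1)) := by
      rw [restrict_Ioc_eq_restrict_Icc]; exact hmem
    exact this.ofReal
  have hcoef : ∀ n : ℤ, fourierCoeffOn (zero_lt_one' ℝ) (fun x => (f x : ℂ)) n = 0 := by
    intro n
    rw [fourierCoeffOn_eq_integral]
    have e : ∀ x : ℝ, (fourier (-n) (x : AddCircle ((1:ℝ) - 0)) : ℂ) • (f x : ℂ) =
        ((Real.cos (2 * Real.pi * n * x) * f x : ℝ) : ℂ) -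
          Complex.I * ((Real.sin (2 * Real.pi * n * x) * f x : ℝ) : ℂ) := by
      intro x
      rw [fourier_coe_apply]
      have : (2 * Real.pi * Complex.I * ((-n : ℤ) : ℂ) * (x : ℂ) / (((1:ℝ) - 0 : ℝ) : ℂ)) =
          ((-(2 * Real.pi * n * x) : ℝ) : ℂ) * Complex.I := by
        push_cast; ring
      rw [this, Complex.exp_mul_I, ← Complex.ofReal_cos, ← Complex.ofReal_sin, Real.cos_neg,
        Real.sin_neg]
      push_cast
      rw [smul_eq_mul]
      ring
    simp_rw [e]
    rw [intervalIntegral.integral_sub, intervalIntegral.integral_const_mul,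
      intervalIntegral.integral_ofReal, intervalIntegral.integral_ofReal, hcos, hsin]
    · simp
    · have : IntervalIntegrable (fun x => Real.cos (2 * Real.pi * n * x) * f x) volume 0 1 :=
        hintI.continuousOn_mul (by fun_prop)
      exact ⟨this.1.ofReal, this.2.ofReal⟩
    · apply IntervalIntegrable.const_mul
      have : IntervalIntegrable (fun x => Real.sin (2 * Real.pi * n * x) * f x) volume 0 1 :=
        hintI.continuousOn_mul (by fun_prop)
      exact ⟨this.1.ofReal, this.2.ofReal⟩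
  have hsum := hasSum_sq_fourierCoeffOn (zero_lt_one' ℝ) hmemC
  simp_rw [hcoef] at hsum
  have h0 : ((1:ℝ) - 0)⁻¹ • ∫ x in (0:ℝ)..1, ‖(f x : ℂ)‖ ^ 2 = 0 := by
    have hz : HasSum (fun _ : ℤ => ‖(0:ℂ)‖^2) (0:ℝ) := by
      have : (fun _ : ℤ => ‖(0:ℂ)‖^2) = fun _ => (0:ℝ) := by funext i; simp
      rw [this]; exact hasSum_zero
    exact hsum.unique hz
  have h1 : ∫ x in (0:ℝ)..1, (f x : ℝ) * f x = 0 := by
    have e : ∀ x : ℝ, ‖(f x : ℂ)‖ ^ 2 = f x * f x := by
      intro x
      rw [Complex.norm_real, Real.norm_eq_abs, sq_abs, sq]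
    simp_rw [e] at h0
    simpa using h0
  rw [← int_Icc, ← inner_eq] at h1
  exact inner_self_eq_zero.1 h1

/-- composition with the folding map. -/
noncomputable def U : Lp ℝ 2 μ →ₗᵢ[ℝ] Lp ℝ 2 μ := Lp.compMeasurePreservingₗᵢ ℝ fold fold_mp
noncomputable def S : Lp ℝ 2 μ →ₗᵢ[ℝ] Lp ℝ 2 μ := Lp.compMeasurePreservingₗᵢ ℝ flip flip_mp

lemma U_coe (f : Lp ℝ 2 μ) : (U f : ℝ → ℝ) =ᵐ[μ] f ∘ fold := Lp.coeFn_compMeasurePreserving _ _
lemma S_coe (f : Lp ℝ 2 μ) : (S f : ℝ → ℝ) =ᵐ[μ] f ∘ flip := Lp.coeFn_compMeasurePreserving _ _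

lemma SU (f : Lp ℝ 2 μ) : S (U f) = U f := by
  apply Lp.ext
  have h1 := S_coe (U f)
  have h2 := U_coe f
  have h3 : (U f : ℝ → ℝ) ∘ flip =ᵐ[μ] (f ∘ fold) ∘ flip :=
    flip_mp.quasiMeasurePreserving.ae_eq_comp h2
  have h4 : ∀ᵐ x ∂μ, x ∈ Icc (0:ℝ) 1 := ae_restrict_mem measurableSet_Icc
  filter_upwards [h1, h2, h3, h4] with x h1 h2 h3 h4
  rw [h1, h3, h2]
  simp only [Function.comp_apply]
  rw [fold_flip h4]

/-- the orthonormal system. -/
noncomputable def φ (n : ℕ) : Lp ℝ 2 μ := U (h (Equiv.intEquivNat.symm n))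

lemma φ_orthonormal : Orthonormal ℝ φ :=
  (h_orthonormal.comp_linearIsometry U).comp _ Equiv.intEquivNat.symm.injective

lemma φ_bound (n : ℕ) : ∀ᵐ x ∂μ, |(φ n : ℝ → ℝ) x| ≤ Real.sqrt 2 := by
  set k := Equiv.intEquivNat.symm n
  have h1 := U_coe (h k)
  have h2 : (h k : ℝ → ℝ) ∘ fold =ᵐ[μ] cas k ∘ fold :=
    fold_mp.quasiMeasurePreserving.ae_eq_comp (h_coe k)
  filter_upwards [h1, h2] with x h1 h2
  change |(U (h k) : ℝ → ℝ) x| ≤ _
  rw [h1, h2]
  exact cas_bound _ _

/-- anything orthogonal to all `φ n` is orthogonal to the range of `U`. -/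
lemma orth_range {g : Lp ℝ 2 μ} (hg : ∀ n, inner ℝ (φ n) g = 0) (f : Lp ℝ 2 μ) :
    inner ℝ (U f) g = 0 := by
  set V : Lp ℝ 2 μ →L[ℝ] Lp ℝ 2 μ := U.toContinuousLinearMap
  have h1 : ContinuousLinearMap.adjoint V g = 0 := by
    apply h_complete
    intro n
    rw [ContinuousLinearMap.adjoint_inner_right]
    have := hg (Equiv.intEquivNat n)
    unfold φ at this
    rwa [Equiv.symm_apply_apply] at this
  have h2 : inner ℝ f (ContinuousLinearMap.adjoint V g) = 0 := by rw [h1, inner_zero_right]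
  rw [ContinuousLinearMap.adjoint_inner_right] at h2
  exact h2

/-- no norm-one function bounded by `√2` is orthogonal to all `φ n`. -/
lemma no_bounded {g : Lp ℝ 2 μ} (hg : ∀ n, inner ℝ (φ n) g = 0)
    (hb : ∀ᵐ x ∂μ, |(g : ℝ → ℝ) x| ≤ Real.sqrt 2) (hn : ‖g‖ = 1) : False := by
  have hmem : MemLp g 2 μ := Lp.memLp g
  have hfm : MemLp (indicator (Iio (3/4 : ℝ)) g) 2 μ := hmem.indicator measurableSet_Iio
  set f : Lp ℝ 2 μ := hfm.toLp
  have hf : (f : ℝ → ℝ) =ᵐ[μ] indicator (Iio (3/4 : ℝ)) g := hfm.coeFn_toLp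
  have h1 := orth_range hg f
  rw [inner_eq] at h1
  have h2 : (U f : ℝ → ℝ) =ᵐ[μ] indicator (Iio (3/4 : ℝ)) g := by
    have a1 := U_coe f
    have a2 : (f : ℝ → ℝ) ∘ fold =ᵐ[μ] (indicator (Iio (3/4 : ℝ)) g) ∘ fold :=
      fold_mp.quasiMeasurePreserving.ae_eq_comp hf
    have a3 : ∀ᵐ x ∂μ, x ∈ Icc (0:ℝ) 1 := ae_restrict_mem measurableSet_Icc
    filter_upwards [a1, a2, a3] with x a1 a2 a3
    rw [a1, a2]
    simp only [Function.comp_apply]
    by_cases hx : x < 3/4
    · have : fold x = x := by unfold fold; rw [if_pos hx]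
      rw [this]
    · have h4 : ¬ fold x < 3/4 := by
        unfold fold
        rw [if_neg hx]
        push Not at hx
        have h3 : |x - 7/8| ≤ 1/8 := by rw [abs_le]; constructor <;> linarith [a3.2]
        linarith
      rw [indicator_of_notMem (by simpa using h4), indicator_of_notMem (by simpa using hx)]
  have h3 : ∫ x, indicator (Iio (3/4 : ℝ)) (fun x => (g x : ℝ) * g x) x ∂μ = 0 := by
    rw [← h1]
    refine integral_congr_ae ?_
    filter_upwards [h2] with x h2
    rw [h2]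
    by_cases hx : x ∈ Iio (3/4 : ℝ)
    · rw [indicator_of_mem hx, indicator_of_mem hx]
    · rw [indicator_of_notMem hx, indicator_of_notMem hx, zero_mul]
  have hint : Integrable (fun x => (g x : ℝ) * g x) μ := by
    have := hmem.integrable_sq
    simpa [sq] using this
  have h4 : ∫ x, (g x : ℝ) * g x ∂μ = 1 := by
    rw [← inner_eq, real_inner_self_eq_norm_sq, hn]; norm_num
  have h5 : ∫ x, (g x : ℝ) * g x ∂μ = ∫ x in Iio (3/4 : ℝ), (g x : ℝ) * g x ∂μ +
      ∫ x in (Iio (3/4 : ℝ))ᶜ, (g x : ℝ) * g x ∂μ :=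
    (integral_add_compl measurableSet_Iio hint).symm
  rw [integral_indicator measurableSet_Iio] at h3
  rw [h4, h3, zero_add] at h5
  have hμ : μ ((Iio (3/4 : ℝ))ᶜ) = ENNReal.ofReal (1/4) := by
    rw [Measure.restrict_apply measurableSet_Iio.compl]
    have : ((Iio (3/4 : ℝ))ᶜ ∩ Icc 0 1 : Set ℝ) = Icc (3/4) 1 := by
      ext x; simp only [mem_inter_iff, mem_compl_iff, mem_Iio, mem_Icc, not_lt]
      constructor
      · rintro ⟨a, b, c⟩; exact ⟨a, c⟩
      · rintro ⟨a, b⟩; exact ⟨a, by linarith, b⟩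
    rw [this, Real.volume_Icc]
    norm_num
  have h6 : ∫ x in (Iio (3/4 : ℝ))ᶜ, (g x : ℝ) * g x ∂μ ≤ ∫ x in (Iio (3/4 : ℝ))ᶜ, (2 : ℝ) ∂μ := by
    apply integral_mono_ae hint.integrableOn (integrable_const _)
    filter_upwards [ae_restrict_of_ae hb] with x hx
    have : (g x : ℝ) ^ 2 ≤ (Real.sqrt 2) ^ 2 := by
      rw [← sq_abs]
      exact pow_le_pow_left₀ (abs_nonneg _) hx 2
    rw [Real.sq_sqrt (by norm_num)] at this
    change (g x : ℝ) * g x ≤ 2
    nlinarith
  have h7 : ∫ x in (Iio (3/4 : ℝ))ᶜ, (2 : ℝ) ∂μ = 1/2 := by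
    rw [setIntegral_const, Measure.real, hμ, ENNReal.toReal_ofReal (by norm_num)]
    norm_num
  linarith

/-! ### the orthogonal complement is infinite-dimensional -/

noncomputable def a (k : ℕ) : ℝ := 3/4 + (1/2)^(k+3)

lemma a_anti {k l : ℕ} (h : k < l) : a l ≤ a (k + 1) := by
  unfold a
  have : (1/2 : ℝ)^(l+3) ≤ (1/2)^(k+1+3) := by
    apply pow_le_pow_of_le_one <;> norm_num
    omega
  linarith

lemma a_gt (k : ℕ) : 3/4 < a k := by
  unfold a
  have : (0:ℝ) < (1/2)^(k+3) := by positivity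
  linarith

lemma a_le (k : ℕ) : a k ≤ 7/8 := by
  unfold a
  have : (1/2 : ℝ)^(k+3) ≤ (1/2)^3 := by
    apply pow_le_pow_of_le_one <;> norm_num
  norm_num at this ⊢
  linarith

lemma a_succ_lt (k : ℕ) : a (k + 1) < a k := by
  unfold a
  have : (0:ℝ) < (1/2)^(k+3) := by positivity
  have h2 : (1/2 : ℝ)^(k+1+3) = (1/2) * (1/2)^(k+3) := by rw [← pow_succ']
  rw [h2]
  linarith

/-- intervals. -/
def I (k : ℕ) : Set ℝ := Ioo (a (k + 1)) (a k)

noncomputable def gf (k : ℕ) (x : ℝ) : ℝ :=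
  indicator (I k) (fun _ => (1:ℝ)) x - indicator (I k) (fun _ => (1:ℝ)) (flip x)

lemma gf_meas (k : ℕ) : Measurable (gf k) := by
  have h1 : Measurable (indicator (I k) (fun _ => (1:ℝ))) :=
    measurable_const.indicator measurableSet_Ioo
  exact h1.sub (h1.comp flip_meas)

lemma gf_bound (k : ℕ) (x : ℝ) : |gf k x| ≤ 2 := by
  unfold gf
  have h1 : ∀ y : ℝ, |indicator (I k) (fun _ => (1:ℝ)) y| ≤ 1 := by
    intro y
    by_cases hy : y ∈ I k
    · rw [indicator_of_mem hy]; simp
    · rw [indicator_of_notMem hy]; simp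
  have := abs_sub (indicator (I k) (fun _ => (1:ℝ)) x) (indicator (I k) (fun _ => (1:ℝ)) (flip x))
  linarith [h1 x, h1 (flip x)]

lemma gf_memLp (k : ℕ) : MemLp (gf k) 2 μ :=
  memLp_of_bounded (gf_meas k).aestronglyMeasurable (gf_bound k)

noncomputable def g (k : ℕ) : Lp ℝ 2 μ := (gf_memLp k).toLp

lemma g_coe (k : ℕ) : (g k : ℝ → ℝ) =ᵐ[μ] gf k := MemLp.coeFn_toLp _

lemma flip_flip {x : ℝ} (hx : x ∈ Icc (0:ℝ) 1) : flip (flip x) = x := by
  obtain ⟨h1, h2⟩ := hx
  by_cases h : x < 3/4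
  · have : flip x = x := by unfold flip; rw [if_pos h]
    rw [this, this]
  · have : flip x = 7/4 - x := by unfold flip; rw [if_neg h]
    rw [this]
    unfold flip
    rw [if_neg (by linarith)]
    ring

lemma S_g (k : ℕ) : S (g k) = - g k := by
  apply Lp.ext
  have h1 := S_coe (g k)
  have h2 := g_coe k
  have h3 : (g k : ℝ → ℝ) ∘ flip =ᵐ[μ] (gf k) ∘ flip :=
    flip_mp.quasiMeasurePreserving.ae_eq_comp h2
  have h4 : ∀ᵐ x ∂μ, x ∈ Icc (0:ℝ) 1 := ae_restrict_mem measurableSet_Icc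
  have h5 := Lp.coeFn_neg (g k)
  filter_upwards [h1, h2, h3, h4, h5] with x h1 h2 h3 h4 h5
  rw [h1, h3, h5]
  simp only [Function.comp_apply, Pi.neg_apply]
  rw [h2]
  unfold gf
  rw [flip_flip h4]
  ring

lemma g_orth_U (k : ℕ) (f : Lp ℝ 2 μ) : inner ℝ (U f) (g k) = 0 := by
  have h1 : inner ℝ (S (U f)) (S (g k)) = inner ℝ (U f) (g k) := S.inner_map_map _ _
  rw [SU, S_g, inner_neg_right] at h1
  linarith

lemma gf_mul {k l : ℕ} (hkl : k < l) {x : ℝ} : gf k x * gf l x = 0 := by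
  have hk := a_anti hkl
  have b1 := a_gt (k+1)
  have b2 := a_gt (l+1)
  have b3 := a_le k
  have b4 := a_le l
  have b5 := a_succ_lt k
  have b6 := a_succ_lt l
  unfold gf
  have hI : ∀ y, ¬ (y ∈ I k ∧ y ∈ I l) := by
    rintro y ⟨h1, h2⟩
    unfold I at h1 h2
    rw [mem_Ioo] at h1 h2
    linarith [h1.1, h2.2]
  have hI2 : ∀ p q : ℕ, ¬ (x ∈ I p ∧ flip x ∈ I q) ∨ p = q := by
    intro p q
    left
    rintro ⟨h1, h2⟩
    have c1 := a_gt (p+1)
    have c2 := a_le q
    have c3 := a_le p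
    unfold I at h1 h2
    rw [mem_Ioo] at h1 h2
    have hx : ¬ x < 3/4 := by linarith [h1.1]
    unfold flip at h2
    rw [if_neg hx] at h2
    linarith [h1.2, h2.2]
  by_cases p1 : x ∈ I k <;> by_cases p2 : flip x ∈ I k <;> by_cases p3 : x ∈ I l <;>
    by_cases p4 : flip x ∈ I l <;> simp only [indicator_of_mem, indicator_of_notMem, p1, p2, p3, p4, not_false_eq_true] <;>
    try norm_num
  all_goals exfalso
  all_goals first
    | exact hI _ ⟨p1, p3⟩
    | exact hI _ ⟨p2, p4⟩
    | (rcases hI2 k l with h | h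
       · exact h ⟨p1, p4⟩
       · omega)
    | (rcases hI2 l k with h | h
       · exact h ⟨p3, p2⟩
       · omega)

lemma g_inner {k l : ℕ} (hkl : k ≠ l) : inner ℝ (g k) (g l) = 0 := by
  rw [inner_eq]
  have : ∫ x, (g k x : ℝ) * g l x ∂μ = ∫ x, (0:ℝ) ∂μ := by
    refine integral_congr_ae ?_
    filter_upwards [g_coe k, g_coe l] with x h1 h2
    rw [h1, h2]
    rcases lt_or_gt_of_ne hkl with h | h
    · exact gf_mul h
    · rw [mul_comm]; exact gf_mul h
  rw [this]; simp

lemma g_ne_zero (k : ℕ) : g k ≠ 0 := by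
  intro h0
  have h1 : (gf k) =ᵐ[μ] 0 := by
    have := g_coe k
    rw [h0] at this
    exact this.symm.trans (Lp.coeFn_zero _ _ _)
  have h2 : μ (I k) = 0 := by
    have h3 : I k ⊆ {x | ¬ gf k x = (0 : ℝ → ℝ) x} := by
      intro x hx
      have c1 := a_gt (k+1)
      have c2 := a_le k
      have hx' := hx
      unfold I at hx'
      rw [mem_Ioo] at hx'
      have hnot : flip x ∉ I k := by
        intro h
        unfold I at h
        rw [mem_Ioo] at h
        unfold flip at h
        rw [if_neg (by linarith [hx'.1])] at h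
        linarith [h.2, hx'.2]
      simp only [mem_ofPred_eq, Pi.zero_apply]
      unfold gf
      rw [indicator_of_mem hx, indicator_of_notMem hnot]
      norm_num
    exact measure_mono_null h3 (ae_iff.1 h1)
  have h4 : μ (I k) = ENNReal.ofReal (a k - a (k+1)) := by
    have hmI : MeasurableSet (I k) := measurableSet_Ioo
    rw [Measure.restrict_apply hmI]
    have : (I k ∩ Icc 0 1 : Set ℝ) = Ioo (a (k+1)) (a k) := by
      have c1 := a_gt (k+1)
      have c2 := a_le k
      ext x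
      simp only [I, mem_inter_iff, mem_Ioo, mem_Icc]
      constructor
      · exact fun h => h.1
      · rintro ⟨p, q⟩; exact ⟨⟨p, q⟩, by linarith, by linarith⟩
    rw [this, Real.volume_Ioo]
  rw [h4] at h2
  have := a_succ_lt k
  rw [ENNReal.ofReal_eq_zero] at h2
  linarith

lemma infdim : ¬ FiniteDimensional ℝ (Submodule.orthogonal (Submodule.span ℝ (Set.range φ))) := by
  intro hfin
  have hmem : ∀ k, g k ∈ Submodule.orthogonal (Submodule.span ℝ (Set.range φ)) := by
    intro k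
    rw [Submodule.mem_orthogonal]
    intro u hu
    induction hu using Submodule.span_induction with
    | mem x hx =>
      obtain ⟨n, rfl⟩ := hx
      exact g_orth_U k _
    | zero => rw [inner_zero_left]
    | add x y _ _ h1 h2 => rw [inner_add_left, h1, h2, add_zero]
    | smul c x _ h => rw [inner_smul_left, h, mul_zero]
  have hli : LinearIndependent ℝ g :=
    linearIndependent_of_ne_zero_of_inner_eq_zero g_ne_zero (fun i j hij => g_inner hij)
  let G : ℕ → Submodule.orthogonal (Submodule.span ℝ (Set.range φ)) := fun k => ⟨g k, hmem k⟩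
  have hG : LinearIndependent ℝ G := by
    apply LinearIndependent.of_comp (Submodule.subtype _)
    exact hli
  have := hG.finite
  exact not_finite ℕ

theorem main :
    ¬ (∀ (M : ℝ) (φ : ℕ → MeasureTheory.Lp ℝ 2 (volume.restrict (Set.Icc (0:ℝ) 1))),
      Orthonormal ℝ φ →
      (∀ n, ∀ᵐ x ∂(volume.restrict (Set.Icc (0:ℝ) 1)), |(φ n : ℝ → ℝ) x| ≤ M) →
      ¬ FiniteDimensional ℝ (Submodule.orthogonal (Submodule.span ℝ (Set.range φ))) →
      ∃ ψ : ℕ → MeasureTheory.Lp ℝ 2 (volume.restrict (Set.Icc (0:ℝ) 1)),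
        (∀ k, ∀ᵐ x ∂(volume.restrict (Set.Icc (0:ℝ) 1)), |(ψ k : ℝ → ℝ) x| ≤ M) ∧
        Orthonormal ℝ (Sum.elim φ ψ) ∧
        (Submodule.span ℝ (Set.range (Sum.elim φ ψ))).topologicalClosure = ⊤) := by
  intro H
  obtain ⟨ψ, h1, h2, _⟩ := H (Real.sqrt 2) φ φ_orthonormal φ_bound infdim
  refine no_bounded (g := ψ 0) ?_ (h1 0) (h2.1 (Sum.inr 0))
  intro n
  exact h2.2 (show (Sum.inl n : ℕ ⊕ ℕ) ≠ Sum.inr 0 by simp)

end Pool.Agent.Helper8.OrthoComp
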