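import Mathlib

/-!
# A paving matroid of rank 4 on 50 points whose lattice of flats is not Sperner

The large hyperplanes come from the 350 circles of the inversive plane of order 7 (the
`3-(50,8,1)` design); four points `46, 47, 48, 49` are chosen and each circle through at least two of
them is shortened so that it keeps exactly one of them.
-/

set_option autoImplicit false
set_option maxRecDepth 100000

namespace Pool.Agent.Helper8.Paving

abbrev P : Type := Fin 50

/-- Bit masks of the 350 large hyperplanes. -/
def HL : List ℕ := [
  3182883, 6365766, 101852208, 203704416, 407408832, 680002085,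
  814817664, 1208226841, 1612859136, 5106567177, 6442844485, 7592217600,
  10821353478, 12885688970, 13037082624, 19331553332, 21642706956, 21760066640,
  26074165248, 38663106664, 39732838544, 43520133280, 44042813505, 51548325891,
  52148330496, 69256429626, 71072612872, 73151291664, 77334840608, 85954920578,
  87040266560, 103079875590, 104296660992, 140161385472, 142337937936, 142841241603,
  146302583328, 154653035072, 171909841156, 171949696640, 206159751180, 206445969408,
  275481887939, 277034066448, 326820299040, 550963775878, 560536223753, 653640598080,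
  824684093760, 831344676866, 910535180293, 971803852800, 1099796845324, 1108102971472,
  1374390263817, 1385133244800, 1477552637968, 1529017799680, 1649368187520, 1650620104752,
  1662689223684, 1668746575872, 1821070360586, 2199367340033, 2216205812896, 2339701260560,
  2473902375556, 2474062643210, 2474438826240, 2543967020032, 2748846702684, 2770266489600,
  2785288529920, 2955105275936, 3299092856928, 3325378447368, 3337493151744, 4398718033922,
  4404541391392, 4432411495744, 4544075468933, 4673004208160, 4681682666496, 4711042252812,
  4948877652480, 5018669319312, 5085803333632, 5515308433681, 5570577059840, 5637480128576,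
  6597472487952, 6598185713856, 6674986303488, 8797436067844, 8815420384522, 8864822991488,
  9097294447104, 9109628027904, 9141839462496, 9208711872664, 9345853300897, 9345991640128,
  9363365332992, 9388798529808, 9898859597824, 9973316714499, 10037338638624, 10995166612485,
  11002229833856, 11030616867362, 11141154119680, 13194139583049, 13194224075136, 13198443937814,
  13349972606976, 17592741299208, 17618165563536, 17868154491040, 17940657340416, 18006784641025,
  18141958767123, 18219256055808, 18283678924992, 18691706601794, 18691966504064, 18692843765765,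
  18726730665984, 18777597059616, 19791249195024, 19795588489216, 19801946723904, 19894288515465,
  19946633428998, 21990333224970, 22004459667712, 22009561169920, 22162032033840, 26388448150272,
  26389889689680, 26396871229484, 26425084084224, 35184372218880, 35184388734976, 35186502795264,
  35457102512128, 35463613137160, 35468116756548, 35477504163858, 35493647487489, 35751844778120,
  35768505532452, 35871835817217, 36286569122306, 36288203882625, 36352638846024, 36421457035284,
  37385811558440, 37392019030274, 37400710488129, 39591029514264, 39599665841668, 39617048887426,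
  39652211951649, 43982681866257, 44049725686020, 44117921108034, 52778739703940, 52780991513634,
  52915079283208, 70093866270720, 70368744641056, 70368752732440, 70368837501504, 70368899449089,
  70369029924898, 70369300185236, 70373072704896, 70375191912448, 70378957312002, 70389413708417,
  70394515554564, 70405419171922, 70412029461512, 70437565136897, 70446053744832, 70455314615296,
  70471829684256, 70507256906852, 70508333256712, 70510889402368, 70644732594176, 71073118887952,
  71227746549888, 71489799979010, 71743939067904, 72018011625537, 72568337867272, 72855530242097,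
  73117524575234, 73738154475524, 74767931555856, 75247827026690, 75316852817924, 75866437583016,
  77017370365952, 79337173942273, 79439916445700, 79788697976840, 80264353547792, 81364130988352,
  83573621393408, 87999584946692, 88252992454728, 88513437499680, 89206521069568, 90161162092544,
  92358987228161, 96757023342722, 105553116266511, 105830158566400, 106111598363136, 106688061645056,
  107889649780864, 109955995205696, 114366431117344, 123214291275792, 140737489151040, 140737658355841,
  140737798768130, 140738059849796, 140738600370472, 140739652683976, 140746145409793, 140749031735312,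
  140750383824896, 140755767271428, 140776696709378, 140789031109144, 140810838343844, 140875130273794,
  140892107489664, 140910629230592, 140943659368529, 141089675710472, 141287334351872, 141873507222561,
  142117380817472, 142455476453632, 142979599958020, 143230817533952, 143487878135809, 144036023251090,
  145410699296769, 145711060484194, 146235049150468, 147476292174856, 149533732405296, 149808463628290,
  150222923629060, 150633705635848, 154034740731904, 158401617461250, 158604552373524, 158879832891400,
  160528707094560, 162728261976704, 167147242786817, 176334716280864, 176475945043984, 177038824636416,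
  178189620494848, 180322197049600, 184727618192512, 193548473499712, 281474978302097, 281475316711698,
  281475580889092, 281476119699592, 281477529994244, 281492290818562, 281498063470624, 281500750873601,
  281509387190280, 281511484556032, 281546397331457, 281553393418772, 281614571667618, 281621676687688,
  281891610034180, 282299610435112, 282574668703744, 283747014445122, 284232630927488, 284910952907265,
  285959199916040, 286147903361104, 286461635067905, 286973625435138, 288072046502180, 290547029770497,
  290821398593538, 291422120968388, 292470098300936, 299067464810593, 299384991391746, 299616927256580,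
  300173116833816, 308069481333760, 317003080728704, 317212330049600, 317767517999136, 318893277053968,
  321194868899840, 325460005364224, 334268733589760, 562949966021772, 562950012735504, 562951048432128,
  562951296778314, 562961898872864, 562969828163648, 562984581636117, 562986529067136, 563021122390272,
  563022968980993, 563095984409618, 563104656130089, 563504004907040, 563775263473680, 564257234616448,
  564324376772646, 565595653357632, 566248689665280, 567644352686208, 567897758171400, 568490469753344,
  569549175390211, 571759036203072, 572845578018816, 574030969438224, 576144898266144, 580679582757120,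
  580817355538944, 581144542184448, 585009056448580, 598134325511152, 598752876306434, 600338719576068,
  606964913014792, 615735638638593
]

/-- At most one bit. -/
def le1 (z : ℕ) : Bool := (z &&& (z - 1)) == 0

/-- At most two bits. -/
def le2 (z : ℕ) : Bool := le1 (z &&& (z - 1))

def chk : List ℕ → Bool
  | [] => true
  | a :: l => l.all (fun b => le2 (a &&& b)) && chk l

def toF (m : ℕ) : Finset P := Finset.univ.filter (fun i : P => m.testBit i.val = true)

theorem chk_HL : chk HL = true := by decide +kernel

theorem chk46 : HL.all (fun m => le1 (m >>> 46)) = true := by decide +kernel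

theorem sum_HL : (HL.map (fun m => Nat.choose (toF m).card 3)).sum = 18700 := by decide +kernel

theorem nodup_HL : HL.Nodup := by decide +kernel

theorem length_HL : HL.length = 350 := by decide +kernel

/-! ### Bit manipulation -/

theorem lowbit : ∀ z : ℕ, ∃ a, ∀ i, i ≠ a → z.testBit i = true → (z &&& (z - 1)).testBit i = true := by
  intro z
  induction z using Nat.strong_induction_on with
  | _ z ih =>
    rcases Nat.eq_zero_or_pos z with rfl | hz
    · exact ⟨0, fun i _ h => by simp at h⟩
    · rcases Nat.even_or_odd' z with ⟨k, rfl | rfl⟩
      · have hk : k < 2 * k := by omega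
        obtain ⟨a, ha⟩ := ih k hk
        refine ⟨a + 1, fun i hi h => ?_⟩
        rcases i with _ | i
        · simp at h
        · rw [Nat.testBit_and]
          rw [h, Bool.true_and]
          have h1 : (2 * k).testBit (i + 1) = k.testBit i := by
            rw [Nat.testBit_succ]; congr 1; omega
          have h2 : (2 * k - 1).testBit (i + 1) = (k - 1).testBit i := by
            rw [Nat.testBit_succ]; congr 1; omega
          rw [h1] at h
          have h3 := ha i (by omega) h
          rw [Nat.testBit_and, h, Bool.true_and] at h3
          rw [h2, h3]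
      · refine ⟨0, fun i hi h => ?_⟩
        rcases i with _ | i
        · exact absurd rfl hi
        · rw [Nat.testBit_and, h, Bool.true_and]
          have h1 : (2 * k + 1).testBit (i + 1) = k.testBit i := by
            rw [Nat.testBit_succ]; congr 1; omega
          have h2 : (2 * k + 1 - 1).testBit (i + 1) = k.testBit i := by
            rw [Nat.testBit_succ]; congr 1; omega
          rw [h2, ← h1, h]

theorem le1_spec {z : ℕ} (h : le1 z = true) : ∃ a, ∀ i, z.testBit i = true → i = a := by
  obtain ⟨a, ha⟩ := lowbit z
  refine ⟨a, fun i hi => ?_⟩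
  by_contra hne
  have h1 := ha i hne hi
  have h2 : z &&& (z - 1) = 0 := by simpa [le1] using h
  rw [h2] at h1
  simp at h1

theorem le2_spec {z : ℕ} (h : le2 z = true) : ∃ a b, ∀ i, z.testBit i = true → i = a ∨ i = b := by
  obtain ⟨a, ha⟩ := lowbit z
  obtain ⟨b, hb⟩ := le1_spec (z := z &&& (z - 1)) h
  refine ⟨a, b, fun i hi => ?_⟩
  by_cases hia : i = a
  · exact Or.inl hia
  · exact Or.inr (hb i (ha i hia hi))

theorem mem_toF {m : ℕ} {i : P} : i ∈ toF m ↔ m.testBit i.val = true := by
  simp [toF]

theorem card_inter_le {x y : ℕ} (h : le2 (x &&& y) = true) : (toF x ∩ toF y).card ≤ 2 := by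
  obtain ⟨a, b, hab⟩ := le2_spec h
  have h1 : (toF x ∩ toF y).image (fun i : P => i.val) ⊆ {a, b} := by
    intro i hi
    rw [Finset.mem_image] at hi
    obtain ⟨j, hj, rfl⟩ := hi
    rw [Finset.mem_inter, mem_toF, mem_toF] at hj
    have := hab j.val (by rw [Nat.testBit_and, hj.1, hj.2]; rfl)
    simpa using this
  have h2 : ((toF x ∩ toF y).image (fun i : P => i.val)).card = (toF x ∩ toF y).card :=
    Finset.card_image_of_injective _ Fin.val_injective
  rw [← h2]
  exact (Finset.card_le_card h1).trans Finset.card_le_two

theorem chk_pairwise : ∀ l : List ℕ, chk l = true → l.Pairwise (fun a b => le2 (a &&& b) = true) := by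
  intro l
  induction l with
  | nil => intro _; exact List.Pairwise.nil
  | cons a l ih =>
    intro h
    rw [chk, Bool.and_eq_true, List.all_eq_true] at h
    exact List.Pairwise.cons (fun b hb => h.1 b hb) (ih h.2)

theorem inter_le {x y : ℕ} (hx : x ∈ HL) (hy : y ∈ HL) (hxy : x ≠ y) :
    (toF x ∩ toF y).card ≤ 2 := by
  have h := chk_pairwise HL chk_HL
  haveI hs : Std.Symm (fun a b : ℕ => le2 (a &&& b) = true) := ⟨by
    intro a b hab
    rw [Nat.land_comm]; exact hab⟩
  exact card_inter_le (h.forall hx hy hxy)

theorem eq_of_three {x y : ℕ} (hx : x ∈ HL) (hy : y ∈ HL) {I : Finset P} (hI : 3 ≤ I.card)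
    (h1 : I ⊆ toF x) (h2 : I ⊆ toF y) : x = y := by
  by_contra hne
  have h3 := inter_le hx hy hne
  have h4 := Finset.card_le_card (Finset.subset_inter h1 h2)
  omega

/-! ### The matroid -/

def Ind (I : Finset P) : Prop := I.card ≤ 4 ∧ (I.card = 4 → ∀ m ∈ HL, ¬ I ⊆ toF m)

theorem ind_of_card_le_three {I : Finset P} (h : I.card ≤ 3) : Ind I :=
  ⟨by omega, fun h4 => by omega⟩

theorem ind_subset ⦃I J : Finset P⦄ (hJ : Ind J) (hIJ : I ⊆ J) : Ind I := by
  have hc := Finset.card_le_card hIJ
  refine ⟨hc.trans hJ.1, fun h4 m hm hI => ?_⟩
  have hJ4 : J.card = 4 := by have := hJ.1; omega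
  have : I = J := Finset.eq_of_subset_of_card_le hIJ (by omega)
  rw [this] at hI
  exact hJ.2 hJ4 m hm hI

theorem not_ind_insert {I : Finset P} {e : P} (he : e ∉ I) (hI : I.card = 3)
    (h : ¬ Ind (insert e I)) : ∃ m ∈ HL, insert e I ⊆ toF m := by
  by_contra hcon
  push Not at hcon
  refine h ⟨?_, fun _ m hm => hcon m hm⟩
  rw [Finset.card_insert_of_notMem he]; omega

theorem ind_aug ⦃I J : Finset P⦄ (_hI : Ind I) (hJ : Ind J) (hIJ : I.card < J.card) :
    ∃ e ∈ J, e ∉ I ∧ Ind (insert e I) := by
  obtain ⟨e, heJ, heI⟩ := Finset.exists_mem_notMem_of_card_lt_card hIJ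
  rcases Nat.lt_or_ge I.card 3 with h3 | h3
  · refine ⟨e, heJ, heI, ind_of_card_le_three ?_⟩
    rw [Finset.card_insert_of_notMem heI]; omega
  · have hJ4 := hJ.1
    have hI3 : I.card = 3 := by omega
    have hJ4' : J.card = 4 := by omega
    by_contra hcon
    push Not at hcon
    obtain ⟨m, hm, hsub⟩ := not_ind_insert heI hI3 (hcon e heJ heI)
    refine hJ.2 hJ4' m hm (fun x hx => ?_)
    by_cases hxI : x ∈ I
    · exact hsub (Finset.mem_insert_of_mem hxI)
    · obtain ⟨m', hm', hsub'⟩ := not_ind_insert hxI hI3 (hcon x hx hxI)
      have : m = m' := eq_of_three hm hm' hI3.ge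
        ((Finset.subset_insert _ _).trans hsub) ((Finset.subset_insert _ _).trans hsub')
      rw [this]
      exact hsub' (Finset.mem_insert_self _ _)

noncomputable def M : Matroid P :=
  (IndepMatroid.ofFinset Set.univ Ind (ind_of_card_le_three (by simp)) ind_subset ind_aug
    (fun _ _ => Set.subset_univ _)).matroid

theorem M_E : M.E = Set.univ := rfl

theorem M_indep (I : Finset P) : M.Indep (I : Set P) ↔ Ind I := by
  rw [M, IndepMatroid.matroid_indep_iff, IndepMatroid.ofFinset_indep]

theorem exists_finset (s : Set P) : ∃ I : Finset P, (I : Set P) = s :=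
  ⟨(Set.toFinite s).toFinset, by simp⟩

theorem paving (C : Set P) (hC : M.IsCircuit C) : M.eRk M.E ≤ C.encard := by
  have h1 : M.eRk M.E ≤ 4 := by
    rw [Matroid.eRk_le_iff]
    intro I _ hI
    obtain ⟨I, rfl⟩ := exists_finset I
    rw [M_indep] at hI
    rw [Set.encard_coe_eq_coe_finsetCard]
    exact_mod_cast hI.1
  refine h1.trans ?_
  obtain ⟨C, rfl⟩ := exists_finset C
  have h2 : ¬ M.Indep (C : Set P) := hC.dep.not_indep
  rw [M_indep] at h2
  rw [Set.encard_coe_eq_coe_finsetCard]
  have : 4 ≤ C.card := by
    by_contra hlt
    exact h2 (ind_of_card_le_three (by omega))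
  exact_mod_cast this

/-- Adding a point of the closure to an independent set not containing it. -/
theorem not_ind_of_mem_closure {I : Finset P} (hI : Ind I) {x : P} (hx : x ∈ M.closure (I : Set P))
    (hxI : x ∉ I) : ¬ Ind (insert x I) := by
  intro h
  rw [← M_indep] at h hI
  rw [Finset.coe_insert] at h
  have := (hI.insert_indep_iff_of_notMem (e := x) (by exact_mod_cast hxI)).mp h
  exact this.2 hx

theorem mem_closure_of_not_ind {I : Finset P} (hI : Ind I) {x : P} (hxI : x ∉ I)
    (h : ¬ Ind (insert x I)) : x ∈ M.closure (I : Set P) := by
  by_contra hx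
  apply h
  rw [← M_indep] at hI ⊢
  rw [Finset.coe_insert]
  exact (hI.insert_indep_iff_of_notMem (e := x) (by exact_mod_cast hxI)).mpr ⟨trivial, hx⟩

theorem isFlat_small {T : Finset P} (h3 : T.card ≤ 3)
    (h : T.card = 3 → ∀ m ∈ HL, ¬ T ⊆ toF m) : M.IsFlat (T : Set P) := by
  have hT : Ind T := ind_of_card_le_three h3
  rw [Matroid.isFlat_iff_closure_eq]
  refine Set.Subset.antisymm (fun x hx => ?_) (M.subset_closure _ (Set.subset_univ _))
  by_contra hxT
  have hxT' : x ∉ T := by exact_mod_cast hxT
  refine not_ind_of_mem_closure hT hx hxT' ⟨?_, fun h4 m hm hsub => ?_⟩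
  · rw [Finset.card_insert_of_notMem hxT']; omega
  · rw [Finset.card_insert_of_notMem hxT'] at h4
    exact h (by omega) m hm ((Finset.subset_insert _ _).trans hsub)

/-- A flat of rank `k` is the closure of an independent `k`-set. -/
theorem flat_basis {F : Set P} (hF : M.IsFlat F) {k : ℕ} (hk : M.eRk F = k) :
    ∃ I : Finset P, I.card = k ∧ Ind I ∧ (I : Set P) ⊆ F ∧ M.closure (I : Set P) = F := by
  obtain ⟨I, hI⟩ := M.exists_isBasis F hF.subset_ground
  obtain ⟨I, rfl⟩ := exists_finset I
  have h1 := hI.encard_eq_eRk
  rw [hk, Set.encard_coe_eq_coe_finsetCard] at h1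
  refine ⟨I, by exact_mod_cast h1, (M_indep I).mp hI.indep, hI.subset, ?_⟩
  rw [hI.closure_eq_closure, hF.closure]

def Level (k : ℕ) : Set (Set P) := {F : Set P | M.IsFlat F ∧ M.eRk F = (k : ℕ∞)}

theorem level_le_choose (k : ℕ) : (Level k).ncard ≤ Nat.choose 50 k := by
  have h : Level k ⊆ (fun I : Finset P => M.closure (I : Set P)) ''
      ((Finset.powersetCard k Finset.univ : Finset (Finset P)) : Set (Finset P)) := by
    rintro F ⟨hF, hk⟩
    obtain ⟨I, hI, -, -, hcl⟩ := flat_basis hF hk
    exact ⟨I, by simp [hI], hcl⟩
  refine (Set.ncard_le_ncard h (Set.toFinite _)).trans ((Set.ncard_image_le (Set.toFinite _)).trans ?_)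
  rw [Set.ncard_coe_finset, Finset.card_powersetCard]
  simp

theorem level_ge_four {k : ℕ} (hk : 4 ≤ k) : (Level k).ncard ≤ 1 := by
  have h : Level k ⊆ {Set.univ} := by
    rintro F ⟨hF, hFk⟩
    obtain ⟨I, hI, hInd, -, hcl⟩ := flat_basis hF hFk
    have h4 := hInd.1
    rw [Set.mem_singleton_iff, Set.eq_univ_iff_forall]
    intro x
    rw [← hcl]
    by_cases hxI : x ∈ I
    · exact M.mem_closure_of_mem (by exact_mod_cast hxI) (Set.subset_univ _)
    · refine mem_closure_of_not_ind hInd hxI (fun h => ?_)
      have := h.1
      rw [Finset.card_insert_of_notMem hxI] at this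
      omega
  exact (Set.ncard_le_ncard h (Set.toFinite _)).trans (by simp)

/-! ### Level three -/

/-- The triples contained in a large hyperplane. -/
def U : Finset (Finset P) := HL.toFinset.biUnion (fun m => Finset.powersetCard 3 (toF m))

theorem card_U : U.card = 18700 := by
  rw [U, Finset.card_biUnion]
  · simp only [Finset.card_powersetCard]
    rw [List.sum_toFinset _ nodup_HL]
    exact sum_HL
  · intro x hx y hy hxy
    rw [Finset.mem_coe, List.mem_toFinset] at hx hy
    rw [Function.onFun, Finset.disjoint_left]
    intro T hTx hTy
    rw [Finset.mem_powersetCard] at hTx hTy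
    exact hxy (eq_of_three hx hy hTx.2.ge hTx.1 hTy.1)

def small3 : Finset (Finset P) := Finset.powersetCard 3 Finset.univ \ U

theorem card_small3 : small3.card = 900 := by
  rw [small3, Finset.card_sdiff_of_subset, Finset.card_powersetCard, card_U]
  · simp only [Finset.card_univ, Fintype.card_fin]
    decide
  · intro T hT
    rw [U, Finset.mem_biUnion] at hT
    obtain ⟨m, -, hT⟩ := hT
    rw [Finset.mem_powersetCard] at hT ⊢
    exact ⟨Finset.subset_univ _, hT.2⟩

theorem level_three : (Level 3).ncard ≤ 1250 := by
  classical
  have h : Level 3 ⊆ (fun I : Finset P => (I : Set P)) ''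
      ((HL.toFinset.image toF ∪ small3 : Finset (Finset P)) : Set (Finset P)) := by
    rintro F ⟨hF, hk⟩
    obtain ⟨I, hI, hInd, hIF, hcl⟩ := flat_basis hF (k := 3) hk
    by_cases hex : ∃ m ∈ HL, I ⊆ toF m
    · obtain ⟨m, hm, hIm⟩ := hex
      refine ⟨toF m, ?_, ?_⟩
      · rw [Finset.mem_coe, Finset.mem_union]
        left
        exact Finset.mem_image_of_mem _ (List.mem_toFinset.mpr hm)
      · refine Set.Subset.antisymm (fun x hx => ?_) (fun x hx => ?_)
        · have hx' : x ∈ toF m := by exact_mod_cast hx
          by_cases hxI : x ∈ I
          · exact hIF (by exact_mod_cast hxI)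
          · rw [← hcl]
            refine mem_closure_of_not_ind hInd hxI (fun h => ?_)
            refine h.2 ?_ m hm ?_
            · rw [Finset.card_insert_of_notMem hxI, hI]
            · exact Finset.insert_subset hx' hIm
        · by_cases hxI : x ∈ I
          · exact_mod_cast hIm hxI
          · rw [← hcl] at hx
            obtain ⟨m', hm', hsub⟩ := not_ind_insert hxI hI (not_ind_of_mem_closure hInd hx hxI)
            have : m = m' := eq_of_three hm hm' hI.ge hIm ((Finset.subset_insert _ _).trans hsub)
            rw [this]
            exact_mod_cast hsub (Finset.mem_insert_self _ _)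
    · push Not at hex
      refine ⟨I, ?_, ?_⟩
      · rw [Finset.mem_coe, Finset.mem_union]
        right
        rw [small3, Finset.mem_sdiff, Finset.mem_powersetCard]
        refine ⟨⟨Finset.subset_univ _, hI⟩, fun hU => ?_⟩
        rw [U, Finset.mem_biUnion] at hU
        obtain ⟨m, hm, hT⟩ := hU
        exact hex m (List.mem_toFinset.mp hm) (Finset.mem_powersetCard.mp hT).1
      · have h1 : M.IsFlat (I : Set P) := isFlat_small hI.le (fun _ => hex)
        change (I : Set P) = F
        rw [← hcl, h1.closure]
  refine (Set.ncard_le_ncard h (Set.toFinite _)).trans ((Set.ncard_image_le (Set.toFinite _)).trans ?_)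
  rw [Set.ncard_coe_finset]
  refine (Finset.card_union_le _ _).trans ?_
  rw [card_small3]
  have h1 : (HL.toFinset.image toF).card ≤ 350 := by
    refine Finset.card_image_le.trans ((List.toFinset_card_le _).trans ?_)
    rw [length_HL]
  omega

/-! ### The antichain -/

def E1 : Finset P := Finset.univ.filter (fun i : P => i.val < 46)
def E2 : Finset P := Finset.univ.filter (fun i : P => 46 ≤ i.val)

theorem card_E1 : E1.card = 46 := by decide +kernel
theorem card_E2 : E2.card = 4 := by decide +kernel

theorem E2_inter {m : ℕ} (hm : m ∈ HL) {i j : P} (hi : i ∈ E2) (hj : j ∈ E2)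
    (him : i ∈ toF m) (hjm : j ∈ toF m) : i = j := by
  have h := chk46
  rw [List.all_eq_true] at h
  obtain ⟨a, ha⟩ := le1_spec (h m hm)
  simp only [E2, Finset.mem_filter, Finset.mem_univ, true_and] at hi hj
  rw [mem_toF] at him hjm
  have h1 := ha (i.val - 46) (by rw [Nat.testBit_shiftRight]; rw [← him]; congr 1; omega)
  have h2 := ha (j.val - 46) (by rw [Nat.testBit_shiftRight]; rw [← hjm]; congr 1; omega)
  apply Fin.ext
  omega

def pairs : Finset (Finset P) := Finset.powersetCard 2 E1

def triples : Finset (Finset P) :=
  (E1 ×ˢ Finset.powersetCard 2 E2).image (fun q => insert q.1 q.2)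

theorem disj12 {i : P} (h1 : i ∈ E1) (h2 : i ∈ E2) : False := by
  simp only [E1, E2, Finset.mem_filter, Finset.mem_univ, true_and] at h1 h2
  omega

theorem card_pairs : pairs.card = 1035 := by
  rw [pairs, Finset.card_powersetCard, card_E1]
  decide

theorem mem_triples {T : Finset P} (hT : T ∈ triples) :
    ∃ e ∈ E1, ∃ q ⊆ E2, q.card = 2 ∧ e ∉ q ∧ T = insert e q := by
  rw [triples, Finset.mem_image] at hT
  obtain ⟨⟨e, q⟩, heq, rfl⟩ := hT
  rw [Finset.mem_product, Finset.mem_powersetCard] at heq
  refine ⟨e, heq.1, q, heq.2.1, heq.2.2, fun h => disj12 heq.1 (heq.2.1 h), rfl⟩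

theorem card_triples : triples.card = 276 := by
  rw [triples, Finset.card_image_of_injOn]
  · rw [Finset.card_product, Finset.card_powersetCard, card_E1, card_E2]
    decide
  · rintro ⟨e, q⟩ h ⟨e', q'⟩ h' hee
    rw [Finset.mem_coe, Finset.mem_product, Finset.mem_powersetCard] at h h'
    dsimp only at h h' hee
    have hq : ∀ x, x ∈ q ↔ x ∈ q' := by
      intro x
      constructor
      · intro hx
        have h1 : x ∈ insert e' q' := hee ▸ Finset.mem_insert_of_mem hx
        rcases Finset.mem_insert.mp h1 with rfl | h2
        · exact (disj12 h'.1 (h.2.1 hx)).elim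
        · exact h2
      · intro hx
        have h1 : x ∈ insert e q := hee ▸ Finset.mem_insert_of_mem hx
        rcases Finset.mem_insert.mp h1 with rfl | h2
        · exact (disj12 h.1 (h'.2.1 hx)).elim
        · exact h2
    have he : e = e' := by
      have h1 : e ∈ insert e' q' := hee ▸ Finset.mem_insert_self _ _
      rcases Finset.mem_insert.mp h1 with h2 | h2
      · exact h2
      · exact (disj12 h.1 (h'.2.1 h2)).elim
    rw [Prod.mk.injEq]
    exact ⟨he, Finset.ext hq⟩

def AF : Finset (Finset P) := pairs ∪ triples

theorem card_of_mem_pairs {T : Finset P} (hT : T ∈ pairs) : T ⊆ E1 ∧ T.card = 2 := by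
  rw [pairs, Finset.mem_powersetCard] at hT; exact hT

theorem card_of_mem_triples {T : Finset P} (hT : T ∈ triples) : T.card = 3 := by
  obtain ⟨e, -, q, -, hq, heq, rfl⟩ := mem_triples hT
  rw [Finset.card_insert_of_notMem heq, hq]

theorem card_AF : AF.card = 1311 := by
  rw [AF, Finset.card_union_of_disjoint, card_pairs, card_triples]
  rw [Finset.disjoint_left]
  intro T h1 h2
  have h3 := (card_of_mem_pairs h1).2
  have h4 := card_of_mem_triples h2
  omega

def AA : Set (Set P) := (fun I : Finset P => (I : Set P)) '' (AF : Set (Finset P))

theorem ncard_AA : AA.ncard = 1311 := by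
  rw [AA, Set.ncard_image_of_injective _ Finset.coe_injective, Set.ncard_coe_finset, card_AF]

theorem AA_flat : ∀ F ∈ AA, M.IsFlat F := by
  rintro _ ⟨T, hT, rfl⟩
  rw [Finset.mem_coe, AF, Finset.mem_union] at hT
  rcases hT with hT | hT
  · have := (card_of_mem_pairs hT).2
    exact isFlat_small (by omega) (fun h => by omega)
  · refine isFlat_small (card_of_mem_triples hT).le (fun _ m hm hsub => ?_)
    obtain ⟨e, he, q, hq, hq2, heq, rfl⟩ := mem_triples hT
    obtain ⟨i, j, hij, rfl⟩ := Finset.card_eq_two.mp hq2
    have hi : i ∈ E2 := hq (by simp)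
    have hj : j ∈ E2 := hq (by simp)
    exact hij (E2_inter hm hi hj (hsub (by simp)) (hsub (by simp)))

theorem AA_antichain : IsAntichain (· ⊆ ·) AA := by
  rintro _ ⟨S, hS, rfl⟩ _ ⟨T, hT, rfl⟩ hne hsub
  rw [Finset.mem_coe, AF, Finset.mem_union] at hS hT
  have hsub' : S ⊆ T := by exact_mod_cast hsub
  have hne' : S ≠ T := fun h => hne (by rw [h])
  rcases hS with hS | hS <;> rcases hT with hT | hT
  · exact hne' (Finset.eq_of_subset_of_card_le hsub'
      (by rw [(card_of_mem_pairs hS).2, (card_of_mem_pairs hT).2]))
  · obtain ⟨e, he, q, hq, hq2, heq, rfl⟩ := mem_triples hT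
    have hS1 := card_of_mem_pairs hS
    have h1 : S ⊆ {e} := by
      intro x hx
      rcases Finset.mem_insert.mp (hsub' hx) with rfl | h2
      · simp
      · exact (disj12 (hS1.1 hx) (hq h2)).elim
    have := Finset.card_le_card h1
    rw [hS1.2] at this
    simp at this
  · have := Finset.card_le_card hsub'
    rw [card_of_mem_triples hS, (card_of_mem_pairs hT).2] at this
    omega
  · exact hne' (Finset.eq_of_subset_of_card_le hsub'
      (by rw [card_of_mem_triples hS, card_of_mem_triples hT]))

theorem level_lt (k : ℕ) : (Level k).ncard < AA.ncard := by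
  rw [ncard_AA]
  rcases Nat.lt_or_ge k 4 with hk | hk
  · interval_cases k
    · exact (level_le_choose 0).trans_lt (by decide)
    · exact (level_le_choose 1).trans_lt (by decide)
    · exact (level_le_choose 2).trans_lt (by decide)
    · exact level_three.trans_lt (by decide)
  · exact (level_ge_four hk).trans_lt (by decide)

end Pool.Agent.Helper8.Paving
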