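import Mathlib
import Pool.Agent.Helper8.DiffDiv

set_option autoImplicit false

namespace Pool.Agent.Helper8.ProdSum

open Finset

/-! ### the divisor bound -/

lemma two_pow_bound {δ : ℝ} (hδ : 0 < δ) (a : ℕ) :
    ((a : ℝ) + 1) ≤ (1 + 1 / (δ * Real.log 2)) * (2 : ℝ) ^ ((a : ℝ) * δ) := by
  have hlog : 0 < Real.log 2 := Real.log_pos (by norm_num)
  have h1 : (a : ℝ) * δ * Real.log 2 + 1 ≤ (2 : ℝ) ^ ((a : ℝ) * δ) := by
    rw [Real.rpow_def_of_pos (by norm_num : (0:ℝ) < 2)]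
    have := Real.add_one_le_exp (Real.log 2 * ((a : ℝ) * δ))
    linarith
  have h2 : (a : ℝ) + 1 ≤ (1 + 1 / (δ * Real.log 2)) * ((a : ℝ) * δ * Real.log 2 + 1) := by
    have e : (1 + 1 / (δ * Real.log 2)) * ((a : ℝ) * δ * Real.log 2 + 1) =
        (a : ℝ) * δ * Real.log 2 + 1 + a + 1 / (δ * Real.log 2) := by
      field_simp
      ring
    rw [e]
    have h3 : 0 ≤ (a : ℝ) * δ * Real.log 2 := by positivity
    have h4 : 0 ≤ 1 / (δ * Real.log 2) := by positivity
    linarith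
  refine h2.trans ?_
  apply mul_le_mul_of_nonneg_left h1
  positivity

lemma divisor_bound {δ : ℝ} (hδ : 0 < δ) :
    ∃ C : ℝ, 0 < C ∧ ∀ m : ℕ, m ≠ 0 → (m.divisors.card : ℝ) ≤ C * (m : ℝ) ^ δ := by
  have hlog : 0 < Real.log 2 := Real.log_pos (by norm_num)
  set C₀ : ℝ := 1 + 1 / (δ * Real.log 2) with hC₀
  have hC1 : 1 ≤ C₀ := by
    rw [hC₀]
    have : 0 ≤ 1 / (δ * Real.log 2) := by positivity
    linarith
  obtain ⟨Bd, hBd⟩ := exists_nat_ge ((2 : ℝ) ^ (1 / δ))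
  refine ⟨C₀ ^ Bd, by positivity, fun m hm => ?_⟩
  rw [Nat.card_divisors hm]
  push_cast
  have hm2 : (m : ℝ) ^ δ = ∏ p ∈ m.primeFactors, ((p : ℝ) ^ ((m.factorization p : ℝ) * δ)) := by
    have h1 : (m : ℝ) = ∏ p ∈ m.primeFactors, ((p : ℝ) ^ (m.factorization p : ℝ)) := by
      conv_lhs => rw [← Nat.prod_factorization_pow_eq_self hm]
      rw [Finsupp.prod]
      push_cast
      rw [Nat.support_factorization]
      refine Finset.prod_congr rfl fun p _ => ?_
      rw [Real.rpow_natCast]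
    conv_lhs => rw [h1]
    rw [← Real.finset_prod_rpow _ _ (fun p _ => by positivity)]
    refine Finset.prod_congr rfl fun p _ => ?_
    rw [← Real.rpow_mul (Nat.cast_nonneg p)]
  rw [hm2]
  have hterm : ∀ p ∈ m.primeFactors, ((m.factorization p : ℝ) + 1) ≤
      (if p < Bd then C₀ else 1) * ((p : ℝ) ^ ((m.factorization p : ℝ) * δ)) := by
    intro p hp
    have hp' := Nat.prime_of_mem_primeFactors hp
    have hp2 : (2 : ℝ) ≤ p := by exact_mod_cast hp'.two_le
    set a := m.factorization p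
    split_ifs with hpB
    · refine (two_pow_bound hδ a).trans ?_
      apply mul_le_mul_of_nonneg_left _ (by linarith)
      apply Real.rpow_le_rpow (by norm_num) hp2
      positivity
    · push Not at hpB
      rw [one_mul]
      have h1 : (2 : ℝ) ^ (1 / δ) ≤ p := hBd.trans (by exact_mod_cast hpB)
      have h2 : (2 : ℝ) ≤ (p : ℝ) ^ δ := by
        have := Real.rpow_le_rpow (by positivity) h1 hδ.le
        rwa [← Real.rpow_mul (by norm_num), one_div, inv_mul_cancel₀ hδ.ne', Real.rpow_one] at this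
      have h3 : (p : ℝ) ^ ((a : ℝ) * δ) = ((p : ℝ) ^ δ) ^ a := by
        rw [mul_comm, Real.rpow_mul (by positivity), Real.rpow_natCast]
      rw [h3]
      have h4 : (2 : ℝ) ^ a ≤ ((p : ℝ) ^ δ) ^ a := pow_le_pow_left₀ (by norm_num) h2 a
      have h5 : (a : ℝ) + 1 ≤ (2 : ℝ) ^ a := by
        have : a + 1 ≤ 2 ^ a := Nat.lt_two_pow_self
        exact_mod_cast this
      linarith
  have h6 : ∏ p ∈ m.primeFactors, ((m.factorization p : ℝ) + 1) ≤
      ∏ p ∈ m.primeFactors, ((if p < Bd then C₀ else 1) *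
        ((p : ℝ) ^ ((m.factorization p : ℝ) * δ))) :=
    Finset.prod_le_prod (fun p _ => by positivity) hterm
  rw [Finset.prod_mul_distrib] at h6
  refine h6.trans ?_
  apply mul_le_mul_of_nonneg_right _ (Finset.prod_nonneg fun p _ => by positivity)
  rw [← Finset.prod_filter, Finset.prod_const]
  apply pow_le_pow_right₀ hC1
  have : (m.primeFactors.filter (fun p => p < Bd)) ⊆ range Bd := by
    intro p hp
    rw [mem_filter] at hp
    exact mem_range.2 hp.2
  have := card_le_card this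
  rwa [card_range] at this

/-! ### sums over multisets -/

lemma multiset_sum_bound {σ : ℝ} (hσ : 1 < σ) :
    ∃ C : ℝ, 0 < C ∧ ∀ 𝒵 : Finset (Multiset ℕ), (∀ Z ∈ 𝒵, ∀ z ∈ Z, 2 ≤ z) →
      ∑ Z ∈ 𝒵, ((Z.prod : ℕ) : ℝ) ^ (-σ) ≤ C := by
  have hsum : Summable (fun n : ℕ => (n : ℝ) ^ (-σ)) := Real.summable_nat_rpow.2 (by linarith)
  set ζ : ℝ := ∑' n : ℕ, (n : ℝ) ^ (-σ) with hζ
  refine ⟨Real.exp (2 * ζ), Real.exp_pos _, fun 𝒵 h2 => ?_⟩
  classical
  -- bounds
  obtain ⟨M, hM⟩ : ∃ M, ∀ Z ∈ 𝒵, ∀ z ∈ Z, z ≤ M := by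
    refine ⟨𝒵.sup (fun Z => Z.sum), fun Z hZ z hz => ?_⟩
    exact (Multiset.single_le_sum (fun _ _ => Nat.zero_le _) z hz).trans
      (Finset.le_sup (f := fun Z : Multiset ℕ => Z.sum) hZ)
  obtain ⟨Kc, hK⟩ : ∃ Kc, ∀ Z ∈ 𝒵, Multiset.card Z ≤ Kc :=
    ⟨𝒵.sup (fun Z => Multiset.card Z), fun Z hZ =>
      Finset.le_sup (f := fun Z : Multiset ℕ => Multiset.card Z) hZ⟩
  set I : Finset ℕ := Finset.Icc 2 M with hI
  have hsub : ∀ Z ∈ 𝒵, Z.toFinset ⊆ I := by
    intro Z hZ z hz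
    rw [Multiset.mem_toFinset] at hz
    rw [hI, mem_Icc]
    exact ⟨h2 Z hZ z hz, hM Z hZ z hz⟩
  let e : Multiset ℕ → (I → ℕ) := fun Z i => Z.count (i : ℕ)
  have hterm : ∀ Z ∈ 𝒵, ((Z.prod : ℕ) : ℝ) ^ (-σ) = ∏ i : I, (((i : ℕ) : ℝ) ^ (-σ)) ^ (e Z i) := by
    intro Z hZ
    have h1 : Z.prod = ∏ i ∈ I, i ^ Z.count i := Finset.prod_multiset_count_of_subset Z I (hsub Z hZ)
    rw [h1]
    push_cast
    rw [← Real.finset_prod_rpow _ _ (fun i _ => by positivity)]
    rw [← Finset.prod_coe_sort I]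
    refine Finset.prod_congr rfl fun i _ => ?_
    rw [← Real.rpow_natCast, ← Real.rpow_natCast, ← Real.rpow_mul (Nat.cast_nonneg _),
      ← Real.rpow_mul (Nat.cast_nonneg _), mul_comm]
  have hinj : Set.InjOn e (𝒵 : Set (Multiset ℕ)) := by
    intro Z hZ Z' hZ' hee
    ext z
    by_cases hz : z ∈ I
    · exact congrFun hee ⟨z, hz⟩
    · rw [Multiset.count_eq_zero_of_notMem, Multiset.count_eq_zero_of_notMem]
      · intro h; exact hz (hsub Z' hZ' (Multiset.mem_toFinset.2 h))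
      · intro h; exact hz (hsub Z hZ (Multiset.mem_toFinset.2 h))
  have himg : 𝒵.image e ⊆ Fintype.piFinset (fun _ : I => range (Kc + 1)) := by
    intro f hf
    rw [mem_image] at hf
    obtain ⟨Z, hZ, rfl⟩ := hf
    rw [Fintype.mem_piFinset]
    intro i
    rw [mem_range]
    have := Multiset.count_le_card (i : ℕ) Z
    have := hK Z hZ
    change Z.count (i : ℕ) < Kc + 1
    omega
  calc ∑ Z ∈ 𝒵, ((Z.prod : ℕ) : ℝ) ^ (-σ)
      = ∑ Z ∈ 𝒵, ∏ i : I, (((i : ℕ) : ℝ) ^ (-σ)) ^ (e Z i) := Finset.sum_congr rfl hterm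
    _ = ∑ f ∈ 𝒵.image e, ∏ i : I, (((i : ℕ) : ℝ) ^ (-σ)) ^ (f i) := by
        rw [Finset.sum_image hinj]
    _ ≤ ∑ f ∈ Fintype.piFinset (fun _ : I => range (Kc + 1)), ∏ i : I, (((i : ℕ) : ℝ) ^ (-σ)) ^ (f i) :=
        Finset.sum_le_sum_of_subset_of_nonneg himg fun f _ _ =>
          Finset.prod_nonneg fun i _ => by positivity
    _ = ∏ i : I, ∑ k ∈ range (Kc + 1), (((i : ℕ) : ℝ) ^ (-σ)) ^ k := by
        rw [Finset.prod_univ_sum]
    _ ≤ ∏ i : I, Real.exp (2 * ((i : ℕ) : ℝ) ^ (-σ)) := by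
        apply Finset.prod_le_prod
        · intro i _; exact Finset.sum_nonneg fun k _ => by positivity
        · intro i _
          have hi : 2 ≤ (i : ℕ) := (mem_Icc.1 i.2).1
          set x : ℝ := ((i : ℕ) : ℝ) ^ (-σ) with hx
          have hx0 : 0 ≤ x := by positivity
          have hx2 : x ≤ 1 / 2 := by
            have h3 : x ≤ (2 : ℝ) ^ (-σ) :=
              Real.rpow_le_rpow_of_nonpos (by norm_num) (by exact_mod_cast hi) (by linarith)
            have h4 : (2 : ℝ) ^ (-σ) ≤ (2 : ℝ) ^ (-1 : ℝ) :=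
              Real.rpow_le_rpow_of_exponent_le (by norm_num) (by linarith)
            rw [Real.rpow_neg_one] at h4
            linarith
          have h5 : ∑ k ∈ range (Kc + 1), x ^ k ≤ (1 - x)⁻¹ := by
            have hs : Summable (fun k : ℕ => x ^ k) := summable_geometric_of_lt_one hx0 (by linarith)
            rw [← tsum_geometric_of_lt_one hx0 (by linarith)]
            exact hs.sum_le_tsum _ (fun k _ => by positivity)
          have h6 : (1 - x)⁻¹ ≤ 1 + 2 * x := by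
            rw [inv_le_comm₀ (by linarith) (by linarith)]
            rw [inv_le_iff_one_le_mul₀ (by linarith)]
            nlinarith
          have h7 := Real.add_one_le_exp (2 * x)
          linarith
    _ = Real.exp (∑ i : I, 2 * ((i : ℕ) : ℝ) ^ (-σ)) := by
        rw [Real.exp_sum]
    _ ≤ Real.exp (2 * ζ) := by
        apply Real.exp_le_exp.2
        rw [← Finset.mul_sum]
        apply mul_le_mul_of_nonneg_left _ (by norm_num)
        rw [Finset.sum_coe_sort I (fun i : ℕ => (i : ℝ) ^ (-σ))]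
        exact hsum.sum_le_tsum _ (fun i _ => by positivity)

/-! ### structure of solutions for prime `n` -/

lemma sum_le_prod (Z : Multiset ℕ) (h : ∀ z ∈ Z, 2 ≤ z) : Z.sum + 1 ≤ Z.prod + Multiset.card Z := by
  induction Z using Multiset.induction_on with
  | empty => simp
  | cons a Z ih =>
    have ih := ih (fun z hz => h z (Multiset.mem_cons_of_mem hz))
    have ha := h a (Multiset.mem_cons_self a Z)
    have hp : 1 ≤ Z.prod := by
      rw [Nat.one_le_iff_ne_zero]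
      intro h0
      rw [Multiset.prod_eq_zero_iff] at h0
      have := h 0 (Multiset.mem_cons_of_mem h0)
      omega
    rw [Multiset.sum_cons, Multiset.prod_cons, Multiset.card_cons]
    nlinarith

lemma two_sum_le_prod (Z : Multiset ℕ) (h : ∀ z ∈ Z, 2 ≤ z) (hc : 2 ≤ Multiset.card Z) :
    2 * Z.sum ≤ Z.prod + 2 * Multiset.card Z := by
  obtain ⟨a, Z', rfl⟩ : ∃ a Z', Z = a ::ₘ Z' := by
    have : Z ≠ 0 := by rintro rfl; simp at hc
    obtain ⟨a, ha⟩ := Multiset.exists_mem_of_ne_zero this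
    exact ⟨a, Z.erase a, (Multiset.cons_erase ha).symm⟩
  have hne : Z' ≠ 0 := by rintro rfl; simp at hc
  obtain ⟨b, hb⟩ := Multiset.exists_mem_of_ne_zero hne
  have h1 := sum_le_prod Z' (fun z hz => h z (Multiset.mem_cons_of_mem hz))
  have ha := h a (Multiset.mem_cons_self a Z')
  have hp : 2 ≤ Z'.prod := by
    have hb2 := h b (Multiset.mem_cons_of_mem hb)
    have hdvd : b ∣ Z'.prod := Multiset.dvd_prod hb
    have hne0 : Z'.prod ≠ 0 := by
      intro h0
      rw [Multiset.prod_eq_zero_iff] at h0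
      have := h 0 (Multiset.mem_cons_of_mem h0)
      omega
    exact hb2.trans (Nat.le_of_dvd (Nat.pos_of_ne_zero hne0) hdvd)
  rw [Multiset.sum_cons, Multiset.prod_cons, Multiset.card_cons]
  nlinarith

lemma card_two_le_sum (Z : Multiset ℕ) (h : ∀ z ∈ Z, 2 ≤ z) : 2 * Multiset.card Z ≤ Z.sum := by
  induction Z using Multiset.induction_on with
  | empty => simp
  | cons a Z ih =>
    have ih := ih (fun z hz => h z (Multiset.mem_cons_of_mem hz))
    have ha := h a (Multiset.mem_cons_self a Z)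
    rw [Multiset.sum_cons, Multiset.card_cons]
    omega

structure IsZ (p : ℕ) (Z : Multiset ℕ) : Prop where
  two : ∀ z ∈ Z, 2 ≤ z
  lt : p < Z.prod
  le : Z.prod ≤ 4 * p
  dvd : (Z.prod - p) ∣ (Z.prod + Z.sum - 1 - Multiset.card Z)

def Sol (n : ℕ) : Set (Multiset ℕ) :=
  {s : Multiset ℕ | Multiset.card s = n ∧ (∀ x ∈ s, 0 < x) ∧ s.prod = n * s.sum}

lemma key {p : ℕ} (hp : p.Prime) {X : Multiset ℕ} (hX : X ∈ Sol p) :
    ∃ Z : Multiset ℕ, ∃ t : ℕ, IsZ p Z ∧ X = (p * t) ::ₘ (Z + Multiset.replicate (p - 1 - Multiset.card Z) 1) ∧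
      t * (Z.prod - p) = Z.sum + p - 1 - Multiset.card Z := by
  obtain ⟨hcard, hpos, heq⟩ := hX
  have hp2 := hp.two_le
  have hdvd : p ∣ X.prod := ⟨X.sum, heq⟩
  obtain ⟨j, hj, hpj⟩ := (Nat.prime_iff.1 hp).exists_mem_multiset_dvd hdvd
  obtain ⟨t, rfl⟩ := hpj
  obtain ⟨Y, rfl⟩ := Multiset.exists_cons_of_mem hj
  have htpos : 0 < t := by
    have := hpos _ (Multiset.mem_cons_self _ _)
    exact Nat.pos_of_mul_pos_left this |> fun h => h
  classical
  set Z := Y.filter (fun y => ¬ y = 1) with hZ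
  have hYZ : Y = Z + Multiset.replicate (Y.count 1) 1 := by
    have h1 := Multiset.filter_add_not (fun y => y = 1) Y
    rw [Multiset.filter_eq'] at h1
    rw [hZ]
    conv_lhs => rw [← h1]
    rw [add_comm]
  set c := Y.count 1 with hc
  have hZ2 : ∀ z ∈ Z, 2 ≤ z := by
    intro z hz
    rw [hZ, Multiset.mem_filter] at hz
    have := hpos z (Multiset.mem_cons_of_mem hz.1)
    omega
  have hYc : Multiset.card Y = Multiset.card Z + c := by
    rw [hYZ]; simp
  have hYs : Y.sum = Z.sum + c := by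
    rw [hYZ]; simp
  have hYp : Y.prod = Z.prod := by
    rw [hYZ]; simp
  rw [Multiset.card_cons] at hcard
  have hc' : c = p - 1 - Multiset.card Z := by omega
  have hkc : Multiset.card Z ≤ p - 1 := by omega
  rw [Multiset.prod_cons, Multiset.sum_cons, hYp, hYs] at heq
  have heq2 : t * Z.prod = p * t + (Z.sum + c) := by
    have : p * (t * Z.prod) = p * (p * t + (Z.sum + c)) := by rw [← heq]; ring
    exact Nat.eq_of_mul_eq_mul_left hp.pos this
  have hsc := card_two_le_sum Z hZ2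
  have hlt : p < Z.prod := by
    by_contra hcon
    push Not at hcon
    have h1 : t * Z.prod ≤ t * p := Nat.mul_le_mul_left t hcon
    have h2 : Z.sum + c ≤ 0 := by nlinarith
    have h3 : Multiset.card Z = 0 := by omega
    have h4 : c = 0 := by omega
    omega
  obtain ⟨r, hr⟩ := Nat.exists_eq_add_of_lt hlt
  have hsub : Z.prod - p = r + 1 := by omega
  have hteq : t * (r + 1) = Z.sum + c := by
    rw [hr] at heq2
    nlinarith
  have hfin : t * (Z.prod - p) = Z.sum + p - 1 - Multiset.card Z := by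
    rw [hsub, hteq]; omega
  refine ⟨Z, t, ⟨hZ2, hlt, ?_, ?_⟩, ?_, hfin⟩
  · -- R ≤ 4p
    rcases Nat.lt_or_ge (Multiset.card Z) 2 with hk | hk
    · interval_cases hcz : Multiset.card Z
      · rw [Multiset.card_eq_zero] at hcz
        rw [hcz] at hlt
        simp at hlt
        omega
      · obtain ⟨a, ha⟩ := Multiset.card_eq_one.1 hcz
        rw [ha] at hteq hr hlt ⊢
        simp only [Multiset.prod_singleton, Multiset.sum_singleton] at hteq hr hlt ⊢
        have ht2 : 2 ≤ t := by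
          by_contra h
          have : t = 1 := by omega
          subst this
          omega
        have : 2 * (r + 1) ≤ t * (r + 1) := Nat.mul_le_mul_right _ ht2
        omega
    · have h1 := two_sum_le_prod Z hZ2 hk
      have h2 : 1 * (r + 1) ≤ t * (r + 1) := Nat.mul_le_mul_right _ htpos
      omega
  · rw [hsub]
    refine ⟨t + 1, ?_⟩
    have : (r + 1) * (t + 1) = t * (r + 1) + (r + 1) := by ring
    rw [this, hteq]
    omega
  · rw [hYZ, ← hc', add_comm]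

lemma exists_inj {p : ℕ} (hp : p.Prime) (hfin : (Sol p).Finite) :
    ∃ 𝒵 : Finset (Multiset ℕ), (∀ Z ∈ 𝒵, IsZ p Z) ∧ (Sol p).ncard ≤ 𝒵.card := by
  classical
  let zf : Multiset ℕ → Multiset ℕ := fun X =>
    if h : X ∈ Sol p then (key hp h).choose else 0
  refine ⟨hfin.toFinset.image zf, ?_, ?_⟩
  · intro Z hZ
    rw [mem_image] at hZ
    obtain ⟨X, hX, rfl⟩ := hZ
    rw [Set.Finite.mem_toFinset] at hX
    simp only [zf, dif_pos hX]
    obtain ⟨t, h, _⟩ := (key hp hX).choose_spec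
    exact h
  · rw [Set.ncard_eq_toFinset_card _ hfin, Finset.card_image_of_injOn]
    intro X hX X' hX' heq
    rw [SetLike.mem_coe, Set.Finite.mem_toFinset] at hX hX'
    simp only [zf, dif_pos hX, dif_pos hX'] at heq
    obtain ⟨t, h1, h2, h3⟩ := (key hp hX).choose_spec
    obtain ⟨t', h1', h2', h3'⟩ := (key hp hX').choose_spec
    rw [← heq] at h1' h2' h3'
    have hpos : 0 < (key hp hX).choose.prod - p := by
      have := h1.lt; omega
    have ht : t = t' := Nat.eq_of_mul_eq_mul_right hpos (h3.trans h3'.symm)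
    rw [h2, h2', ht]

theorem main :
    ¬ (∃ ε : ℝ, 0 < ε ∧ ∃ N : ℕ, ∀ n : ℕ, N ≤ n →
      (n : ℝ) ^ ε <
        (({s : Multiset ℕ | Multiset.card s = n ∧ (∀ x ∈ s, 0 < x) ∧
            s.prod = n * s.sum}.ncard : ℕ) : ℝ)) := by
  rintro ⟨ε, hε, N, H⟩
  classical
  set δ : ℝ := ε / 2 with hδdef
  have hδ : 0 < δ := by positivity
  obtain ⟨C₁, hC₁, hdiv⟩ := divisor_bound (half_pos hδ)
  obtain ⟨C₂, hC₂, hmul⟩ := multiset_sum_bound (σ := 1 + δ / 2) (by linarith)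
  set C : ℝ := 4 ^ (1 + δ) * (C₁ * 2 ^ (δ / 2)) * C₂ with hC
  obtain ⟨P, hP, hNP, hL⟩ := DiffDiv.exists_P (N + 1) (C + 1)
  have hfin : ∀ p ∈ P, (Sol p).Finite := by
    intro p hp
    have h1 := H p (by have := hNP p hp; omega)
    have h2 : (0 : ℝ) < ((Sol p).ncard : ℝ) := lt_of_le_of_lt (by positivity) h1
    have h3 : 0 < (Sol p).ncard := by exact_mod_cast h2
    exact Set.finite_of_ncard_pos h3
  have hex : ∀ p ∈ P, ∃ 𝒵 : Finset (Multiset ℕ), (∀ Z ∈ 𝒵, IsZ p Z) ∧ (Sol p).ncard ≤ 𝒵.card :=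
    fun p hp => exists_inj (hP p hp) (hfin p hp)
  choose! 𝒵 h𝒵 hcard using hex
  set U : Finset (Multiset ℕ) := P.biUnion 𝒵 with hU
  -- lower bound
  have hlow : ∑ p ∈ P, (1 : ℝ) / p ≤ ∑ p ∈ P, ((𝒵 p).card : ℝ) * (p : ℝ) ^ (-(1 + δ)) := by
    refine Finset.sum_le_sum fun p hp => ?_
    have hp0 : (1 : ℝ) ≤ p := by exact_mod_cast (hP p hp).one_lt.le
    have hp0' : (0 : ℝ) < p := by linarith
    have h1 := H p (by have := hNP p hp; omega)
    have h2 : ((Sol p).ncard : ℝ) ≤ ((𝒵 p).card : ℝ) := by exact_mod_cast hcard p hp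
    have h3 : (p : ℝ) ^ ε ≤ ((𝒵 p).card : ℝ) := h1.le.trans h2
    have h4 : (p : ℝ) ^ ε * (p : ℝ) ^ (-(1 + δ)) ≤ ((𝒵 p).card : ℝ) * (p : ℝ) ^ (-(1 + δ)) :=
      mul_le_mul_of_nonneg_right h3 (by positivity)
    refine le_trans ?_ h4
    rw [← Real.rpow_add hp0', one_div, ← Real.rpow_neg_one]
    apply Real.rpow_le_rpow_of_exponent_le hp0
    rw [hδdef]; linarith
  -- upper bound
  have hup : ∑ p ∈ P, ((𝒵 p).card : ℝ) * (p : ℝ) ^ (-(1 + δ)) ≤ C := by
    have h1 : ∀ p ∈ P, ((𝒵 p).card : ℝ) * (p : ℝ) ^ (-(1 + δ)) ≤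
        ∑ Z ∈ U, (if Z ∈ 𝒵 p then (4 : ℝ) ^ (1 + δ) * ((Z.prod : ℕ) : ℝ) ^ (-(1 + δ)) else 0) := by
      intro p hp
      have hsub : U.filter (fun Z => Z ∈ 𝒵 p) = 𝒵 p := by
        ext Z
        rw [mem_filter, hU, mem_biUnion]
        exact ⟨fun h => h.2, fun h => ⟨⟨p, hp, h⟩, h⟩⟩
      rw [← Finset.sum_filter, hsub, ← nsmul_eq_mul, ← Finset.sum_const]
      refine Finset.sum_le_sum fun Z hZ => ?_
      have hz := h𝒵 p hp Z hZ
      have hp0 : (0 : ℝ) < p := by exact_mod_cast (hP p hp).pos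
      have hR : (0 : ℝ) < ((Z.prod : ℕ) : ℝ) := by
        have := hz.lt
        exact_mod_cast (by omega : 0 < Z.prod)
      have hle : ((Z.prod : ℕ) : ℝ) / 4 ≤ p := by
        have : ((Z.prod : ℕ) : ℝ) ≤ 4 * p := by exact_mod_cast hz.le
        linarith
      have h5 : (p : ℝ) ^ (-(1 + δ)) ≤ (((Z.prod : ℕ) : ℝ) / 4) ^ (-(1 + δ)) :=
        Real.rpow_le_rpow_of_nonpos (by positivity) hle (by linarith)
      refine h5.trans (le_of_eq ?_)
      rw [Real.div_rpow hR.le (by norm_num), Real.rpow_neg (by norm_num : (0:ℝ) ≤ 4)]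
      field_simp
    refine (Finset.sum_le_sum h1).trans ?_
    rw [Finset.sum_comm]
    have h2 : ∀ Z ∈ U, ∑ p ∈ P, (if Z ∈ 𝒵 p then (4 : ℝ) ^ (1 + δ) * ((Z.prod : ℕ) : ℝ) ^ (-(1 + δ)) else 0)
        ≤ 4 ^ (1 + δ) * (C₁ * 2 ^ (δ / 2)) * ((Z.prod : ℕ) : ℝ) ^ (-(1 + δ / 2)) := by
      intro Z hZU
      rw [← Finset.sum_filter, Finset.sum_const, nsmul_eq_mul]
      rw [hU, mem_biUnion] at hZU
      obtain ⟨p₀, hp₀, hZ₀⟩ := hZU
      have hz₀ := h𝒵 p₀ hp₀ Z hZ₀
      have hR0 : 0 < Z.prod := by have := hz₀.lt; omega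
      have hR : (0 : ℝ) < ((Z.prod : ℕ) : ℝ) := by exact_mod_cast hR0
      set m := Z.prod + Z.sum - 1 - Multiset.card Z with hm
      have hs1 := sum_le_prod Z hz₀.two
      have hs2 := card_two_le_sum Z hz₀.two
      have hp₀1 := (hP p₀ hp₀).one_lt
      have hlt := hz₀.lt
      have hm0 : m ≠ 0 := by omega
      have hm2 : m ≤ 2 * Z.prod := by omega
      have hcardP : (P.filter (fun p => Z ∈ 𝒵 p)).card ≤ m.divisors.card := by
        apply Finset.card_le_card_of_injOn (fun p => Z.prod - p)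
        · intro p hp
          rw [SetLike.mem_coe, mem_filter] at hp
          rw [SetLike.mem_coe, Nat.mem_divisors]
          exact ⟨(h𝒵 p hp.1 Z hp.2).dvd, hm0⟩
        · intro p hp q hq hpq
          rw [SetLike.mem_coe, mem_filter] at hp hq
          have a1 := (h𝒵 p hp.1 Z hp.2).lt
          have a2 := (h𝒵 q hq.1 Z hq.2).lt
          simp only at hpq
          omega
      have h3 : ((P.filter (fun p => Z ∈ 𝒵 p)).card : ℝ) ≤ C₁ * 2 ^ (δ / 2) * ((Z.prod : ℕ) : ℝ) ^ (δ / 2) := by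
        calc ((P.filter (fun p => Z ∈ 𝒵 p)).card : ℝ) ≤ (m.divisors.card : ℝ) := by exact_mod_cast hcardP
          _ ≤ C₁ * (m : ℝ) ^ (δ / 2) := hdiv m hm0
          _ ≤ C₁ * (2 * ((Z.prod : ℕ) : ℝ)) ^ (δ / 2) := by
              apply mul_le_mul_of_nonneg_left _ hC₁.le
              apply Real.rpow_le_rpow (Nat.cast_nonneg m) (by exact_mod_cast hm2) (by positivity)
          _ = C₁ * 2 ^ (δ / 2) * ((Z.prod : ℕ) : ℝ) ^ (δ / 2) := by
              rw [Real.mul_rpow (by norm_num) hR.le]; ring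
      calc ((P.filter (fun p => Z ∈ 𝒵 p)).card : ℝ) * ((4 : ℝ) ^ (1 + δ) * ((Z.prod : ℕ) : ℝ) ^ (-(1 + δ)))
          ≤ (C₁ * 2 ^ (δ / 2) * ((Z.prod : ℕ) : ℝ) ^ (δ / 2)) *
            ((4 : ℝ) ^ (1 + δ) * ((Z.prod : ℕ) : ℝ) ^ (-(1 + δ))) :=
            mul_le_mul_of_nonneg_right h3 (by positivity)
        _ = 4 ^ (1 + δ) * (C₁ * 2 ^ (δ / 2)) * (((Z.prod : ℕ) : ℝ) ^ (δ / 2) *
              ((Z.prod : ℕ) : ℝ) ^ (-(1 + δ))) := by ring
        _ = 4 ^ (1 + δ) * (C₁ * 2 ^ (δ / 2)) * ((Z.prod : ℕ) : ℝ) ^ (-(1 + δ / 2)) := by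
            rw [← Real.rpow_add hR]
            congr 2
            ring
    refine (Finset.sum_le_sum h2).trans ?_
    rw [← Finset.mul_sum, hC]
    apply mul_le_mul_of_nonneg_left _ (by positivity)
    apply hmul
    intro Z hZU z hz
    rw [hU, mem_biUnion] at hZU
    obtain ⟨p₀, hp₀, hZ₀⟩ := hZU
    exact (h𝒵 p₀ hp₀ Z hZ₀).two z hz
  unfold DiffDiv.LL at hL
  linarith

end Pool.Agent.Helper8.ProdSum
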