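import Mathlib

set_option autoImplicit false

namespace Pool.Agent.Helper8.StdGr

open Equiv Equiv.Perm Finset

/-- rotation of the interval `[a,e)` by `m`. -/
def Rf (a e m t : ℕ) : ℕ :=
  if a ≤ t ∧ t < e then (if t + m < e then t + m else t + m + a - e) else t

theorem Rf_out (a e m t : ℕ) (h : ¬ (a ≤ t ∧ t < e)) : Rf a e m t = t := by
  unfold Rf; rw [if_neg h]

theorem Rf_lo (a e m t : ℕ) (h : a ≤ t ∧ t < e) (h2 : t + m < e) : Rf a e m t = t + m := by
  unfold Rf; rw [if_pos h, if_pos h2]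

theorem Rf_hi (a e m t : ℕ) (h : a ≤ t ∧ t < e) (h2 : ¬ t + m < e) :
    Rf a e m t = t + m + a - e := by
  unfold Rf; rw [if_pos h, if_neg h2]

theorem Rf_cases (a e m t : ℕ) :
    (¬ (a ≤ t ∧ t < e) ∧ Rf a e m t = t) ∨
    ((a ≤ t ∧ t < e) ∧ t + m < e ∧ Rf a e m t = t + m) ∨
    ((a ≤ t ∧ t < e) ∧ ¬ t + m < e ∧ Rf a e m t = t + m + a - e) := by
  by_cases h : a ≤ t ∧ t < e
  · by_cases h2 : t + m < e
    · exact Or.inr (Or.inl ⟨h, h2, Rf_lo _ _ _ _ h h2⟩)
    · exact Or.inr (Or.inr ⟨h, h2, Rf_hi _ _ _ _ h h2⟩)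
  · exact Or.inl ⟨h, Rf_out _ _ _ _ h⟩

theorem Rf_inv (a e m t : ℕ) (h : a + m ≤ e) : Rf a e (e - a - m) (Rf a e m t) = t := by
  have h1 := Rf_cases a e m t
  have h2 := Rf_cases a e (e - a - m) (Rf a e m t)
  omega

theorem Rf_lt (a e m t N : ℕ) (h : a + m ≤ e) (he : e ≤ N) : Rf a e m t < N ↔ t < N := by
  have h1 := Rf_cases a e m t
  omega

def Rp (n a e m : ℕ) (h : a + m ≤ e) (he : e ≤ n) : Perm (Fin n) where
  toFun i := ⟨Rf a e m i, (Rf_lt a e m i n h he).2 i.2⟩
  invFun i := ⟨Rf a e (e - a - m) i, (Rf_lt a e _ i n (by omega) he).2 i.2⟩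
  left_inv i := by ext; simp [Rf_inv, h]
  right_inv i := by
    ext
    have h1 := Rf_inv a e (e - a - m) i (by omega)
    have h2 : e - a - (e - a - m) = m := by omega
    rw [h2] at h1
    simpa using h1

theorem Rp_val (n a e m : ℕ) (h : a + m ≤ e) (he : e ≤ n) (i : Fin n) :
    ((Rp n a e m h he i : Fin n) : ℕ) = Rf a e m i := rfl

theorem Rp_succ (n a e m : ℕ) (h : a + (m + 1) ≤ e) (he : e ≤ n) :
    Rp n a e (m + 1) h he = Rp n a e m (by omega) he * Rp n a e 1 (by omega) he := by
  ext i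
  rw [Perm.mul_apply, Rp_val, Rp_val, Rp_val]
  have h1 := Rf_cases a e (m+1) i
  have h2 := Rf_cases a e 1 i
  have h3 := Rf_cases a e m (Rf a e 1 i)
  omega

theorem Rp_zero (n a e : ℕ) (h : a + 0 ≤ e) (he : e ≤ n) : Rp n a e 0 h he = 1 := by
  ext i
  rw [Rp_val]
  have h1 := Rf_cases a e 0 i
  simp only [Perm.coe_one, id]
  omega

theorem Rp_full (n a e m : ℕ) (h : a + m ≤ e) (he : e ≤ n) (hm : a + m = e) :
    Rp n a e m h he = 1 := by
  ext i
  rw [Rp_val]
  have h1 := Rf_cases a e m i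
  simp only [Perm.coe_one, id]
  omega

theorem Rp_pow (n a e : ℕ) (he : e ≤ n) (h1 : a + 1 ≤ e) : ∀ (m : ℕ) (h : a + m ≤ e),
    Rp n a e m h he = (Rp n a e 1 h1 he) ^ m
  | 0, h => by rw [Rp_zero, pow_zero]
  | m + 1, h => by rw [Rp_succ, Rp_pow n a e he h1 m (by omega), pow_succ]

theorem sign_Rp_one (n a : ℕ) : ∀ (j : ℕ) (h : a + 1 ≤ a + 1 + j) (he : a + 1 + j ≤ n),
    sign (Rp n a (a + 1 + j) 1 h he) = (-1) ^ j
  | 0, h, he => by
      rw [Rp_full n a (a+1+0) 1 h he (by omega)]; simp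
  | j + 1, h, he => by
      have ih := sign_Rp_one n a j (by omega) (by omega)
      have key : Rp n a (a + 1 + (j + 1)) 1 h he
          = Rp n a (a + 1 + j) 1 (by omega) (by omega) *
            swap (⟨a + j, by omega⟩ : Fin n) ⟨a + j + 1, by omega⟩ := by
        ext i
        rw [Perm.mul_apply, Rp_val, Rp_val]
        have h1 := Rf_cases a (a + 1 + (j + 1)) 1 i
        rw [swap_apply_def]
        split_ifs with h3 h4
        · have h2 := Rf_cases a (a + 1 + j) 1 (a + j + 1)
          have h3' : (i : ℕ) = a + j := by rw [h3]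
          simp only
          omega
        · have h2 := Rf_cases a (a + 1 + j) 1 (a + j)
          have h3' : (i : ℕ) = a + j + 1 := by rw [h4]
          simp only
          omega
        · have h2 := Rf_cases a (a + 1 + j) 1 i
          have h3' : (i : ℕ) ≠ a + j := fun hh => h3 (Fin.ext hh)
          have h4' : (i : ℕ) ≠ a + j + 1 := fun hh => h4 (Fin.ext hh)
          omega
      rw [key, Perm.sign_mul, ih, sign_swap (by simp [Fin.ext_iff]), pow_succ]

theorem sign_Rp (n a e m : ℕ) (h : a + m ≤ e) (he : e ≤ n) (hae : a < e) :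
    sign (Rp n a e m h he) = (-1) ^ ((e - a - 1) * m) := by
  obtain ⟨j, rfl⟩ : ∃ j, e = a + 1 + j := ⟨e - (a + 1), by omega⟩
  rw [Rp_pow n a _ he (by omega) m h, map_pow, sign_Rp_one n a j (by omega) he, ← pow_mul]
  congr 1
  have : a + 1 + j - a - 1 = j := by omega
  rw [this]

theorem card_rot (a e m N : ℕ) (h : a + m ≤ e) (he : e ≤ N) (Q : ℕ → Prop) [DecidablePred Q] :
    ((range N).filter (fun t => Q (Rf a e m t))).card = ((range N).filter Q).card := by
  apply Finset.card_bij (fun t _ => Rf a e m t)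
  · intro t ht
    simp only [mem_filter, mem_range] at ht ⊢
    exact ⟨(Rf_lt a e m t N h he).2 ht.1, ht.2⟩
  · intro t1 _ t2 _ h12
    have h3 := congrArg (Rf a e (e - a - m)) h12
    rwa [Rf_inv _ _ _ _ h, Rf_inv _ _ _ _ h] at h3
  · intro t ht
    simp only [mem_filter, mem_range] at ht
    have h1 := Rf_inv a e (e - a - m) t (by omega)
    have h2 : e - a - (e - a - m) = m := by omega
    rw [h2] at h1
    refine ⟨Rf a e (e - a - m) t, ?_, h1⟩
    simp only [mem_filter, mem_range]
    rw [h1]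
    exact ⟨(Rf_lt a e _ t N (by omega) he).2 ht.1, ht.2⟩

section path

variable {G : Type} [AddCommGroup G] {n : ℕ}

def del (d : Fin n → G) (σ : Perm (Fin n)) (i : ℕ) : G := if h : i < n then d (σ ⟨i, h⟩) else 0

def P (d : Fin n → G) (σ : Perm (Fin n)) (t : ℕ) : G := ∑ i ∈ range t, del d σ i

theorem del_rot (d : Fin n → G) (σ : Perm (Fin n)) (a e m : ℕ) (h : a + m ≤ e) (he : e ≤ n)
    (i : ℕ) : del d (σ * Rp n a e m h he) i = del d σ (Rf a e m i) := by
  unfold del
  by_cases hi : i < n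
  · have hi2 := (Rf_lt a e m i n h he).2 hi
    rw [dif_pos hi, dif_pos hi2]
    rfl
  · have hi2 : ¬ Rf a e m i < n := fun hh => hi ((Rf_lt a e m i n h he).1 hh)
    rw [dif_neg hi, dif_neg hi2]

theorem P_rot (d : Fin n → G) (σ : Perm (Fin n)) (a e m : ℕ) (h : a + m ≤ e) (he : e ≤ n)
    (h1 : P d σ a = P d σ (a + m)) (h2 : P d σ a = P d σ e) :
    ∀ t, P d (σ * Rp n a e m h he) t = P d σ (Rf a e m t)
  | 0 => by
      have h3 := Rf_cases a e m 0
      have hz : P d (σ * Rp n a e m h he) 0 = P d σ 0 := by simp [P]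
      rw [hz]
      have h4 : Rf a e m 0 = 0 ∨ (a = 0 ∧ Rf a e m 0 = a + m) := by omega
      rcases h4 with h4 | ⟨h4, h5⟩
      · rw [h4]
      · rw [h5, ← h1, h4]
  | t + 1 => by
      have ih := P_rot d σ a e m h he h1 h2 t
      have s1 : P d (σ * Rp n a e m h he) (t + 1) = P d σ (Rf a e m t + 1) := by
        have e1 : P d (σ * Rp n a e m h he) (t + 1)
            = P d (σ * Rp n a e m h he) t + del d (σ * Rp n a e m h he) t := by
          unfold P; rw [sum_range_succ]
        have e2 : P d σ (Rf a e m t + 1) = P d σ (Rf a e m t) + del d σ (Rf a e m t) := by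
          unfold P; rw [sum_range_succ]
        rw [e1, e2, ih, del_rot]
      rw [s1]
      have h3 := Rf_cases a e m t
      have h4 := Rf_cases a e m (t + 1)
      have h5 : Rf a e m t + 1 = Rf a e m (t + 1) ∨
          ((Rf a e m t + 1 = a ∨ Rf a e m t + 1 = a + m ∨ Rf a e m t + 1 = e) ∧
           (Rf a e m (t + 1) = a ∨ Rf a e m (t + 1) = a + m ∨ Rf a e m (t + 1) = e)) := by omega
      rcases h5 with h5 | ⟨h5, h6⟩
      · rw [h5]
      · have k1 : P d σ (Rf a e m t + 1) = P d σ a := by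
          rcases h5 with h5 | h5 | h5
          · rw [h5]
          · rw [h5, h1]
          · rw [h5, h2]
        have k2 : P d σ (Rf a e m (t + 1)) = P d σ a := by
          rcases h6 with h6 | h6 | h6
          · rw [h6]
          · rw [h6, h1]
          · rw [h6, h2]
        rw [k1, k2]

end path

section prod

variable {A : Type} [Ring A] {n : ℕ}

def uu (x : Fin n → A) (σ : Perm (Fin n)) (i : ℕ) : A := if h : i < n then x (σ ⟨i, h⟩) else 1

theorem uu_rot (x : Fin n → A) (σ : Perm (Fin n)) (a e m : ℕ) (h : a + m ≤ e) (he : e ≤ n)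
    (i : ℕ) : uu x (σ * Rp n a e m h he) i = uu x σ (Rf a e m i) := by
  unfold uu
  by_cases hi : i < n
  · have hi2 := (Rf_lt a e m i n h he).2 hi
    rw [dif_pos hi, dif_pos hi2]
    rfl
  · have hi2 : ¬ Rf a e m i < n := fun hh => hi ((Rf_lt a e m i n h he).1 hh)
    rw [dif_neg hi, dif_neg hi2]

def pr (u : ℕ → A) (s : ℕ) : ℕ → A
  | 0 => 1
  | l + 1 => pr u s l * u (s + l)

theorem pr_add (u : ℕ → A) (s l : ℕ) : ∀ l', pr u s (l + l') = pr u s l * pr u (s + l) l'
  | 0 => by simp [pr]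
  | l' + 1 => by
      have ih := pr_add u s l l'
      change pr u s (l + l') * u (s + (l + l')) = pr u s l * (pr u (s + l) l' * u (s + l + l'))
      rw [ih, mul_assoc, add_assoc]

theorem pr_congr (u v : ℕ → A) (s s' : ℕ) : ∀ l, (∀ i, i < l → u (s + i) = v (s' + i)) →
    pr u s l = pr v s' l
  | 0, _ => rfl
  | l + 1, h => by
      change pr u s l * u (s + l) = pr v s' l * v (s' + l)
      rw [pr_congr u v s s' l (fun i hi => h i (by omega)), h l (by omega)]

theorem ofFn_prod : ∀ (n : ℕ) (f : Fin n → A) (u : ℕ → A), (∀ i : Fin n, u i = f i) →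
    (List.ofFn f).prod = pr u 0 n := by
  intro n f u h
  have h1 : List.ofFn f = (List.range n).map u := by
    apply List.ext_getElem
    · simp
    · intro i h1 h2
      simp only [List.getElem_ofFn, List.getElem_map, List.getElem_range]
      exact (h ⟨i, by simpa using h1⟩).symm
  rw [h1]
  clear h1 h f
  induction n with
  | zero => rfl
  | succ n ih =>
      rw [List.range_succ, List.map_append, List.prod_append, ih]
      simp [pr]

theorem pr_rot (x : Fin n → A) (σ : Perm (Fin n)) (a e m : ℕ) (h : a + m ≤ e) (he : e ≤ n)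
    (hc : pr (uu x σ) a m * pr (uu x σ) (a + m) (e - a - m)
      = pr (uu x σ) (a + m) (e - a - m) * pr (uu x σ) a m) :
    pr (uu x (σ * Rp n a e m h he)) 0 n = pr (uu x σ) 0 n := by
  set u := uu x σ with hu
  set v := uu x (σ * Rp n a e m h he) with hv
  have hvu : ∀ i, v i = u (Rf a e m i) := uu_rot x σ a e m h he
  have e1 : n = a + (m + ((e - a - m) + (n - e))) := by omega
  have e2 : n = a + ((e - a - m) + (m + (n - e))) := by omega
  have p1 : pr u 0 n = pr u 0 a * (pr u a m * (pr u (a + m) (e - a - m) * pr u e (n - e))) := by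
    conv_lhs => rw [e1]
    rw [pr_add, pr_add, pr_add, zero_add]
    have : a + m + (e - a - m) = e := by omega
    rw [this]
  have p2 : pr v 0 n = pr v 0 a * (pr v a (e - a - m) * (pr v (a + (e - a - m)) m * pr v e (n - e))) := by
    conv_lhs => rw [e2]
    rw [pr_add, pr_add, pr_add, zero_add]
    have : a + (e - a - m) + m = e := by omega
    rw [this]
  have q1 : pr v 0 a = pr u 0 a := by
    apply pr_congr; intro i hi
    rw [hvu]
    have := Rf_cases a e m (0 + i)
    have : Rf a e m (0 + i) = 0 + i := by omega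
    rw [this]
  have q2 : pr v a (e - a - m) = pr u (a + m) (e - a - m) := by
    apply pr_congr; intro i hi
    rw [hvu]
    have := Rf_cases a e m (a + i)
    have : Rf a e m (a + i) = a + m + i := by omega
    rw [this]
  have q3 : pr v (a + (e - a - m)) m = pr u a m := by
    apply pr_congr; intro i hi
    rw [hvu]
    have := Rf_cases a e m (a + (e - a - m) + i)
    have : Rf a e m (a + (e - a - m) + i) = a + i := by omega
    rw [this]
  have q4 : pr v e (n - e) = pr u e (n - e) := by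
    apply pr_congr; intro i hi
    rw [hvu]
    have := Rf_cases a e m (e + i)
    have : Rf a e m (e + i) = e + i := by omega
    rw [this]
  rw [p1, p2, q1, q2, q3, q4]
  congr 1
  rw [← mul_assoc, ← hc, mul_assoc]

end prod

end Pool.Agent.Helper8.StdGr
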