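import Pool.Agent.Helper8.StdGr1

set_option autoImplicit false

namespace Pool.Agent.Helper8.StdGr

open Equiv Equiv.Perm Finset

set_option linter.unusedSectionVars false

section graded

variable {F G A : Type} [Field F] [AddCommGroup G] [DecidableEq G] [Ring A] [Algebra F A]
  (𝒜 : G → Submodule F A) [GradedAlgebra 𝒜] {n : ℕ}

theorem pr_mem (u : ℕ → A) (δ : ℕ → G) (hu : ∀ i, u i ∈ 𝒜 (δ i)) (s : ℕ) :
    ∀ l, pr u s l ∈ 𝒜 (∑ i ∈ range l, δ (s + i))
  | 0 => by
      simp only [range_zero, sum_empty]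
      exact SetLike.GradedOne.one_mem
  | l + 1 => by
      rw [sum_range_succ]
      exact SetLike.GradedMul.mul_mem (pr_mem u δ hu s l) (hu _)

theorem uu_mem (x : Fin n → A) (d : Fin n → G) (hx : ∀ i, x i ∈ 𝒜 (d i)) (σ : Perm (Fin n))
    (i : ℕ) : uu x σ i ∈ 𝒜 (del d σ i) := by
  unfold uu del
  by_cases hi : i < n
  · rw [dif_pos hi, dif_pos hi]; exact hx _
  · rw [dif_neg hi, dif_neg hi]; exact SetLike.GradedOne.one_mem

theorem P_add (d : Fin n → G) (σ : Perm (Fin n)) (s l : ℕ) :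
    P d σ (s + l) = P d σ s + ∑ i ∈ range l, del d σ (s + i) := by
  unfold P; rw [sum_range_add]

/-- signed word -/
def w (x : Fin n → A) (σ : Perm (Fin n)) : A :=
  ((Equiv.Perm.sign σ : ℤˣ) : ℤ) • (List.ofFn (fun i => x (σ i))).prod

theorem w_eq (x : Fin n → A) (σ : Perm (Fin n)) :
    w x σ = ((Equiv.Perm.sign σ : ℤˣ) : ℤ) • pr (uu x σ) 0 n := by
  unfold w
  rw [ofFn_prod n _ (uu x σ)]
  intro i
  unfold uu
  rw [dif_pos i.2]

theorem w_rot (hcomm : ∀ a ∈ 𝒜 0, ∀ b ∈ 𝒜 0, a * b = b * a)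
    (x : Fin n → A) (d : Fin n → G) (hx : ∀ i, x i ∈ 𝒜 (d i)) (σ : Perm (Fin n))
    (a e m : ℕ) (h : a + m ≤ e) (he : e ≤ n) (hae : a < e)
    (h1 : P d σ a = P d σ (a + m)) (h2 : P d σ a = P d σ e) :
    w x (σ * Rp n a e m h he) = ((-1 : ℤ) ^ ((e - a - 1) * m)) • w x σ := by
  have hd1 : ∑ i ∈ range m, del d σ (a + i) = 0 := by
    have := P_add d σ a m
    rw [← h1] at this
    simpa using this
  have hd2 : ∑ i ∈ range (e - a - m), del d σ (a + m + i) = 0 := by
    have h3 := P_add d σ (a + m) (e - a - m)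
    have h4 : a + m + (e - a - m) = e := by omega
    rw [h4, ← h1, ← h2] at h3
    simpa using h3
  have m1 := pr_mem 𝒜 (uu x σ) (del d σ) (uu_mem 𝒜 x d hx σ) a m
  have m2 := pr_mem 𝒜 (uu x σ) (del d σ) (uu_mem 𝒜 x d hx σ) (a + m) (e - a - m)
  rw [hd1] at m1
  rw [hd2] at m2
  rw [w_eq, w_eq, pr_rot x σ a e m h he (hcomm _ m1 _ m2), Perm.sign_mul, sign_Rp n a e m h he hae,
    smul_smul]
  congr 1
  push_cast
  ring

end graded

section count

variable {G : Type} [AddCommGroup G] [DecidableEq G] {n : ℕ}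

/-- number of visits of `g` before time `t` -/
def C (d : Fin n → G) (σ : Perm (Fin n)) (g : G) (t : ℕ) : ℕ :=
  ((range t).filter (fun s => P d σ s = g)).card

theorem C_rot (d : Fin n → G) (σ : Perm (Fin n)) (a e m : ℕ) (h : a + m ≤ e) (he : e ≤ n)
    (h1 : P d σ a = P d σ (a + m)) (h2 : P d σ a = P d σ e) (g : G) (t : ℕ) (ht : e ≤ t) :
    C d (σ * Rp n a e m h he) g t = C d σ g t := by
  unfold C
  have h3 := P_rot d σ a e m h he h1 h2
  rw [← card_rot a e m t h ht (fun s => P d σ s = g)]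
  congr 1
  apply filter_congr
  intro s _
  rw [h3]

theorem C_rot_low (d : Fin n → G) (σ : Perm (Fin n)) (a e m : ℕ) (h : a + m ≤ e) (he : e ≤ n)
    (h1 : P d σ a = P d σ (a + m)) (h2 : P d σ a = P d σ e) (g : G) (t : ℕ) (ht : t ≤ a) :
    C d (σ * Rp n a e m h he) g t = C d σ g t := by
  unfold C
  have h3 := P_rot d σ a e m h he h1 h2
  congr 1
  apply filter_congr
  intro s hs
  rw [h3]
  rw [mem_range] at hs
  rw [Rf_out a e m s (by omega)]

theorem C_succ (d : Fin n → G) (σ : Perm (Fin n)) (g : G) (t : ℕ) :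
    C d σ g (t + 1) = C d σ g t + (if P d σ t = g then 1 else 0) := by
  unfold C
  rw [range_add_one, filter_insert]
  split_ifs with h
  · rw [card_insert_of_notMem (by simp)]
  · simp

theorem C_mono (d : Fin n → G) (σ : Perm (Fin n)) (g : G) : Monotone (C d σ g) := by
  apply monotone_nat_of_le_succ
  intro t
  rw [C_succ]; omega

theorem C_zero (d : Fin n → G) (σ : Perm (Fin n)) (g : G) : C d σ g 0 = 0 := by
  unfold C; simp

/-- existence of the `(k+1)`st visit -/
theorem exists_hit (d : Fin n → G) (σ : Perm (Fin n)) (g : G) (k N : ℕ) (h : k < C d σ g N) :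
    ∃ t, t < N ∧ P d σ t = g ∧ C d σ g t = k := by
  induction N with
  | zero => rw [C_zero] at h; omega
  | succ N ih =>
      by_cases hk : k < C d σ g N
      · obtain ⟨t, h1, h2⟩ := ih hk
        exact ⟨t, by omega, h2⟩
      · rw [C_succ] at h
        split_ifs at h with hP
        · exact ⟨N, by omega, hP, by omega⟩
        · omega

theorem hit_unique (d : Fin n → G) (σ : Perm (Fin n)) (g : G) (t t' : ℕ)
    (h1 : P d σ t = g) (h2 : P d σ t' = g) (h3 : C d σ g t = C d σ g t') : t = t' := by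
  rcases lt_trichotomy t t' with h | h | h
  · have := C_mono d σ g (show t + 1 ≤ t' from h)
    rw [C_succ, if_pos h1] at this
    omega
  · exact h
  · have := C_mono d σ g (show t' + 1 ≤ t from h)
    rw [C_succ, if_pos h2] at this
    omega

theorem pigeon [Fintype G] (d : Fin n → G) (σ : Perm (Fin n)) (p : ℕ)
    (hn : n = Fintype.card G * p) : ∃ g, p < C d σ g (n + 1) := by
  by_contra hcon
  push Not at hcon
  have h1 : ∑ g : G, C d σ g (n + 1) = n + 1 := by
    unfold C
    have h2 := Finset.card_eq_sum_card_fiberwise (s := range (n+1)) (t := (univ : Finset G))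
      (f := fun s => P d σ s) (fun _ _ => by simp)
    rw [card_range] at h2
    exact h2.symm
  have h3 : ∑ g : G, C d σ g (n + 1) ≤ ∑ _g : G, p := sum_le_sum (fun g _ => hcon g)
  rw [sum_const, card_univ, smul_eq_mul] at h3
  omega

end count

end Pool.Agent.Helper8.StdGr
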