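import Pool.Agent.Helper8.StdGr2

set_option autoImplicit false
set_option linter.unusedSectionVars false
set_option linter.unusedVariables false

namespace Pool.Agent.Helper8.StdGr

open Equiv Equiv.Perm Finset

section main

variable {G : Type} [AddCommGroup G] [DecidableEq G] {n : ℕ}

/-- the defining predicate of a class of permutations -/
def Q (d : Fin n → G) (p : ℕ) (v : G → ℕ) (g : G) (a c : ℕ) (σ : Perm (Fin n)) : Prop :=
  (fun g => C d σ g (n + 1)) = v ∧ a ≤ n ∧ c ≤ n ∧ P d σ a = g ∧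
    P d σ c = g ∧ C d σ g a = 0 ∧ C d σ g c = p

theorem Q_rot (d : Fin n → G) (p : ℕ) (v : G → ℕ) (g : G) (a c : ℕ) (σ : Perm (Fin n))
    (hQ : Q d p v g a c σ) (e m : ℕ) (h : a + m ≤ e) (he : e ≤ n) (hec : e ≤ c)
    (h1 : P d σ (a + m) = g) (h2 : P d σ e = g) :
    Q d p v g a c (σ * Rp n a e m h he) := by
  obtain ⟨q1, q2, q3, q4, q5, q6, q7⟩ := hQ
  have k1 : P d σ a = P d σ (a + m) := by rw [q4, h1]
  have k2 : P d σ a = P d σ e := by rw [q4, h2]
  refine ⟨?_, q2, q3, ?_, ?_, ?_, ?_⟩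
  · rw [← q1]; funext g'
    exact C_rot d σ a e m h he k1 k2 g' (n + 1) (by omega)
  · rw [P_rot d σ a e m h he k1 k2]
    have h3 := Rf_cases a e m a
    have h4 : Rf a e m a = a ∨ Rf a e m a = a + m := by omega
    rcases h4 with h4 | h4
    · rw [h4, q4]
    · rw [h4, h1]
  · rw [P_rot d σ a e m h he k1 k2, Rf_out a e m c (by omega), q5]
  · rw [C_rot_low d σ a e m h he k1 k2 g a le_rfl, q6]
  · rw [C_rot d σ a e m h he k1 k2 g c hec, q7]

/-- total version -/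
def RpT (n a e m : ℕ) : Perm (Fin n) := if h : a + m ≤ e ∧ e ≤ n then Rp n a e m h.1 h.2 else 1

theorem RpT_eq (n a e m : ℕ) (h : a + m ≤ e) (he : e ≤ n) : RpT n a e m = Rp n a e m h he := by
  unfold RpT; rw [dif_pos ⟨h, he⟩]

/-- the parity alternative -/
def D (d : Fin n → G) (g : G) (a c : ℕ) (σ : Perm (Fin n)) : Prop :=
  (c - a) % 2 = 1 ∨ ∀ t, a ≤ t → t < c → P d σ t = g → (t - a) % 2 = 0

def Bd (d : Fin n → G) (g : G) (a c : ℕ) (σ : Perm (Fin n)) (b e : ℕ) : Prop :=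
  a < b ∧ b < e ∧ e ≤ c ∧ P d σ b = g ∧ P d σ e = g ∧ (b - a) % 2 = 1 ∧ (e - a) % 2 = 0 ∧
  (∀ t, a ≤ t → t < b → P d σ t = g → (t - a) % 2 = 0) ∧
  (∀ t, b < t → t < e → P d σ t = g → (t - a) % 2 = 1)

theorem Bd_unique (d : Fin n → G) (g : G) (a c : ℕ) (σ : Perm (Fin n)) (b e b1 e1 : ℕ)
    (h : Bd d g a c σ b e) (h1 : Bd d g a c σ b1 e1) : b = b1 ∧ e = e1 := by
  obtain ⟨q1, q2, q3, q4, q5, q6, q7, q8, q9⟩ := h
  obtain ⟨r1, r2, r3, r4, r5, r6, r7, r8, r9⟩ := h1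
  have hb : b = b1 := by
    rcases lt_trichotomy b b1 with h | h | h
    · have := r8 b (by omega) h q4; omega
    · exact h
    · have := q8 b1 (by omega) h r4; omega
  subst hb
  refine ⟨rfl, ?_⟩
  rcases lt_trichotomy e e1 with h | h | h
  · have := r9 e (by omega) h q5; omega
  · exact h
  · have := q9 e1 (by omega) h r5; omega

theorem Bd_exists (d : Fin n → G) (g : G) (a c : ℕ) (σ : Perm (Fin n)) (hc : P d σ c = g)
    (hac : a < c) (h : ¬ D d g a c σ) : ∃ b e, Bd d g a c σ b e := by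
  classical
  unfold D at h
  push Not at h
  obtain ⟨h1, t0, h2, h3, h4, h5⟩ := h
  have E1 : ∃ t, a ≤ t ∧ P d σ t = g ∧ (t - a) % 2 = 1 := ⟨t0, h2, h4, by omega⟩
  obtain ⟨s1, s2, s3⟩ := Nat.find_spec E1
  have s4 : ∀ t, t < Nat.find E1 → ¬ (a ≤ t ∧ P d σ t = g ∧ (t - a) % 2 = 1) :=
    fun t ht => Nat.find_min E1 ht
  have s5 : Nat.find E1 ≤ t0 := Nat.find_min' E1 ⟨h2, h4, by omega⟩
  generalize Nat.find E1 = b at *
  have E2 : ∃ t, b < t ∧ P d σ t = g ∧ (t - a) % 2 = 0 := ⟨c, by omega, hc, by omega⟩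
  obtain ⟨u1, u2, u3⟩ := Nat.find_spec E2
  have u4 : ∀ t, t < Nat.find E2 → ¬ (b < t ∧ P d σ t = g ∧ (t - a) % 2 = 0) :=
    fun t ht => Nat.find_min E2 ht
  have u5 : Nat.find E2 ≤ c := Nat.find_min' E2 ⟨by omega, hc, by omega⟩
  generalize Nat.find E2 = e at *
  refine ⟨b, e, ?_, u1, u5, s2, u2, s3, u3, ?_, ?_⟩
  · by_contra hcon
    have : b = a := by omega
    rw [this] at s3; simp at s3
  · intro t ht1 ht2 ht3
    have := s4 t ht2
    by_contra hcon
    exact this ⟨ht1, ht3, by omega⟩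
  · intro t ht1 ht2 ht3
    have := u4 t ht2
    by_contra hcon
    exact this ⟨ht1, ht3, by omega⟩

theorem Bd_rot (d : Fin n → G) (g : G) (a c : ℕ) (σ : Perm (Fin n)) (b e : ℕ)
    (h : Bd d g a c σ b e) (ha : P d σ a = g) (hcn : c ≤ n) :
    Bd d g a c (σ * RpT n a e (b - a)) (a + (e - b)) e := by
  obtain ⟨q1, q2, q3, q4, q5, q6, q7, q8, q9⟩ := h
  rw [RpT_eq n a e (b - a) (by omega) (by omega)]
  have hab : a + (b - a) = b := by omega
  have k := P_rot d σ a e (b - a) (by omega) (by omega) (by rw [hab, ha, q4]) (by rw [ha, q5])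
  refine ⟨by omega, by omega, q3, ?_, ?_, by omega, q7, ?_, ?_⟩
  · rw [k]
    have := Rf_cases a e (b - a) (a + (e - b))
    have h3 : Rf a e (b - a) (a + (e - b)) = a := by omega
    rw [h3, ha]
  · rw [k, Rf_out _ _ _ _ (by omega), q5]
  · intro t ht1 ht2 ht3
    rw [k] at ht3
    have h3 := Rf_cases a e (b - a) t
    have h4 : Rf a e (b - a) t = t + (b - a) := by omega
    rw [h4] at ht3
    by_cases hta : t = a
    · rw [hta]; simp
    · have := q9 (t + (b - a)) (by omega) (by omega) ht3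
      omega
  · intro t ht1 ht2 ht3
    rw [k] at ht3
    have h3 := Rf_cases a e (b - a) t
    have h4 : Rf a e (b - a) t = t + (b - a) + a - e := by omega
    rw [h4] at ht3
    have := q8 (t + (b - a) + a - e) (by omega) (by omega) ht3
    omega

theorem C_range (d : Fin n → G) (σ : Perm (Fin n)) (g : G) (a : ℕ) : ∀ l,
    C d σ g (a + l) = C d σ g a + ((range l).filter (fun m => P d σ (a + m) = g)).card
  | 0 => by simp
  | l + 1 => by
      rw [← add_assoc, C_succ, C_range d σ g a l, range_add_one, filter_insert]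
      split_ifs with h
      · rw [card_insert_of_notMem (by simp)]; omega
      · rfl

theorem a_lt_c (d : Fin n → G) (p : ℕ) (hp : 0 < p) (v : G → ℕ) (g : G) (a c : ℕ)
    (σ : Perm (Fin n)) (hQ : Q d p v g a c σ) : a < c := by
  obtain ⟨q1, q2, q3, q4, q5, q6, q7⟩ := hQ
  by_contra hcon
  have := C_mono d σ g (show c ≤ a by omega)
  omega

/-- the class preceding each label -/
def phi (d : Fin n → G) (σ : Perm (Fin n)) : Fin n → G := fun l => P d σ (σ⁻¹ l : Fin n)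

theorem phi_rot (d : Fin n → G) (σ : Perm (Fin n)) (a e m : ℕ) (h : a + m ≤ e) (he : e ≤ n)
    (h1 : P d σ a = P d σ (a + m)) (h2 : P d σ a = P d σ e) :
    phi d (σ * Rp n a e m h he) = phi d σ := by
  funext l
  unfold phi
  rw [P_rot d σ a e m h he h1 h2, ← Rp_val n a e m h he]
  congr 2
  rw [← Perm.mul_apply]
  congr 1
  group

variable {F A : Type} [Field F] [Ring A] [Algebra F A]
  (𝒜 : G → Submodule F A) [GradedAlgebra 𝒜]

theorem sum_C (hcomm : ∀ a ∈ 𝒜 0, ∀ b ∈ 𝒜 0, a * b = b * a)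
    (x : Fin n → A) (d : Fin n → G) (hx : ∀ i, x i ∈ 𝒜 (d i)) (p : ℕ) (hp : 0 < p)
    (v : G → ℕ) (g : G) (a c : ℕ) (S : Finset (Perm (Fin n)))
    (hS : ∀ σ, σ ∈ S ↔ Q d p v g a c σ ∧ ¬ D d g a c σ) :
    ∑ σ ∈ S, w x σ = 0 := by
  classical
  have H : ∀ σ ∈ S, ∃ b e, Bd d g a c σ b e := by
    intro σ hσ
    obtain ⟨h1, h2⟩ := (hS σ).1 hσ
    exact Bd_exists d g a c σ h1.2.2.2.2.1 (a_lt_c d p hp v g a c σ h1) h2
  choose b e hb using H
  have mem : ∀ σ (hσ : σ ∈ S), σ * RpT n a (e σ hσ) (b σ hσ - a) ∈ S := by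
    intro σ hσ
    obtain ⟨h1, h2⟩ := (hS σ).1 hσ
    have hB := hb σ hσ
    obtain ⟨q1, q2, q3, q4, q5, q6, q7, q8, q9⟩ := hB
    have hcn : c ≤ n := h1.2.2.1
    have hab : a + (b σ hσ - a) = b σ hσ := by omega
    have hB' := Bd_rot d g a c σ _ _ (hb σ hσ) h1.2.2.2.1 hcn
    rw [hS]
    constructor
    · rw [RpT_eq n a _ _ (by omega) (by omega)]
      exact Q_rot d p v g a c σ h1 _ _ _ _ q3 (by rw [hab, q4]) q5
    · unfold D at h2 ⊢
      push Not at h2 ⊢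
      obtain ⟨r1, r2, r3, r4, r5, r6, r7, r8, r9⟩ := hB'
      exact ⟨h2.1, _, by omega, by omega, r4, by omega⟩
  refine Finset.sum_involution (fun σ hσ => σ * RpT n a (e σ hσ) (b σ hσ - a)) ?_ ?_ mem ?_
  · intro σ hσ
    obtain ⟨h1, h2⟩ := (hS σ).1 hσ
    obtain ⟨q1, q2, q3, q4, q5, q6, q7, q8, q9⟩ := hb σ hσ
    have hcn : c ≤ n := h1.2.2.1
    have hab : a + (b σ hσ - a) = b σ hσ := by omega
    have ha : P d σ a = g := h1.2.2.2.1
    rw [RpT_eq n a _ _ (by omega) (by omega)]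
    rw [w_rot 𝒜 hcomm x d hx σ a _ _ (by omega) (by omega) (by omega) (by rw [hab, ha, q4])
      (by rw [ha, q5])]
    have hodd : Odd ((e σ hσ - a - 1) * (b σ hσ - a)) := by
      apply Odd.mul
      · rw [Nat.odd_iff]; omega
      · rw [Nat.odd_iff]; omega
    rw [hodd.neg_one_pow]
    simp
  · intro σ hσ _ heq
    obtain ⟨h1, h2⟩ := (hS σ).1 hσ
    obtain ⟨q1, q2, q3, q4, q5, q6, q7, q8, q9⟩ := hb σ hσ
    have hcn : c ≤ n := h1.2.2.1
    rw [RpT_eq n a _ _ (by omega) (by omega)] at heq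
    have h3 : Rp n a (e σ hσ) (b σ hσ - a) (by omega) (by omega) = 1 := by
      simpa using heq
    have h4 := congrArg (fun (τ : Perm (Fin n)) => ((τ ⟨a, by omega⟩ : Fin n) : ℕ)) h3
    simp only [Rp_val, Perm.coe_one, id] at h4
    have h5 := Rf_cases a (e σ hσ) (b σ hσ - a) a
    omega
  · intro σ hσ
    obtain ⟨h1, h2⟩ := (hS σ).1 hσ
    have hB := hb σ hσ
    have hcn : c ≤ n := h1.2.2.1
    have hB' := Bd_rot d g a c σ _ _ (hb σ hσ) h1.2.2.2.1 hcn
    have hB'' := hb _ (mem σ hσ)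
    obtain ⟨k1, k2⟩ := Bd_unique d g a c _ _ _ _ _ hB'' hB'
    obtain ⟨q1, q2, q3, q4, q5, q6, q7, q8, q9⟩ := hB
    rw [k1, k2, RpT_eq n a _ _ (by omega) (by omega), RpT_eq n a _ _ (by omega) (by omega),
      mul_assoc, Rp_pow n a (e σ hσ) (by omega) (by omega) (b σ hσ - a) (by omega),
      Rp_pow n a (e σ hσ) (by omega) (by omega) (a + (e σ hσ - b σ hσ) - a) (by omega),
      ← pow_add, ← Rp_pow n a (e σ hσ) (by omega) (by omega) _ (by omega),
      Rp_full n a (e σ hσ) _ (by omega) (by omega) (by omega), mul_one]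

end main

end Pool.Agent.Helper8.StdGr
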