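import Pool.Agent.Helper8.StdGr3

set_option autoImplicit false
set_option linter.unusedSectionVars false
set_option linter.unusedVariables false

namespace Pool.Agent.Helper8.StdGr

open Equiv Equiv.Perm Finset

section main2

variable {G : Type} [AddCommGroup G] [DecidableEq G] {n : ℕ}
variable {F A : Type} [Field F] [Ring A] [Algebra F A]
  (𝒜 : G → Submodule F A) [GradedAlgebra 𝒜]

theorem D_rot (d : Fin n → G) (g : G) (a c : ℕ) (σ : Perm (Fin n)) (m : ℕ)
    (h : a + m ≤ c) (hm : a + m < c) (hcn : c ≤ n) (ha : P d σ a = g) (hc : P d σ c = g)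
    (ham : P d σ (a + m) = g) (hD : D d g a c σ) : D d g a c (σ * Rp n a c m h hcn) := by
  unfold D at hD ⊢
  by_cases hL : (c - a) % 2 = 1
  · exact Or.inl hL
  · rcases hD with hD | hD
    · exact absurd hD hL
    · right
      intro t ht1 ht2 ht3
      rw [P_rot d σ a c m h hcn (by rw [ha, ham]) (by rw [ha, hc])] at ht3
      have h1 := Rf_cases a c m t
      have h2 := hD (a + m) (by omega) hm ham
      have h3 := hD (Rf a c m t) (by omega) (by omega) ht3
      omega

theorem sum_D (hcomm : ∀ a ∈ 𝒜 0, ∀ b ∈ 𝒜 0, a * b = b * a)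
    (x : Fin n → A) (d : Fin n → G) (hx : ∀ i, x i ∈ 𝒜 (d i)) (p : ℕ) (hp : 0 < p)
    [CharP F p]
    (v : G → ℕ) (g : G) (a c : ℕ) (S : Finset (Perm (Fin n)))
    (hS : ∀ σ, σ ∈ S ↔ Q d p v g a c σ ∧ D d g a c σ) :
    ∑ σ ∈ S, w x σ = 0 := by
  classical
  by_cases hne : a < c ∧ c ≤ n
  swap
  · apply Finset.sum_eq_zero
    intro σ hσ
    have h1 := ((hS σ).1 hσ).1
    exact absurd ⟨a_lt_c d p hp v g a c σ h1, h1.2.2.1⟩ hne
  obtain ⟨hac, hcn⟩ := hne
  set r : Perm (Fin n) := Rp n a c 1 (by omega) hcn with hr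
  have hrL : r ^ (c - a) = 1 := by
    rw [hr, ← Rp_pow n a c hcn (by omega) (c - a) (by omega)]
    exact Rp_full n a c _ (by omega) hcn (by omega)
  let κ : Perm (Fin n) → (Perm (Fin n) ⧸ Subgroup.zpowers r) × (Fin n → G) :=
    fun σ => (QuotientGroup.mk σ, phi d σ)
  rw [← Finset.sum_fiberwise_of_maps_to (s := S) (t := S.image κ) (g := κ)
    (fun σ hσ => mem_image_of_mem κ hσ)]
  apply Finset.sum_eq_zero
  intro k hk
  obtain ⟨σ0, hσ0, rfl⟩ := mem_image.1 hk
  obtain ⟨hQ0, hD0⟩ := (hS σ0).1 hσ0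
  have ha : P d σ0 a = g := hQ0.2.2.2.1
  have hc : P d σ0 c = g := hQ0.2.2.2.2.1
  have hset : S.filter (fun σ => κ σ = κ σ0) =
      ((range (c - a)).filter (fun m => P d σ0 (a + m) = g)).image
        (fun m => σ0 * RpT n a c m) := by
    ext σ
    simp only [mem_filter, mem_image, mem_range]
    constructor
    · rintro ⟨hσ, hκ⟩
      obtain ⟨hQ1, hD1⟩ := (hS σ).1 hσ
      have hκ1 : (QuotientGroup.mk σ : Perm (Fin n) ⧸ Subgroup.zpowers r)
          = QuotientGroup.mk σ0 := congrArg Prod.fst hκ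
      have hκ2 : phi d σ = phi d σ0 := congrArg Prod.snd hκ
      have hz : σ0⁻¹ * σ ∈ Subgroup.zpowers r := QuotientGroup.eq.1 hκ1.symm
      obtain ⟨z, hz⟩ := Subgroup.mem_zpowers_iff.1 hz
      have hzm : r ^ (z % ((c - a : ℕ) : ℤ)).toNat = r ^ z := by
        have hpos : (0 : ℤ) < ((c - a : ℕ) : ℤ) := by omega
        have h1 : (0 : ℤ) ≤ z % ((c - a : ℕ) : ℤ) := Int.emod_nonneg _ (by omega)
        rw [← zpow_natCast, Int.toNat_of_nonneg h1]
        conv_rhs => rw [← Int.emod_add_mul_ediv z ((c - a : ℕ) : ℤ)]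
        rw [zpow_add, zpow_mul, zpow_natCast, hrL, one_zpow, mul_one]
      set m := (z % ((c - a : ℕ) : ℤ)).toNat with hm
      have hmL : m < c - a := by
        have h2 := Int.emod_lt_of_pos z (show (0 : ℤ) < ((c - a : ℕ) : ℤ) by omega)
        have h1 : (0 : ℤ) ≤ z % ((c - a : ℕ) : ℤ) := Int.emod_nonneg _ (by omega)
        omega
      have hσeq : σ = σ0 * RpT n a c m := by
        rw [RpT_eq n a c m (by omega) hcn, Rp_pow n a c hcn (by omega) m (by omega), ← hr, hzm, hz]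
        group
      refine ⟨m, ⟨hmL, ?_⟩, hσeq.symm⟩
      have h3 := congrFun hκ2 (σ ⟨a, by omega⟩)
      have h4 : phi d σ (σ ⟨a, by omega⟩) = g := by
        unfold phi
        have hinv : σ⁻¹ (σ ⟨a, by omega⟩) = (⟨a, by omega⟩ : Fin n) := by simp
        rw [hinv]
        exact hQ1.2.2.2.1
      have h5 : phi d σ0 (σ ⟨a, by omega⟩) = P d σ0 (a + m) := by
        unfold phi
        rw [hσeq, Perm.mul_apply]
        have hinv : σ0⁻¹ (σ0 (RpT n a c m ⟨a, by omega⟩)) = (RpT n a c m ⟨a, by omega⟩ : Fin n) := by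
          simp
        rw [hinv, RpT_eq n a c m (by omega) hcn, Rp_val,
          Rf_lo a c m a (by omega) (by omega)]
      rw [← h5, ← h3, h4]
    · rintro ⟨m, ⟨hm1, hm2⟩, rfl⟩
      rw [RpT_eq n a c m (by omega) hcn]
      have hk1 : P d σ0 a = P d σ0 (a + m) := by rw [ha, hm2]
      have hk2 : P d σ0 a = P d σ0 c := by rw [ha, hc]
      refine ⟨?_, ?_⟩
      · rw [hS]
        exact ⟨Q_rot d p v g a c σ0 hQ0 c m (by omega) hcn le_rfl hm2 hc,
          D_rot d g a c σ0 m (by omega) (by omega) hcn ha hc hm2 hD0⟩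
      · refine Prod.ext ?_ ?_
        · change (QuotientGroup.mk _ : Perm (Fin n) ⧸ Subgroup.zpowers r) = QuotientGroup.mk _
          apply Eq.symm
          rw [QuotientGroup.eq, Rp_pow n a c hcn (by omega) m (by omega), ← hr]
          have : σ0⁻¹ * (σ0 * r ^ m) = r ^ m := by group
          rw [this]
          exact Subgroup.pow_mem _ (Subgroup.mem_zpowers r) m
        · exact phi_rot d σ0 a c m (by omega) hcn hk1 hk2
  rw [hset, Finset.sum_image]
  swap
  · intro m hm m' hm' heq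
    simp only [coe_filter, mem_range, Set.mem_ofPred_eq] at hm hm'
    have h1 : RpT n a c m = RpT n a c m' := mul_left_cancel heq
    rw [RpT_eq n a c m (by omega) hcn, RpT_eq n a c m' (by omega) hcn] at h1
    have h4 := congrArg (fun (τ : Perm (Fin n)) => ((τ ⟨a, by omega⟩ : Fin n) : ℕ)) h1
    simp only [Rp_val] at h4
    rw [Rf_lo a c m a (by omega) (by omega), Rf_lo a c m' a (by omega) (by omega)] at h4
    omega
  have hconst : ∀ m ∈ (range (c - a)).filter (fun m => P d σ0 (a + m) = g),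
      w x (σ0 * RpT n a c m) = w x σ0 := by
    intro m hm
    simp only [mem_filter, mem_range] at hm
    rw [RpT_eq n a c m (by omega) hcn, w_rot 𝒜 hcomm x d hx σ0 a c m (by omega) hcn hac
      (by rw [ha, hm.2]) (by rw [ha, hc])]
    have heven : Even ((c - a - 1) * m) := by
      rw [Nat.even_mul]
      rcases hD0 with hD0 | hD0
      · left; rw [Nat.even_iff]; omega
      · right
        have := hD0 (a + m) (by omega) (by omega) hm.2
        rw [Nat.even_iff]; omega
    rw [heven.neg_one_pow, one_smul]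
  rw [Finset.sum_congr rfl hconst, Finset.sum_const]
  have hcard : ((range (c - a)).filter (fun m => P d σ0 (a + m) = g)).card = p := by
    have h1 := C_range d σ0 g a (c - a)
    have h2 : a + (c - a) = c := by omega
    rw [h2, hQ0.2.2.2.2.2.1, hQ0.2.2.2.2.2.2, zero_add] at h1
    exact h1.symm
  rw [hcard, ← Nat.cast_smul_eq_nsmul F, CharP.cast_eq_zero F p, zero_smul]

/-- the choice of the class -/
noncomputable def gs (p : ℕ) (v : G → ℕ) : G :=
  open Classical in if h : ∃ g, p < v g then Classical.choose h else 0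

theorem sum_all [Fintype G] (hcomm : ∀ a ∈ 𝒜 0, ∀ b ∈ 𝒜 0, a * b = b * a)
    (x : Fin n → A) (d : Fin n → G) (hx : ∀ i, x i ∈ 𝒜 (d i)) (p : ℕ) (hp : 0 < p)
    [CharP F p] (hn : n = Fintype.card G * p) :
    ∑ σ : Perm (Fin n), w x σ = 0 := by
  classical
  have key : ∀ σ : Perm (Fin n), ∃ k : (G → ℕ) × ℕ × ℕ,
      Q d p k.1 (gs p k.1) k.2.1 k.2.2 σ := by
    intro σ
    have h1 := pigeon d σ p hn
    have h2 : p < C d σ (gs p (fun g => C d σ g (n + 1))) (n + 1) := by
      unfold gs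
      rw [dif_pos h1]
      exact Classical.choose_spec h1
    obtain ⟨a, a1, a2, a3⟩ := exists_hit d σ _ 0 (n + 1) (lt_of_le_of_lt (Nat.zero_le _) h2)
    obtain ⟨c, c1, c2, c3⟩ := exists_hit d σ _ p (n + 1) h2
    exact ⟨(fun g => C d σ g (n + 1), a, c), rfl, Nat.lt_succ_iff.1 a1, Nat.lt_succ_iff.1 c1,
      a2, c2, a3, c3⟩
  choose f hf using key
  have huniq : ∀ σ (k : (G → ℕ) × ℕ × ℕ), Q d p k.1 (gs p k.1) k.2.1 k.2.2 σ → f σ = k := by
    intro σ k hk
    have h1 := hf σ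
    have e1 : (f σ).1 = k.1 := by rw [← h1.1, ← hk.1]
    obtain ⟨q1, q2, q3, q4, q5, q6, q7⟩ := h1
    obtain ⟨r1, r2, r3, r4, r5, r6, r7⟩ := hk
    rw [e1] at q4 q5 q6 q7
    refine Prod.ext e1 (Prod.ext ?_ ?_)
    · exact hit_unique d σ _ _ _ q4 r4 (by rw [q6, r6])
    · exact hit_unique d σ _ _ _ q5 r5 (by rw [q7, r7])
  rw [← Finset.sum_fiberwise_of_maps_to (s := (univ : Finset (Perm (Fin n))))
    (t := univ.image f) (g := f) (fun σ hσ => mem_image_of_mem f hσ)]
  apply Finset.sum_eq_zero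
  intro k hk
  rw [← Finset.sum_filter_add_sum_filter_not _ (fun σ => D d (gs p k.1) k.2.1 k.2.2 σ)]
  rw [sum_D 𝒜 hcomm x d hx p hp k.1 (gs p k.1) k.2.1 k.2.2, sum_C 𝒜 hcomm x d hx p hp k.1
    (gs p k.1) k.2.1 k.2.2, add_zero]
  · intro σ
    simp only [mem_filter, mem_univ, true_and]
    constructor
    · rintro ⟨h1, h2⟩
      exact ⟨by rw [← h1]; exact hf σ, h2⟩
    · rintro ⟨h1, h2⟩
      exact ⟨huniq σ k h1, h2⟩
  · intro σ
    simp only [mem_filter, mem_univ, true_and]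
    constructor
    · rintro ⟨h1, h2⟩
      exact ⟨by rw [← h1]; exact hf σ, h2⟩
    · rintro ⟨h1, h2⟩
      exact ⟨huniq σ k h1, h2⟩

/-- the standard polynomial as a multilinear map -/
noncomputable def ML (F A : Type) [Field F] [Ring A] [Algebra F A] (n : ℕ) :
    MultilinearMap F (fun _ : Fin n => A) A :=
  ∑ σ : Perm (Fin n), ((Equiv.Perm.sign σ : ℤˣ) : ℤ) •
    (MultilinearMap.mkPiAlgebraFin F n A).domDomCongr σ

theorem ML_apply (x : Fin n → A) : ML F A n x = ∑ σ : Perm (Fin n), w x σ := by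
  unfold ML w
  simp

theorem main [Fintype G] (hcomm : ∀ a ∈ 𝒜 0, ∀ b ∈ 𝒜 0, a * b = b * a)
    (p : ℕ) (hp : 0 < p) [CharP F p] (hn : n = Fintype.card G * p) (x : Fin n → A) :
    ∑ σ : Perm (Fin n), w x σ = 0 := by
  classical
  rw [← ML_apply (F := F)]
  have hx : x = fun i => ∑ g : G, ((DirectSum.decompose 𝒜 (x i) g : 𝒜 g) : A) := by
    funext i
    have h1 := DirectSum.sum_support_decompose 𝒜 (x i)
    conv_lhs => rw [← h1]
    apply Finset.sum_subset (Finset.subset_univ _)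
    intro g _ hg
    simpa using hg
  rw [hx, MultilinearMap.map_sum]
  apply Finset.sum_eq_zero
  intro r _
  rw [ML_apply]
  exact sum_all 𝒜 hcomm _ r (fun i => SetLike.coe_mem _) p hp hn

end main2

end Pool.Agent.Helper8.StdGr
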