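import Mathlib

set_option autoImplicit false

namespace Pool.Agent.Helper8.SymSet

open Finset

variable {G : Type} [Group G] [Fintype G] [DecidableEq G] {r : ℕ}

def A (χ : G → Fin r) (g : G) (c : Fin r) : Finset G :=
  univ.filter (fun x => χ x = c ∧ χ (g * x⁻¹ * g) = c)

theorem sq_inj (hodd : Odd (Fintype.card G)) (a b : G) (h : a ^ 2 = b ^ 2) : a = b := by
  obtain ⟨k, hk⟩ := hodd
  have h1 : ∀ x : G, x = (x ^ 2) ^ (k + 1) := by
    intro x
    rw [← pow_mul]
    have : 2 * (k + 1) = Fintype.card G + 1 := by omega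
    rw [this, pow_succ, pow_card_eq_one, one_mul]
  rw [h1 a, h1 b, h]

theorem bij (hodd : Odd (Fintype.card G)) (x : G) :
    Function.Bijective (fun g : G => g * x⁻¹ * g) := by
  apply Finite.injective_iff_bijective.1
  intro g h hgh
  simp only at hgh
  have h1 : (g * x⁻¹) ^ 2 = (h * x⁻¹) ^ 2 := by
    rw [sq, sq, ← mul_assoc, hgh, ← mul_assoc]
  exact mul_right_cancel (sq_inj hodd _ _ h1)

theorem sum_A (hodd : Odd (Fintype.card G)) (χ : G → Fin r) :
    ∑ g : G, ∑ c : Fin r, (A χ g c).card =
      ∑ c : Fin r, ((univ.filter (fun x : G => χ x = c)).card) ^ 2 := by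
  have h1 : ∀ g : G, ∑ c : Fin r, (A χ g c).card =
      ∑ x : G, if χ (g * x⁻¹ * g) = χ x then 1 else 0 := by
    intro g
    unfold A
    simp only [Finset.card_filter]
    rw [Finset.sum_comm]
    apply Finset.sum_congr rfl
    intro x _
    rw [Finset.sum_eq_single (χ x)]
    · simp
    · intro c _ hc
      rw [if_neg]
      rintro ⟨h2, _⟩
      exact hc h2.symm
    · intro h; exact absurd (mem_univ _) h
  simp only [h1]
  rw [Finset.sum_comm]
  have h2 : ∀ x : G, ∑ g : G, (if χ (g * x⁻¹ * g) = χ x then 1 else 0) =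
      (univ.filter (fun y : G => χ y = χ x)).card := by
    intro x
    rw [Finset.card_filter]
    exact (Function.Bijective.sum_comp (bij hodd x) (fun y => if χ y = χ x then 1 else 0))
  simp only [h2]
  rw [← Finset.sum_fiberwise (s := (univ : Finset G)) (g := χ)]
  apply Finset.sum_congr rfl
  intro c _
  have h3 : ∀ x ∈ univ.filter (fun x : G => χ x = c),
      (univ.filter (fun y : G => χ y = χ x)).card = (univ.filter (fun y : G => χ y = c)).card := by
    intro x hx
    rw [(mem_filter.1 hx).2]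
  rw [Finset.sum_congr rfl h3, Finset.sum_const, smul_eq_mul, sq]

theorem inv_mem (χ : G → Fin r) (g : G) (c : Fin r) (x : G) :
    x ∈ A χ g c ↔ g * x⁻¹ * g ∈ A χ g c := by
  unfold A
  simp only [mem_filter, mem_univ, true_and]
  have : g * (g * x⁻¹ * g)⁻¹ * g = x := by group
  rw [this]
  exact and_comm

theorem fix_one (hodd : Odd (Fintype.card G)) (x : G) (h : (1 : G) * x⁻¹ * 1 = x) : x = 1 := by
  apply sq_inj hodd
  rw [one_pow, sq]
  have : x⁻¹ = x := by simpa using h
  nth_rewrite 1 [← this]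
  simp

theorem even_of (hodd : Odd (Fintype.card G)) (S : Finset G) (h1 : (1 : G) ∉ S)
    (hS : ∀ x ∈ S, (1 : G) * x⁻¹ * 1 ∈ S) : Even S.card := by
  have h : ∑ x ∈ S, (1 : ZMod 2) = 0 := by
    apply Finset.sum_involution (fun x _ => (1 : G) * x⁻¹ * 1)
    · intro x _; decide
    · intro x hx _ heq
      exact h1 (fix_one hodd x heq ▸ hx)
    · intro x hx; exact hS x hx
    · intro x _; simp
  rw [Finset.sum_const, nsmul_eq_mul, mul_one] at h
  exact (ZMod.natCast_eq_zero_iff_even).1 h

theorem main (hodd : Odd (Fintype.card G)) (hr : 1 < r) (χ : G → Fin r) :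
    ∃ g c, Fintype.card G < r ^ 2 * (A χ g c).card := by
  by_contra hcon
  push Not at hcon
  -- parity
  obtain ⟨c', hc'⟩ : ∃ c' : Fin r, c' ≠ χ 1 := by
    haveI : Nontrivial (Fin r) := Fin.nontrivial_iff_two_le.2 hr
    exact exists_ne (χ 1)
  have e1 : Even (A χ 1 c').card := by
    apply even_of hodd
    · unfold A; simp only [mem_filter, mem_univ, true_and]
      rintro ⟨h, _⟩; exact hc' h.symm
    · intro x hx; exact (inv_mem χ 1 c' x).1 hx
  have m1 : (1 : G) ∈ A χ 1 (χ 1) := by
    unfold A; simp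
  have e2 : Even ((A χ 1 (χ 1)).erase 1).card := by
    apply even_of hodd
    · simp
    · intro x hx
      rw [mem_erase] at hx ⊢
      refine ⟨?_, (inv_mem χ 1 (χ 1) x).1 hx.2⟩
      intro h
      apply hx.1
      simpa using h
  rw [card_erase_of_mem m1] at e2
  have hpos : 0 < (A χ 1 (χ 1)).card := card_pos.2 ⟨1, m1⟩
  have hne : (A χ 1 c').card ≠ (A χ 1 (χ 1)).card := by
    intro h
    rw [h] at e1
    rcases e1 with ⟨a, ha⟩
    rcases e2 with ⟨b, hb⟩
    omega
  -- counting
  have hlt : ∑ q : G × Fin r, r ^ 2 * (A χ q.1 q.2).card < ∑ q : G × Fin r, Fintype.card G := by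
    apply Finset.sum_lt_sum
    · intro q _; exact hcon q.1 q.2
    · by_contra h
      push Not at h
      have a1 := h (1, c') (mem_univ _)
      have a2 := h (1, χ 1) (mem_univ _)
      have b1 := hcon 1 c'
      have b2 := hcon 1 (χ 1)
      have : r ^ 2 * (A χ 1 c').card = r ^ 2 * (A χ 1 (χ 1)).card := by
        simp only at a1 a2
        omega
      exact hne (Nat.eq_of_mul_eq_mul_left (by positivity) this)
  rw [← Finset.mul_sum, Fintype.sum_prod_type, sum_A hodd χ, Finset.sum_const, card_univ,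
    Fintype.card_prod, Fintype.card_fin, smul_eq_mul] at hlt
  have hcs := sq_sum_le_card_mul_sum_sq (s := (univ : Finset (Fin r)))
    (f := fun c => (univ.filter (fun x : G => χ x = c)).card)
  have htot : ∑ c : Fin r, (univ.filter (fun x : G => χ x = c)).card = Fintype.card G := by
    rw [← card_univ]
    exact (Finset.card_eq_sum_card_fiberwise (fun _ _ => by simp)).symm
  rw [htot, card_univ, Fintype.card_fin] at hcs
  have : r * Fintype.card G ^ 2 ≤ r * (r * ∑ c : Fin r, (univ.filter (fun x : G => χ x = c)).card ^ 2) :=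
    Nat.mul_le_mul_left r hcs
  nlinarith

end Pool.Agent.Helper8.SymSet
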